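import Pool.Agent.H84.S2.AllB0
import Pool.Agent.H21.S2.DNGN
import Pool.Agent.H52.S2.GNN
import Pool.Agent.H52.S2.LDT
import Pool.Agent.H68.S2.D_KER
import Pool.Agent.H68.S2.D_VMU

/-!
# MP_70ba79_ag, THEOREM S, part 2 (nodal curves, any number of nodes): the final statement
-/

set_option autoImplicit false

namespace Pool.Agent.H84.S2

open Pool.Agent.H84.SF

theorem ldt : T_LDT := Pool.Agent.H52.S2.pf_LDT osf nfr Pool.Agent.H91.S2.pf_SMT pri chk
  Pool.Agent.H5.S2.pf_FRN Pool.Agent.H58.S2.pf_LGN rga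
theorem gnn : T_GNN := Pool.Agent.H52.S2.pf_GNN ldt hmk

/-- THEOREM S for all nodal curves -/
theorem thmA : T_FIN3 := thmA0 ldt gnn
  (ngs Pool.Agent.H68.S2.pf_VMU Pool.Agent.H68.S2.pf_KER Pool.Agent.H21.S2.pf_NGN)

end Pool.Agent.H84.S2
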