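import Pool.Agent.H3.S2.Defs
import Pool.Agent.H84.SF.Geo2

/-!
# MP_70ba79_ag, THEOREM S, part 2 (nodal curves): solutions of connections, targets

`O` is the local ring of a smooth point of the surface with a frame `X`, `Y` (generators of the
maximal ideal), and `G = X Y + ...` is the equation of a curve with a node. The point is blown up:
`O'` is the local ring of the blow-up at the point `Z = Y / X = 0` of the exceptional curve, and
`G = X ^ 2 G'` there, where `X`, `G'` is a frame of `O'`.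
-/

set_option autoImplicit false

namespace Pool.Agent.H84.S2

open MvPolynomial SC
open Pool.Agent.H27.LV (ge deg poleOrder canDeg)
open Pool.Agent.H84.SM (cr dt dp)
open Pool.Agent.H3.SF (Itg Bb BB Hm eu grd hes Sfc Crd Cnn Crf Prm nv)
open Pool.Agent.H84.SF
open Pool.Agent.H3.S2

section Defs

variable {k F σ : Type} [Field k] [Field F] [Algebra k F]

/-- the ideal of the line through `s` -/
def Lns (s : σ → k) : Ideal (MvPolynomial σ k) where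
  carrier := {f | ∀ μ : k, eval (μ • s) f = 0}
  zero_mem' := fun μ => by rw [map_zero]
  add_mem' := fun {a b} ha hb μ => by rw [map_add, ha μ, hb μ, add_zero]
  smul_mem' := fun c a ha μ => by rw [smul_eq_mul, map_mul, ha μ, mul_zero]

/-- near `s` the form `P (u)` is divisible by `GP` -/
def DvA (X : σ → F) (u : Fin 3 → F) (s : σ → k) (GP : MvPolynomial σ k)
    (P : MvPolynomial (Fin 3) k) : Prop :=
  ∃ (d d' : ℕ) (a b : MvPolynomial σ k), a.IsHomogeneous d' ∧ b.IsHomogeneous d ∧ eval s b ≠ 0 ∧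
    aeval u P * aeval X b = aeval X GP * aeval X a

/-- contact with the curve at the places with the centre `s`, with the constant `C` -/
def LP2 (X : σ → F) (u : Fin 3 → F) (J : MvPolynomial (Fin 3) k) (j0 m : ℕ) (G : F) (sg : ℕ)
    (S : MvPolynomial (Fin 3) k) (α : ℕ) (A : MvPolynomial (Fin 3) k)
    (b : MvPolynomial (Fin 3) F) (s : σ → k) (C : ℕ) : Prop :=
  ∀ (K : Type) [Field K] [Algebra k K] [Algebra.EssFiniteType k K], Algebra.trdeg k K = 1 →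
  ∀ (φ : Bb k u →ₐ[k] K) (x : Fin 3 → K) (g : K) (Sp : Finset (DV k K)),
  Crt u J m G sg S φ x g Sp → Prm φ → aeval x A ≠ 0 → ∀ D : Derivation k K K, D ≠ 0 →
  ∀ B : MvPolynomial (Fin 3) K, VM3 u φ b B → EqC D x A B → ∀ (v : DV k K) (c : K), c ≠ 0 →
  v.ord c = poleOrder v x → (∀ (i : σ) (b : Bb k u), (b : F) = X i →
    ge v 1 (c * φ b - algebraMap k K (s i))) →
  nv v x m g ≤ 4 * nv v x α (aeval x A) + 7 * nv v x j0 (aeval x J) + C

end Defs

/-! ### Local part -/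

/-- PRI: `G` is a prime element -/
def T_PRI : Prop := ∀ (k O : Type) [Field k] [CharZero k] [CommRing O] [IsDomain O]
  [IsNoetherianRing O] [Algebra k O] (ε : O →ₐ[k] k) (X G : O) (dX dG : Derivation k O O),
  Frm ε X G dX dG → Prime G ∧ ¬ G ∣ X

/-- PRL: a prime ideal which contains `G` and an element which is not divisible by `G` -/
def T_PRL : Prop := ∀ (k O : Type) [Field k] [CharZero k] [CommRing O] [IsDomain O]
  [IsNoetherianRing O] [Algebra k O] (ε : O →ₐ[k] k) (X G : O) (dX dG : Derivation k O O),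
  Frm ε X G dX dG → ∀ P : Ideal O, P.IsPrime → G ∈ P → ∀ h ∈ P, ¬ G ∣ h → ∀ t, ε t = 0 → t ∈ P

/-- FRG: change of the frame -/
def T_FRG : Prop := ∀ (k O : Type) [Field k] [CharZero k] [CommRing O] [Algebra k O]
  (ε : O →ₐ[k] k) (X Z : O) (dX dZ : Derivation k O O), Frm ε X Z dX dZ → ∀ ρ : O,
  ∃ (η : O) (dX' dG' : Derivation k O O), Frm ε X (Z + X * ρ) dX' dG' ∧ ε η ≠ 0 ∧
    (∀ h, dG' h = η * dZ h) ∧ ∀ h, dX' h = dX h - dX (Z + X * ρ) * dG' h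

/-- BLW: the blow-up of a point -/
def T_BLW : Prop := ∀ (k O : Type) [Field k] [CharZero k] [CommRing O] [IsDomain O]
  [IsNoetherianRing O] [Algebra k O] (ε : O →ₐ[k] k) (X Y : O) (dX dY : Derivation k O O),
  Frm ε X Y dX dY → ∃ (O' : Type) (_ : CommRing O') (_ : IsDomain O') (_ : IsNoetherianRing O')
    (_ : Algebra k O') (ι : O →ₐ[k] O') (ε' : O' →ₐ[k] k) (Z : O') (dX' dZ' : Derivation k O' O'),
    Function.Injective ι ∧ ι Y = ι X * Z ∧ (∀ h, ε' (ι h) = ε h) ∧ Frm ε' (ι X) Z dX' dZ' ∧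
    (∀ h, dZ' (ι h) = ι X * ι (dY h)) ∧ (∀ h, dX' (ι h) = ι (dX h) + Z * ι (dY h)) ∧
    ∀ (K : Type) [Field K] [Algebra k K] (x : O →ₐ[k] K) (v : DV k K), (∀ h, ge v 0 (x h)) →
      (∀ h, ε h = 0 → ge v 1 (x h)) → x X ≠ 0 → (x Y = 0 ∨ v.ord (x X) < v.ord (x Y)) →
      ∃ x' : O' →ₐ[k] K, (∀ h, x' (ι h) = x h) ∧ (∀ h, ge v 0 (x' h)) ∧
        ∀ h, ε' h = 0 → ge v 1 (x' h)

/-- LCX: contact with the curve at a node, if the curve is tangent to `Y = 0` -/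
def T_LCX : Prop := ∀ (k O : Type) [Field k] [IsAlgClosed k] [CharZero k] [CommRing O]
  [IsDomain O] [IsNoetherianRing O] [Algebra k O] (ε : O →ₐ[k] k) (X Y : O)
  (dX dY : Derivation k O O), Frm ε X Y dX dY → ∀ G : O, G - X * Y ∈ Ideal.span {X, Y} ^ 3 →
  ∀ (p : Fin 3 → O) (A : O) (b : MvPolynomial (Fin 3) O) (E : O) (N : ℕ), b.IsHomogeneous 3 →
  E ∣ A ^ N → (∀ δ : Derivation k O O, (∀ h, δ h = dY G * dX h - dX G * dY h) →
    G ∣ (A * dt p (fun i => δ (p i)) (fun i => δ (δ (p i))) + eval (fun i => δ (p i)) b) * E) →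
  ∃ C : ℕ, ∀ (K : Type) [Field K] [Algebra k K] [Algebra.EssFiniteType k K],
  Algebra.trdeg k K = 1 → ∀ (D : Derivation k K K), D ≠ 0 → ∀ (x : O →ₐ[k] K) (v : DV k K),
  (∀ h, ge v 0 (x h)) → (∀ h, ε h = 0 → ge v 1 (x h)) → x G ≠ 0 →
  x (A * dt p (fun i => dX (p i)) (fun i => dY (p i))) ≠ 0 →
  IntermediateField.adjoin k (Set.range x) = ⊤ →
  x A * dt (fun i => x (p i)) (fun i => D (x (p i))) (fun i => D (D (x (p i)))) +
    eval₂ (x : O →+* K) (fun i => D (x (p i))) b = 0 →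
  x X ≠ 0 → (x Y = 0 ∨ v.ord (x X) < v.ord (x Y)) →
  v.ord (x G) ≤ v.ord (x (A * dt p (fun i => dX (p i)) (fun i => dY (p i)))) +
    3 * v.ord (x X) ∨ v.ord (x G) ≤ C + 3 * v.ord (x X)

/-- LCN: contact with the curve at a node -/
def T_LCN : Prop := ∀ (k O : Type) [Field k] [IsAlgClosed k] [CharZero k] [CommRing O]
  [IsDomain O] [IsNoetherianRing O] [Algebra k O] (ε : O →ₐ[k] k) (X Y : O)
  (dX dY : Derivation k O O), Frm ε X Y dX dY → ∀ G : O, G - X * Y ∈ Ideal.span {X, Y} ^ 3 →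
  ∀ (p : Fin 3 → O) (A : O) (b : MvPolynomial (Fin 3) O) (E : O) (N : ℕ), b.IsHomogeneous 3 →
  E ∣ A ^ N → (∀ δ : Derivation k O O, (∀ h, δ h = dY G * dX h - dX G * dY h) →
    G ∣ (A * dt p (fun i => δ (p i)) (fun i => δ (δ (p i))) + eval (fun i => δ (p i)) b) * E) →
  ∃ C : ℕ, ∀ (K : Type) [Field K] [Algebra k K] [Algebra.EssFiniteType k K],
  Algebra.trdeg k K = 1 → ∀ (D : Derivation k K K), D ≠ 0 → ∀ (x : O →ₐ[k] K) (v : DV k K),
  (∀ h, ge v 0 (x h)) → (∀ h, ε h = 0 → ge v 1 (x h)) → x G ≠ 0 →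
  x (A * dt p (fun i => dX (p i)) (fun i => dY (p i))) ≠ 0 →
  IntermediateField.adjoin k (Set.range x) = ⊤ →
  x A * dt (fun i => x (p i)) (fun i => D (x (p i))) (fun i => D (D (x (p i)))) +
    eval₂ (x : O →+* K) (fun i => D (x (p i))) b = 0 →
  ∀ t, ε t = 0 → x t ≠ 0 →
  v.ord (x G) ≤ v.ord (x (A * dt p (fun i => dX (p i)) (fun i => dY (p i)))) +
    3 * v.ord (x t) ∨ v.ord (x G) ≤ C + 3 * v.ord (x t)

/-! ### Geometric part -/

/-- UNZ: some `u l` does not vanish at `s` -/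
def T_UNZ : Prop := ∀ (k F σ : Type) [Field k] [IsAlgClosed k] [CharZero k] [Field F]
  [Algebra k F] [Fintype σ] (X : σ → F) (u : Fin 3 → F) (dd : Fin 3 → Derivation k F F)
  (J : MvPolynomial (Fin 3) k) (j0 : ℕ), SYd X u dd J j0 → ∀ s : σ → k, s ≠ 0 → Cone X s →
  ∃ (l : Fin 3) (U : MvPolynomial σ k), U.IsHomogeneous 1 ∧ aeval X U = u l ∧ eval s U ≠ 0

/-- DSH: the curve is a solution of the equation, up to powers of `J` and `S` -/
def T_DSH : Prop := ∀ (k F σ : Type) [Field k] [IsAlgClosed k] [CharZero k] [Field F]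
  [Algebra k F] [Fintype σ] [DecidableEq σ] (X : σ → F) (u : Fin 3 → F)
  (dd : Fin 3 → Derivation k F F) (J : MvPolynomial (Fin 3) k) (j0 m : ℕ) (G : F) (sg : ℕ)
  (S : MvPolynomial (Fin 3) k), SYd X u dd J j0 → 2 ≤ m → Crs u dd m G sg S → ∀ s : σ → k,
  s ≠ 0 → Cone X s → ∀ L0 : MvPolynomial σ k, L0.IsHomogeneous 1 → eval s L0 ≠ 0 →
  ∀ (c : Fin 3 → F) (δ : Derivation k (Os X s) (Os X s)),
  (∀ h : Os X s, ((δ h : Os X s) : F) = (∑ l, c l • dd l) (h : F)) →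
  (∑ l, c l • dd l) (aeval X L0) = 0 → (∑ l, c l • dd l) G = 0 →
  ∀ Gs : Os X s, (Gs : F) * aeval X L0 ^ m = G → ∀ (α : ℕ) (A : MvPolynomial (Fin 3) k)
  (b : MvPolynomial (Fin 3) F), Cnn u dd J m G α A b →
  ∀ (p : Fin 3 → Os X s) (A1 : Os X s) (b1 : MvPolynomial (Fin 3) (Os X s)),
  Lft X s u J j0 L0 α A b p A1 b1 → ∃ js Ss : Os X s, (js : F) * aeval X L0 ^ j0 = aeval u J ∧
    (Ss : F) * aeval X L0 ^ sg = aeval u S ∧
    Gs ∣ (A1 * dt p (fun i => δ (p i)) (fun i => δ (δ (p i))) + eval (fun i => δ (p i)) b1) *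
      (js ^ 9 * Ss ^ 3)

/-- SNZ: the form `J S` vanishes at the nodes -/
def T_SNZ : Prop := ∀ (k F σ : Type) [Field k] [IsAlgClosed k] [CharZero k] [Field F]
  [Algebra k F] [Fintype σ] (X : σ → F) (u : Fin 3 → F) (dd : Fin 3 → Derivation k F F)
  (J : MvPolynomial (Fin 3) k) (j0 m : ℕ) (GP : MvPolynomial σ k) (sg : ℕ)
  (S : MvPolynomial (Fin 3) k), SYd X u dd J j0 → Crs u dd m (aeval X GP) sg S →
  ∀ s : σ → k, s ≠ 0 → Cone X s → Nod X GP s → ∀ U : Fin 3 → MvPolynomial σ k,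
  (∀ l, aeval X (U l) = u l) → eval (fun l => eval s (U l)) (J * S) = 0

/-- NF1: a frame of linear forms -/
def T_NF1 : Prop := ∀ (k F σ : Type) [Field k] [IsAlgClosed k] [CharZero k] [Field F]
  [Algebra k F] [Fintype σ] [DecidableEq σ] (X : σ → F) (u : Fin 3 → F)
  (dd : Fin 3 → Derivation k F F) (J : MvPolynomial (Fin 3) k) (j0 : ℕ), SYd X u dd J j0 →
  ∀ s : σ → k, s ≠ 0 → Cone X s →
  (∀ y : Fin 4 → σ → k, (∀ i, TgY X s (y i)) → ¬ LinearIndependent k y) →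
  IsNoetherianRing (Os X s) ∧ ∃ (L0 L1 L2 : MvPolynomial σ k) (cX cY : Fin 3 → F)
    (ε : Os X s →ₐ[k] k) (x1 y1 : Os X s) (dX dY : Derivation k (Os X s) (Os X s)),
    L2.IsHomogeneous 1 ∧ FrO X s dd 1 L2 L0 L1 cX cY ε x1 y1 dX dY

/-- NF2: linear changes of the frame -/
def T_NF2 : Prop := ∀ (k F σ : Type) [Field k] [CharZero k] [Field F] [Algebra k F] (X : σ → F)
  (s : σ → k) (dd : Fin 3 → Derivation k F F) (L0 L1 L2 : MvPolynomial σ k) (cX cY : Fin 3 → F)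
  (ε : Os X s →ₐ[k] k) (x1 y1 : Os X s) (dX dY : Derivation k (Os X s) (Os X s)),
  L2.IsHomogeneous 1 → FrO X s dd 1 L2 L0 L1 cX cY ε x1 y1 dX dY → ∀ a b c d : k,
  a * d - b * c ≠ 0 → ∃ (cX' cY' : Fin 3 → F) (dX' dY' : Derivation k (Os X s) (Os X s)),
    FrO X s dd 1 (c • L1 + d • L2) L0 (a • L1 + b • L2) cX' cY' ε (a • x1 + b • y1)
      (c • x1 + d • y1) dX' dY'

/-- NF3: the quadratic part of the equation at a node -/
def T_NF3 : Prop := ∀ (k F σ : Type) [Field k] [IsAlgClosed k] [CharZero k] [Field F]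
  [Algebra k F] [Fintype σ] [DecidableEq σ] (X : σ → F) (dd : Fin 3 → Derivation k F F)
  (s : σ → k), s ≠ 0 → Cone X s → ∀ (L0 L1 L2 : MvPolynomial σ k) (cX cY : Fin 3 → F)
  (ε : Os X s →ₐ[k] k) (x1 y1 : Os X s) (dX dY : Derivation k (Os X s) (Os X s)),
  L2.IsHomogeneous 1 → FrO X s dd 1 L2 L0 L1 cX cY ε x1 y1 dX dY → ∀ (m : ℕ)
  (GP : MvPolynomial σ k), GP.IsHomogeneous m → eval s GP = 0 → Nod X GP s → ∀ Gs : Os X s,
  (Gs : F) * aeval X L0 ^ m = aeval X GP → ∃ a b c : k, b ^ 2 - 4 * a * c ≠ 0 ∧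
    Gs - (a • x1 ^ 2 + b • (x1 * y1) + c • y1 ^ 2) ∈ Ideal.span {x1, y1} ^ 3

/-- NFR: the frame at a node -/
def T_NFR : Prop := ∀ (k F σ : Type) [Field k] [IsAlgClosed k] [CharZero k] [Field F]
  [Algebra k F] [Fintype σ] [DecidableEq σ] (X : σ → F) (u : Fin 3 → F)
  (dd : Fin 3 → Derivation k F F) (J : MvPolynomial (Fin 3) k) (j0 : ℕ), SYd X u dd J j0 →
  ∀ (m : ℕ) (GP : MvPolynomial σ k), GP.IsHomogeneous m → ∀ s : σ → k, s ≠ 0 → Cone X s →
  eval s GP = 0 → Nod X GP s → IsNoetherianRing (Os X s) ∧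
  ∃ (L0 L1 L2 : MvPolynomial σ k) (cX cY : Fin 3 → F) (ε : Os X s →ₐ[k] k)
    (x1 y1 Gs : Os X s) (dX dY : Derivation k (Os X s) (Os X s)), L2.IsHomogeneous 1 ∧
    FrO X s dd 1 L2 L0 L1 cX cY ε x1 y1 dX dY ∧ (Gs : F) * aeval X L0 ^ m = aeval X GP ∧
    Gs - x1 * y1 ∈ Ideal.span {x1, y1} ^ 3

/-- SMT: the tangent space of the curve at a smooth point -/
def T_SMT : Prop := ∀ (k F σ : Type) [Field k] [Field F] [Algebra k F] [Fintype σ] (X : σ → F)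
  (GP : MvPolynomial σ k) (s : σ → k), SmP X GP s → Module.finrank k (Tng X s GP) ≤ 2

/-- VFO: the order of a form -/
def T_VFO : Prop := ∀ (k F σ K : Type) [Field k] [CharZero k] [Field F] [Algebra k F] [Field K]
  [Algebra k K] (X : σ → F) (s : σ → k) (ε : Os X s →ₐ[k] k) (v : DV k K) (x : Fin 3 → K)
  (z : σ → K) (y : Os X s →ₐ[k] K), HmK X s z ε v y → ∀ c : K, c ≠ 0 →
  v.ord c = poleOrder v x → (∀ i, ge v 1 (c * z i - algebraMap k K (s i))) →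
  ∀ L0 : MvPolynomial σ k, L0.IsHomogeneous 1 → eval s L0 ≠ 0 → ∀ (e : ℕ)
  (f : MvPolynomial σ k) (h : Os X s), f.IsHomogeneous e →
  (h : F) * aeval X L0 ^ e = aeval X f → aeval z f ≠ 0 →
  y h ≠ 0 ∧ v.ord (y h) = nv v x e (aeval z f)

/-- JB2: the order of the leading coefficient, for the frame of a form `GP'` of degree `m'` -/
def T_JB2 : Prop := ∀ (k F σ K : Type) [Field k] [IsAlgClosed k] [CharZero k] [Field F]
  [Algebra k F] [Fintype σ] [DecidableEq σ] [Field K] [Algebra k K]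
  [Algebra.EssFiniteType k K], Algebra.trdeg k K = 1 → ∀ (X : σ → F) (u : Fin 3 → F)
  (dd : Fin 3 → Derivation k F F) (J : MvPolynomial (Fin 3) k) (j0 : ℕ), SYd X u dd J j0 →
  ∀ (m' : ℕ) (GP' : MvPolynomial σ k), 1 ≤ m' → GP'.IsHomogeneous m' → ∀ s : σ → k, Cone X s →
  ∀ (L0 L1 : MvPolynomial σ k) (cX cG : Fin 3 → F) (ε : Os X s →ₐ[k] k)
  (x1 Gs : Os X s) (dX dG : Derivation k (Os X s) (Os X s)),
  FrO X s dd m' GP' L0 L1 cX cG ε x1 Gs dX dG → ∀ (α : ℕ)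
  (A : MvPolynomial (Fin 3) k) (b : MvPolynomial (Fin 3) F), A.IsHomogeneous α →
  ∀ (p : Fin 3 → Os X s) (A1 : Os X s) (b1 : MvPolynomial (Fin 3) (Os X s)),
  Lft X s u J j0 L0 α A b p A1 b1 → ∀ (φ : Bb k u →ₐ[k] K) (x : Fin 3 → K),
  (∀ (i : Fin 3) (b : Bb k u), (b : F) = u i → φ b = x i) → (∃ j, x j = 1) →
  aeval x J ≠ 0 → aeval x A ≠ 0 → ∀ (v : DV k K) (c : K), c ≠ 0 →
  v.ord c = poleOrder v x → (∀ (i : σ) (b : Bb k u), (b : F) = X i →
    ge v 1 (c * φ b - algebraMap k K (s i))) → ∀ z : σ → K,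
  (∀ (i : σ) (b : Bb k u), (b : F) = X i → φ b = z i) → ∀ y : Os X s →ₐ[k] K,
  HmK X s z ε v y → y (Aloc dX dG p A1) ≠ 0 ∧
    v.ord (y (Aloc dX dG p A1)) ≤ nv v x α (aeval x A) + 4 * nv v x j0 (aeval x J)

/-- MPR: finitely many points whose ideals are minimal prime ideals -/
def T_MPR : Prop := ∀ (k σ : Type) [Field k] [Fintype σ] (Q : Ideal (MvPolynomial σ k)),
  ∃ T : Finset (σ → k), ∀ s : σ → k, s ≠ 0 → Lns s ∈ Q.minimalPrimes →
    ∃ t ∈ T, ∃ μ : k, μ ≠ 0 ∧ s = μ • t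

/-- MPL: minimal prime ideals and the local ring -/
def T_MPL : Prop := ∀ (k F σ : Type) [Field k] [IsAlgClosed k] [CharZero k] [Field F]
  [Algebra k F] [Fintype σ] (X : σ → F) (s : σ → k), s ≠ 0 → Cone X s →
  ∀ (ε : Os X s →ₐ[k] k), (∀ (h : Os X s) (d : ℕ) (a b : MvPolynomial σ k),
    Rep X (h : F) d a b → ε h * eval s b = eval s a) → ∀ L0 : MvPolynomial σ k,
  L0.IsHomogeneous 1 → eval s L0 ≠ 0 → ∀ Q : Ideal (MvPolynomial σ k),
  (∀ f : MvPolynomial σ k, aeval X f = 0 → f ∈ Q) → Q ≤ Lns s →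
  (∀ P : Ideal (Os X s), P.IsPrime → (∀ (f : MvPolynomial σ k) (d : ℕ) (h : Os X s), f ∈ Q →
    f.IsHomogeneous d → (h : F) * aeval X L0 ^ d = aeval X f → h ∈ P) →
    ∀ h, ε h = 0 → h ∈ P) → Lns s ∈ Q.minimalPrimes

/-- FND: finitely many nodes -/
def T_FND : Prop := ∀ (k F σ : Type) [Field k] [IsAlgClosed k] [CharZero k] [Field F]
  [Algebra k F] [Fintype σ] [DecidableEq σ] (X : σ → F) (u : Fin 3 → F)
  (dd : Fin 3 → Derivation k F F) (J : MvPolynomial (Fin 3) k) (j0 : ℕ), SYd X u dd J j0 →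
  ∀ (m : ℕ) (GP : MvPolynomial σ k), GP.IsHomogeneous m → ∃ T : Finset (σ → k),
  ∀ s : σ → k, s ≠ 0 → Cone X s → eval s GP = 0 → Nod X GP s → ∃ t ∈ T, ∃ μ : k, μ ≠ 0 ∧
    s = μ • t

/-- FNE: finitely many smooth points of the curve with `P = 0` where `P` is not divisible by the
equation of the curve -/
def T_FNE : Prop := ∀ (k F σ : Type) [Field k] [IsAlgClosed k] [CharZero k] [Field F]
  [Algebra k F] [Fintype σ] [DecidableEq σ] (X : σ → F) (u : Fin 3 → F)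
  (dd : Fin 3 → Derivation k F F) (J : MvPolynomial (Fin 3) k) (j0 : ℕ), SYd X u dd J j0 →
  ∀ (m : ℕ) (GP : MvPolynomial σ k), 1 ≤ m → GP.IsHomogeneous m → ∀ (e : ℕ)
  (P : MvPolynomial (Fin 3) k), P.IsHomogeneous e → ∃ T : Finset (σ → k),
  ∀ s : σ → k, s ≠ 0 → Cone X s → eval s GP = 0 → SmP X GP s → ¬ DvA X u s GP P →
  (∀ U : Fin 3 → MvPolynomial σ k, (∀ l, aeval X (U l) = u l) →
    eval (fun l => eval s (U l)) P = 0) → ∃ t ∈ T, ∃ μ : k, μ ≠ 0 ∧ s = μ • t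

/-- TRV: contact at the points where `J A` is divisible by the equation of the curve -/
def T_TRV : Prop := ∀ (k F σ : Type) [Field k] [IsAlgClosed k] [CharZero k] [Field F]
  [Algebra k F] [Fintype σ] [DecidableEq σ] (X : σ → F) (u : Fin 3 → F)
  (dd : Fin 3 → Derivation k F F) (J : MvPolynomial (Fin 3) k) (j0 m : ℕ) (G : F)
  (GP : MvPolynomial σ k) (sg : ℕ) (S : MvPolynomial (Fin 3) k), SYd X u dd J j0 → 2 ≤ m →
  Crs u dd m G sg S → GP.IsHomogeneous m → aeval X GP = G → ∀ (α : ℕ)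
  (A : MvPolynomial (Fin 3) k) (b : MvPolynomial (Fin 3) F), Cnn u dd J m G α A b →
  ∀ s : σ → k, s ≠ 0 → Cone X s → DvA X u s GP (J * A) → LP2 X u J j0 m G sg S α A b s 0

/-- LS2: contact at a smooth point of the curve -/
def T_LS2 : Prop := ∀ (k F σ : Type) [Field k] [IsAlgClosed k] [CharZero k] [Field F]
  [Algebra k F] [Fintype σ] [DecidableEq σ] (X : σ → F) (u : Fin 3 → F)
  (dd : Fin 3 → Derivation k F F) (J : MvPolynomial (Fin 3) k) (j0 m : ℕ) (G : F)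
  (GP : MvPolynomial σ k) (sg : ℕ) (S : MvPolynomial (Fin 3) k), SYd X u dd J j0 → 2 ≤ m →
  Crs u dd m G sg S → GP.IsHomogeneous m → aeval X GP = G → ∀ (α : ℕ)
  (A : MvPolynomial (Fin 3) k) (b : MvPolynomial (Fin 3) F), Cnn u dd J m G α A b → S ∣ A →
  ∀ s : σ → k, s ≠ 0 → Cone X s → eval s GP = 0 → SmP X GP s → ¬ DvA X u s GP (J * A) →
  (∃ C : ℕ, LP2 X u J j0 m G sg S α A b s C) ∧
  ((∃ U : Fin 3 → MvPolynomial σ k, (∀ l, aeval X (U l) = u l) ∧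
    eval (fun l => eval s (U l)) A ≠ 0) → LP2 X u J j0 m G sg S α A b s 1)

/-- LSN: contact at a node of the curve -/
def T_LSN : Prop := ∀ (k F σ : Type) [Field k] [IsAlgClosed k] [CharZero k] [Field F]
  [Algebra k F] [Fintype σ] [DecidableEq σ] (X : σ → F) (u : Fin 3 → F)
  (dd : Fin 3 → Derivation k F F) (J : MvPolynomial (Fin 3) k) (j0 m : ℕ) (G : F)
  (GP : MvPolynomial σ k) (sg : ℕ) (S : MvPolynomial (Fin 3) k), SYd X u dd J j0 → 2 ≤ m →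
  Crs u dd m G sg S → GP.IsHomogeneous m → aeval X GP = G → ∀ (α : ℕ)
  (A : MvPolynomial (Fin 3) k) (b : MvPolynomial (Fin 3) F), Cnn u dd J m G α A b → S ∣ A →
  ∀ s : σ → k, s ≠ 0 → Cone X s → eval s GP = 0 → Nod X GP s →
  ∃ C : ℕ, LP2 X u J j0 m G sg S α A b s C

/-- LC3: contact of the solutions at all places -/
def T_LC3 : Prop := ∀ (k F σ : Type) [Field k] [IsAlgClosed k] [CharZero k] [Field F]
  [Algebra k F] [Fintype σ] [DecidableEq σ] (X : σ → F) (u : Fin 3 → F)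
  (dd : Fin 3 → Derivation k F F) (J : MvPolynomial (Fin 3) k) (j0 m : ℕ) (G : F)
  (GP : MvPolynomial σ k) (sg : ℕ) (S : MvPolynomial (Fin 3) k), SYd X u dd J j0 → 2 ≤ m →
  Crs u dd m G sg S → GP.IsHomogeneous m → aeval X GP = G → Ndl X GP → ∀ (α : ℕ)
  (A : MvPolynomial (Fin 3) k) (b : MvPolynomial (Fin 3) F), Cnn u dd J m G α A b → S ∣ A →
  ∃ C : ℕ, ∀ (K : Type) [Field K] [Algebra k K] [Algebra.EssFiniteType k K],
  Algebra.trdeg k K = 1 → ∀ (φ : Bb k u →ₐ[k] K) (x : Fin 3 → K) (g : K)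
  (Sp : Finset (DV k K)), Crt u J m G sg S φ x g Sp → Prm φ → aeval x A ≠ 0 →
  ∀ D : Derivation k K K, D ≠ 0 → ∀ B : MvPolynomial (Fin 3) K, VM3 u φ b B → EqC D x A B →
  (m : ℤ) * deg k x ≤ (sg + 4 * α + 7 * j0) * deg k x + C * Sp.card

end Pool.Agent.H84.S2
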