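import Pool.Agent.H84.S2.Fin2
import Pool.Agent.H84.S2.Tg
import Pool.Agent.H3.S2.Tg
import Pool.Agent.H3.S2.QEX

/-!
# MP_70ba79_ag, THEOREM S, part 2 (nodal curves): case B, curves with many nodes

If the curve `G = 0` has many nodes then there are sections of degree 0 in `w` (logarithmic
symmetric differentials) of negative twist. Such a section is regular at the nodes: at a node the
logarithmic vector fields are generated by `R` with `R G = G` and `η` with `η G = 0`.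
-/

set_option autoImplicit false

namespace Pool.Agent.H84.S2

open MvPolynomial SC
open Pool.Agent.H27.LV (ge deg poleOrder canDeg)
open Pool.Agent.H84.SM (cr dt dp)
open Pool.Agent.H84.SL (pd)
open Pool.Agent.H92.SF (Q2)
open Pool.Agent.H3.SF (Itg Bb BB Hm eu grd hes Sfc Crd Cnn Crf Prm nv Vl VQ evc FE E)
open Pool.Agent.H84.SF
open Pool.Agent.H3.S2

section Defs

variable {k F σ : Type} [Field k] [Field F] [Algebra k F]

/-- a nodal curve on the surface, no condition on the number of the nodes -/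
structure Nc [Fintype σ] (X : σ → F) (m : ℕ) (GP : MvPolynomial σ k) : Prop where
  hom : GP.IsHomogeneous m
  ne : aeval X GP ≠ 0
  ndl : Ndl X GP

/-- a set of different nodes -/
structure NSet [Fintype σ] (X : σ → F) (GP : MvPolynomial σ k) (T : Finset (σ → k)) : Prop where
  nod : ∀ s ∈ T, s ≠ 0 ∧ Cone X s ∧ eval s GP = 0 ∧ Nod X GP s
  inj : ∀ s ∈ T, ∀ t ∈ T, ∀ c : k, s = c • t → s = t

/-- the value of the section `V` of degree 0 in `w` at the vector `c`: `V (u × c)` -/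
noncomputable def Vc (u c : Fin 3 → F) (V : Q2 F) : F :=
  eval ![cr u c 1, cr u c 2] (V.coeff 0)

/-- the coefficient of `α ^ (n - i) β ^ i` in `V (u × (α r + β c))` -/
noncomputable def Vi (u r c : Fin 3 → F) (V : Q2 F) (n i : ℕ) : F :=
  coeff (Finsupp.single 0 (n - i) + Finsupp.single 1 i)
    (aeval (![C (cr u r 1) * X 0 + C (cr u c 1) * X 1, C (cr u r 2) * X 0 + C (cr u c 2) * X 1] :
      Fin 2 → MvPolynomial (Fin 2) F) (V.coeff 0))

end Defs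

/-- NG1: curves with many nodes: a section of degree 0 in `w` and of negative twist -/
def T_NG1 : Prop := ∀ δ j0 c0 q : ℕ, ∃ m0 : ℕ, ∀ (k F σ : Type) [Field k] [IsAlgClosed k]
  [CharZero k] [Field F] [Algebra k F] [Fintype σ] [DecidableEq σ] (X : σ → F) (u : Fin 3 → F)
  (dd : Fin 3 → Derivation k F F) (J : MvPolynomial (Fin 3) k), Sfc u dd δ j0 c0 J →
  Cor X u dd J → ∀ (m : ℕ) (GP : MvPolynomial σ k), m0 ≤ m → Nc X m GP →
  ∀ T : Finset (σ → k), NSet X GP T → m ^ 2 ≤ q * T.card →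
  ∃ (n t : ℕ) (V : Q2 F), (2 * n + 1) * j0 < t ∧ V ≠ 0 ∧ V.natDegree = 0 ∧
    V ∈ E u dd J m (aeval X GP) n (-(t : ℤ))

/-! ### Local part -/

/-- FRN: a frame for other generators -/
def T_FRN : Prop := ∀ (k O : Type) [Field k] [CharZero k] [CommRing O] [Algebra k O]
  (ε : O →ₐ[k] k) (X Y : O) (dX dY : Derivation k O O), Frm ε X Y dX dY → ∀ α β : O,
  α - X ∈ Ideal.span {X, Y} ^ 2 → β - Y ∈ Ideal.span {X, Y} ^ 2 →
  ∃ dα dβ : Derivation k O O, Frm ε α β dα dβ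

/-- LGN: the logarithmic vector fields at a node -/
def T_LGN : Prop := ∀ (k O : Type) [Field k] [CharZero k] [CommRing O] [IsDomain O]
  [Algebra k O] (ε : O →ₐ[k] k) (X Y : O) (dX dY : Derivation k O O), Frm ε X Y dX dY →
  ∀ G : O, G - X * Y ∈ Ideal.span {X, Y} ^ 3 → ∃ α β : O, ε α = 0 ∧ ε β = 0 ∧
  α * dX G + β * dY G = G ∧ ∀ (K : Type) [Field K] [Algebra k K] (x : O →ₐ[k] K) (v : DV k K),
  (∀ h, ge v 0 (x h)) → (∀ h, ε h = 0 → ge v 1 (x h)) → x G ≠ 0 →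
  ∀ (D : Derivation k K K) (e : ℤ), (∀ z, z ≠ 0 → ge v (v.ord z + e) (D z)) →
  (∀ h, D (x h) = x (dX h) * D (x X) + x (dY h) * D (x Y)) → ∃ a b : K, ge v e a ∧ ge v e b ∧
    ∀ h, D (x h) = a * x (α * dX h + β * dY h) + b * x (dY G * dX h - dX G * dY h)

/-- VDM: coefficients of a polynomial with values in a subspace -/
def T_VDM : Prop := ∀ (k F : Type) [Field k] [CharZero k] [AddCommGroup F] [Module k F]
  (Z : Submodule k F) (n : ℕ) (g : ℕ → F),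
  (∀ μ : k, ∑ i ∈ Finset.range (n + 1), μ ^ i • g i ∈ Z) → ∀ i, i ≤ n → g i ∈ Z

/-! ### Geometric part -/

/-- RGA: regularity of a section along logarithmic vector fields, up to powers of derivatives of the
equation of the curve -/
def T_RGA : Prop := ∀ (k F σ : Type) [Field k] [IsAlgClosed k] [CharZero k] [Field F]
  [Algebra k F] [Fintype σ] [DecidableEq σ] (X : σ → F) (u : Fin 3 → F)
  (dd : Fin 3 → Derivation k F F) (J : MvPolynomial (Fin 3) k) (j0 : ℕ), SYd X u dd J j0 →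
  ∀ (m : ℕ) (GP : MvPolynomial σ k), 1 ≤ m → Nc X m GP → ∀ s : σ → k, s ≠ 0 → Cone X s →
  ∀ L0 : MvPolynomial σ k, L0.IsHomogeneous 1 → eval s L0 ≠ 0 → ∀ (n t : ℕ) (V : Q2 F),
  V ∈ E u dd J m (aeval X GP) n (-(t : ℤ)) → V.natDegree = 0 →
  ∀ (c e : Fin 3 → F) (γ κ : Fin 3 → Os X s) (h g1 : Os X s),
  (∀ l, (γ l : F) * aeval X L0 = c l) → (∀ l, (κ l : F) * aeval X L0 = e l) →
  ∑ l, dd l (aeval X GP) * c l = (h : F) * aeval X GP →
  ∑ l, dd l (aeval X GP) * e l = (g1 : F) * aeval X L0 ^ m →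
  ∃ f : Os X s, (f : F) * aeval X L0 ^ ((2 * n + 1) * j0) =
    (g1 : F) ^ n * aeval u J ^ (2 * n + 1) * aeval X L0 ^ t * Vc u c V

/-- LDT: the local data at a point `s` of the curve: two logarithmic vector fields with the
coefficients `L0 r l`, `L0 c l` -/
def T_LDT : Prop := ∀ (k F σ : Type) [Field k] [IsAlgClosed k] [CharZero k] [Field F]
  [Algebra k F] [Fintype σ] [DecidableEq σ] (X : σ → F) (u : Fin 3 → F)
  (dd : Fin 3 → Derivation k F F) (J : MvPolynomial (Fin 3) k) (j0 : ℕ), SYd X u dd J j0 →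
  ∀ (m : ℕ) (GP : MvPolynomial σ k), 1 ≤ m → Nc X m GP → ∀ s : σ → k, s ≠ 0 → Cone X s →
  eval s GP = 0 → ∃ (L0 : MvPolynomial σ k) (ε : Os X s →ₐ[k] k) (p r c : Fin 3 → Os X s)
    (Gs : Os X s), L0.IsHomogeneous 1 ∧ eval s L0 ≠ 0 ∧
    (∀ l, (p l : F) * aeval X L0 = u l) ∧ (Gs : F) * aeval X L0 ^ m = aeval X GP ∧
    (∀ (h : Os X s) (d : ℕ) (a b : MvPolynomial σ k), Rep X (h : F) d a b →
      ε h * eval s b = eval s a) ∧
    (∃ w : Os X s, dt p r c = Gs * w) ∧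
    (∀ (K : Type) [Field K] [Algebra k K] (y : Os X s →ₐ[k] K) (v : DV k K), (∀ h, ge v 0 (y h)) →
      (∀ h, ε h = 0 → ge v 1 (y h)) → y Gs ≠ 0 → ∀ (D : Derivation k K K) (e : ℤ),
      (∀ z, z ≠ 0 → ge v (v.ord z + e) (D z)) → ∃ a b : K, ge v e a ∧ ge v e b ∧
        ∀ l, D (y (p l)) = a * y (r l) + b * y (c l)) ∧
    ∀ (n t : ℕ) (V : Q2 F), V ∈ E u dd J m (aeval X GP) n (-(t : ℤ)) → V.natDegree = 0 →
      ∀ μ : k, ∃ f : Os X s, (f : F) * aeval X L0 ^ ((2 * n + 1) * j0) =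
        aeval u J ^ (2 * n + 1) * aeval X L0 ^ t *
          Vc u (fun l => aeval X L0 * ((r l : F) + μ • (c l : F))) V

/-- POL: the coefficients of a section along the logarithmic vector fields are regular -/
def T_POL : Prop := ∀ (k F : Type) [Field k] [CharZero k] [Field F] [Algebra k F]
  (u : Fin 3 → F) (dd : Fin 3 → Derivation k F F) (J : MvPolynomial (Fin 3) k) (m : ℕ) (G : F)
  (n t : ℕ) (V : Q2 F), V ∈ E u dd J m G n (-(t : ℤ)) → V.natDegree = 0 →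
  ∀ (O : Subalgebra k F) (a b : F) (r c : Fin 3 → F), b ≠ 0 →
  (∀ μ : k, ∃ f : O, (f : F) * b = a * Vc u (fun l => r l + μ • c l) V) →
  ∀ i, i ≤ n → ∃ f : O, (f : F) * b = a * Vi u r c V n i

/-- EVD: the local inequality at a place with the centre on the curve -/
def T_EVD : Prop := ∀ (k F σ K : Type) [Field k] [IsAlgClosed k] [CharZero k] [Field F]
  [Algebra k F] [Fintype σ] [DecidableEq σ] [Field K] [Algebra k K]
  [Algebra.EssFiniteType k K], Algebra.trdeg k K = 1 → ∀ (X : σ → F) (u : Fin 3 → F)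
  (dd : Fin 3 → Derivation k F F) (δ j0 c0 : ℕ) (J : MvPolynomial (Fin 3) k),
  Sfc u dd δ j0 c0 J → Cor X u dd J → ∀ (m : ℕ) (GP : MvPolynomial σ k), 1 ≤ m → Nc X m GP →
  ∀ (φ : Bb k u →ₐ[k] K) (x : Fin 3 → K) (g : K),
  (∀ (i : Fin 3) (b : Bb k u), (b : F) = u i → φ b = x i) → (∃ j, x j = 1) → aeval x J ≠ 0 →
  (∀ b : Bb k u, (b : F) = aeval X GP → φ b = g) → g ≠ 0 → ∀ (n t : ℕ) (V : Q2 F) (VK : Q2 K),
  V ∈ E u dd J m (aeval X GP) n (-(t : ℤ)) → V.natDegree = 0 → VQ u φ V VK →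
  ∀ (D : Derivation k K K) (v : DV k K) (e : ℤ), (∀ z, z ≠ 0 → ge v (v.ord z + e) (D z)) →
  nv v x m g ≠ 0 →
  ge v (t * poleOrder v x - (2 * n + 1) * nv v x j0 (aeval x J) + n * e) (evc D x VK)

/-- EVO: the local inequality at a place with the centre outside the curve -/
def T_EVO : Prop := ∀ (k F K : Type) [Field k] [IsAlgClosed k] [CharZero k] [Field F]
  [Algebra k F] [Field K] [Algebra k K] [Algebra.EssFiniteType k K], Algebra.trdeg k K = 1 →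
  ∀ (u : Fin 3 → F) (dd : Fin 3 → Derivation k F F) (δ j0 c0 : ℕ)
  (J : MvPolynomial (Fin 3) k), Sfc u dd δ j0 c0 J → ∀ (m : ℕ) (G : F), 1 ≤ m →
  Crw u dd m G → ∀ (φ : Bb k u →ₐ[k] K) (x : Fin 3 → K) (g : K),
  (∀ (i : Fin 3) (b : Bb k u), (b : F) = u i → φ b = x i) → (∃ j, x j = 1) → aeval x J ≠ 0 →
  (∀ b : Bb k u, (b : F) = G → φ b = g) → g ≠ 0 → ∀ (n t : ℕ) (V : Q2 F) (VK : Q2 K),
  V ∈ E u dd J m G n (-(t : ℤ)) → V.natDegree = 0 → VQ u φ V VK →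
  ∀ (D : Derivation k K K) (v : DV k K) (e : ℤ), (∀ z, 0 ≤ v.ord z → ge v e (D z)) →
  nv v x m g = 0 →
  ge v (t * poleOrder v x - (2 * n + 1) * nv v x j0 (aeval x J) + n * e) (evc D x VK)

/-- EFB: the fundamental inequality for sections of degree 0 in `w` -/
def T_EFB : Prop := ∀ (k F σ : Type) [Field k] [IsAlgClosed k] [CharZero k] [Field F]
  [Algebra k F] [Fintype σ] [DecidableEq σ] (X : σ → F) (u : Fin 3 → F)
  (dd : Fin 3 → Derivation k F F) (δ j0 c0 : ℕ) (J : MvPolynomial (Fin 3) k),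
  Sfc u dd δ j0 c0 J → Cor X u dd J → ∀ (m : ℕ) (GP : MvPolynomial σ k), 1 ≤ m → Nc X m GP →
  ∀ (K : Type) [Field K] [Algebra k K] [Algebra.EssFiniteType k K], Algebra.trdeg k K = 1 →
  ∀ (D : Derivation k K K), D ≠ 0 → ∀ (φ : Bb k u →ₐ[k] K) (x : Fin 3 → K) (g : K)
  (Sp : Finset (DV k K)), Crt u J m (aeval X GP) 0 1 φ x g Sp →
  ∀ (n t : ℕ) (V : Q2 F) (VK : Q2 K), V ∈ E u dd J m (aeval X GP) n (-(t : ℤ)) →
  V.natDegree = 0 → VQ u φ V VK → evc D x VK ≠ 0 →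
  ((t : ℤ) - (2 * n + 1) * j0) * deg k x ≤ n * (canDeg D + Sp.card)

/-- MXB: the theorem for curves with many nodes -/
def T_MXB : Prop := ∀ δ j0 c0 q : ℕ, ∃ m0 : ℕ,
  ∀ (k F σ : Type) [Field k] [IsAlgClosed k] [CharZero k] [Field F] [Algebra k F] [Fintype σ]
  [DecidableEq σ] (X : σ → F) (u : Fin 3 → F) (dd : Fin 3 → Derivation k F F)
  (J : MvPolynomial (Fin 3) k), Sfc u dd δ j0 c0 J → Cor X u dd J →
  ∀ (m : ℕ) (GP : MvPolynomial σ k), m0 ≤ m → Nc X m GP → ∀ T : Finset (σ → k),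
  NSet X GP T → m ^ 2 ≤ q * T.card → ∃ B : ℕ,
  ∀ (K : Type) [Field K] [Algebra k K] [Algebra.EssFiniteType k K], Algebra.trdeg k K = 1 →
  ∀ (D : Derivation k K K), D ≠ 0 → ∀ (φ : Bb k u →ₐ[k] K)
  (x : Fin 3 → K) (g : K) (Sp : Finset (DV k K)), Crt u J m (aeval X GP) 0 1 φ x g Sp →
  ∃ (e : ℕ) (Φ : MvPolynomial (Fin 3) k), (e : ℤ) ≤ B * max 1 (canDeg D + Sp.card) ∧ Φ ≠ 0 ∧
    Φ.IsHomogeneous e ∧ aeval x Φ = 0

/-- MZB: the same in terms of the coordinates of the curve -/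
def T_MZB : Prop := ∀ δ j0 c0 q : ℕ, ∃ m0 : ℕ, ∀ (k F σ : Type) [Field k] [IsAlgClosed k]
  [CharZero k] [Field F] [Algebra k F] [Fintype σ] [DecidableEq σ] (X : σ → F) (u : Fin 3 → F)
  (θ : F) (dd : Fin 3 → Derivation k F F) (J : MvPolynomial (Fin 3) k) (c : Fin 3 → σ → k),
  SrD X u θ dd J δ j0 c0 c → ∀ (m : ℕ) (GP : MvPolynomial σ k), m0 ≤ m → Nc X m GP →
  ∀ T : Finset (σ → k), NSet X GP T → m ^ 2 ≤ q * T.card →
  ∃ B : ℕ, ∀ (K : Type) [Field K] [Algebra k K] [Algebra.EssFiniteType k K],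
  Algebra.trdeg k K = 1 → ∀ (D : Derivation k K K), D ≠ 0 → ∀ (z : σ → K)
  (Sp : Finset (DV k K)), CrI (RingHom.ker (aeval X : MvPolynomial σ k →ₐ[k] F)) GP m z Sp →
  aeval (lin c z) J ≠ 0 → ∃ (e : ℕ) (Φ : MvPolynomial (Fin 3) k),
    (e : ℤ) ≤ B * max 1 (canDeg D + Sp.card) ∧ Φ ≠ 0 ∧ Φ.IsHomogeneous e ∧ aeval (lin c z) Φ = 0

/-- MZ3: the theorem for all nodal curves -/
def T_MZ3 : Prop := ∀ δ j0 c0 : ℕ, ∃ m0 : ℕ, ∀ (k F σ : Type) [Field k] [IsAlgClosed k]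
  [CharZero k] [Field F] [Algebra k F] [Fintype σ] [DecidableEq σ] (X : σ → F) (u : Fin 3 → F)
  (θ : F) (dd : Fin 3 → Derivation k F F) (J : MvPolynomial (Fin 3) k) (c : Fin 3 → σ → k),
  Pool.Agent.H17.SD.Cone k X → SrD X u θ dd J δ j0 c0 c → ∀ (m : ℕ) (GP : MvPolynomial σ k),
  m0 ≤ m → Nc X m GP →
  ∃ B : ℕ, ∀ (K : Type) [Field K] [Algebra k K] [Algebra.EssFiniteType k K],
  Algebra.trdeg k K = 1 → ∀ (D : Derivation k K K), D ≠ 0 → ∀ (z : σ → K)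
  (Sp : Finset (DV k K)), CrI (RingHom.ker (aeval X : MvPolynomial σ k →ₐ[k] F)) GP m z Sp →
  aeval (lin c z) J ≠ 0 → ∃ (e : ℕ) (Φ : MvPolynomial (Fin 3) k),
    (e : ℤ) ≤ B * max 1 (canDeg D + Sp.card) ∧ Φ ≠ 0 ∧ Φ.IsHomogeneous e ∧ aeval (lin c z) Φ = 0

/-! ### Families of curves which are not of log general type -/

/-- the divisibility of the determinant of a family of curves at `T = 0` -/
def Gnd {k F σ : Type} [Field k] [Field F] [Algebra k F] [Fintype σ] (X : σ → F)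
    (J : MvPolynomial (Fin 3) k) (c : Fin 3 → σ → k) (GP : MvPolynomial σ k) : Prop :=
  ∀ (L M : Type) [Field L] [Algebra k L] [Field M] [Algebra L M]
  [Algebra k M] [IsScalarTower k L M] (Δ : Derivation k M M) (P : σ → Polynomial L) (c1 : L)
  (a : ℕ), c1 ≠ 0 → (∃ i, (P i).coeff 0 ≠ 0) →
  (∀ f : MvPolynomial σ k, aeval X f = 0 → aeval P f = 0) →
  aeval P GP = Polynomial.C c1 * Polynomial.X ^ a →
  Polynomial.X ^ a ∣ (aeval (lin c P) J).map (algebraMap L M) *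
    dt (fun i => (lin c P i).map (algebraMap L M))
      (fun i => pd (fun b => Δ (algebraMap L M b)) (lin c P i))
      (fun i => Polynomial.X * (Polynomial.derivative (lin c P i)).map (algebraMap L M))

/-- GNQ: the certificate with a form `Q` which vanishes at the nodes but not at the point `T = 0` of
the family -/
def T_GNQ : Prop := ∀ (k F σ : Type) [Field k] [IsAlgClosed k] [CharZero k] [Field F]
  [Algebra k F] [Fintype σ] (X : σ → F) (u : Fin 3 → F) (θ : F)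
  (dd : Fin 3 → Derivation k F F) (J : MvPolynomial (Fin 3) k) (δ j0 c0 : ℕ)
  (c : Fin 3 → σ → k), Pool.Agent.H17.SD.Cone k X → SrD X u θ dd J δ j0 c0 c →
  ∀ (m : ℕ) (GP : MvPolynomial σ k), 1 ≤ m → Nc X m GP → ∀ (q : ℕ) (Q : MvPolynomial σ k),
  Q.IsHomogeneous q → Ndq X GP Q → ∀ (L M : Type) [Field L] [Algebra k L] [Field M]
  [Algebra L M] [Algebra k M] [IsScalarTower k L M] (Δ : Derivation k M M)
  (P : σ → Polynomial L) (c1 : L) (a : ℕ), c1 ≠ 0 → (∃ i, (P i).coeff 0 ≠ 0) →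
  (∀ f : MvPolynomial σ k, aeval X f = 0 → aeval P f = 0) →
  aeval P GP = Polynomial.C c1 * Polynomial.X ^ a → (aeval P Q).coeff 0 ≠ 0 →
  Polynomial.X ^ a ∣ (aeval (lin c P) J).map (algebraMap L M) *
    dt (fun i => (lin c P i).map (algebraMap L M))
      (fun i => pd (fun b => Δ (algebraMap L M b)) (lin c P i))
      (fun i => Polynomial.X * (Polynomial.derivative (lin c P i)).map (algebraMap L M))

/-- GNN: families through a node -/
def T_GNN : Prop := ∀ (k F σ : Type) [Field k] [IsAlgClosed k] [CharZero k] [Field F]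
  [Algebra k F] [Fintype σ] [DecidableEq σ] (X : σ → F) (u : Fin 3 → F)
  (dd : Fin 3 → Derivation k F F) (J : MvPolynomial (Fin 3) k) (j0 : ℕ)
  (c : Fin 3 → σ → k), SYd X u dd J j0 → (∀ l, u l = ∑ s, c l s • X s) →
  ∀ (m : ℕ) (GP : MvPolynomial σ k), 1 ≤ m → Nc X m GP → ∀ s : σ → k, s ≠ 0 → Cone X s →
  eval s GP = 0 → ∀ (L M : Type) [Field L] [Algebra k L] [Field M]
  [Algebra L M] [Algebra k M] [IsScalarTower k L M] (Δ : Derivation k M M)
  (P : σ → Polynomial L) (c1 : L) (a : ℕ), c1 ≠ 0 →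
  (∀ f : MvPolynomial σ k, aeval X f = 0 → aeval P f = 0) →
  aeval P GP = Polynomial.C c1 * Polynomial.X ^ a → ∀ μ : L, μ ≠ 0 →
  (∀ i, (P i).coeff 0 = μ * algebraMap k L (s i)) →
  Polynomial.X ^ a ∣ dt (fun i => (lin c P i).map (algebraMap L M))
      (fun i => pd (fun b => Δ (algebraMap L M b)) (lin c P i))
      (fun i => Polynomial.X * (Polynomial.derivative (lin c P i)).map (algebraMap L M))

/-- GNB: divisibility for all nodal curves -/
def T_GNB : Prop := ∀ (k F σ : Type) [Field k] [IsAlgClosed k] [CharZero k] [Field F]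
  [Algebra k F] [Fintype σ] [DecidableEq σ] (X : σ → F) (u : Fin 3 → F) (θ : F)
  (dd : Fin 3 → Derivation k F F) (J : MvPolynomial (Fin 3) k) (δ j0 c0 : ℕ)
  (c : Fin 3 → σ → k), Pool.Agent.H17.SD.Cone k X → SrD X u θ dd J δ j0 c0 c →
  ∀ (m : ℕ) (GP : MvPolynomial σ k), 1 ≤ m → Nc X m GP → Gnd X J c GP

/-- GL3: a family of curves does not move -/
def T_GL3 : Prop := ∀ (k F σ : Type) [Field k] [IsAlgClosed k] [CharZero k] [Field F]
  [Algebra k F] [Fintype σ] (X : σ → F) (u : Fin 3 → F) (θ : F)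
  (dd : Fin 3 → Derivation k F F) (J : MvPolynomial (Fin 3) k) (δ j0 c0 : ℕ)
  (c : Fin 3 → σ → k), SrD X u θ dd J δ j0 c0 c → ∀ (m : ℕ) (GP : MvPolynomial σ k),
  j0 + 4 ≤ m → GP.IsHomogeneous m → Gnd X J c GP →
  ∀ (L : Type) [Field L] [Algebra k L] (P : σ → Polynomial L)
  (c1 : L) (a e : ℕ), c1 ≠ 0 → 1 ≤ e → (∀ i, (P i).natDegree ≤ e) → (∃ i, (P i).coeff e ≠ 0) →
  (∃ i, (P i).coeff 0 ≠ 0) → (∀ f : MvPolynomial σ k, aeval X f = 0 → aeval P f = 0) →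
  aeval P GP = Polynomial.C c1 * Polynomial.X ^ a →
  ∃ (N : ℕ) (Ψ : MvPolynomial (Fin 3) k), Ψ ≠ 0 ∧ Ψ.IsHomogeneous N ∧ aeval (lin c P) Ψ = 0

/-- X13: the curves of bounded degree which are not of log general type -/
def T_X13 : Prop := ∀ (k F σ : Type) [Field k] [IsAlgClosed k] [CharZero k] [Field F]
  [Algebra k F] [Fintype σ] (X : σ → F) (u : Fin 3 → F) (θ : F)
  (dd : Fin 3 → Derivation k F F) (J : MvPolynomial (Fin 3) k) (δ j0 c0 : ℕ)
  (c : Fin 3 → σ → k), SrD X u θ dd J δ j0 c0 c → ∀ (m : ℕ) (GP : MvPolynomial σ k),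
  j0 + 4 ≤ m → GP.IsHomogeneous m → Gnd X J c GP → ∀ e0 : ℕ,
  ∃ (N : ℕ) (Ψ : MvPolynomial (Fin 3) k), Ψ ≠ 0 ∧ Ψ.IsHomogeneous N ∧
  ∀ (K : Type) [Field K] [Algebra k K] [Algebra.EssFiniteType k K], Algebra.trdeg k K = 1 →
  ∀ (D : Derivation k K K), D ≠ 0 → ∀ (z : σ → K) (Sp : Finset (DV k K)),
  IntermediateField.adjoin k (Set.range z) = ⊤ →
  CrI (RingHom.ker (aeval X : MvPolynomial σ k →ₐ[k] F)) GP m z Sp → deg k z ≤ e0 →
  canDeg D + Sp.card ≤ 0 → aeval (lin c z) Ψ = 0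

/-- FB3: degree of the map -/
def T_FB3 : Prop := ∀ δ j0 c0 : ℕ, ∃ m0 : ℕ, ∀ (k F σ : Type) [Field k] [IsAlgClosed k]
  [CharZero k] [Field F] [Algebra k F] [Fintype σ] (X : σ → F) (u : Fin 3 → F) (θ : F)
  (dd : Fin 3 → Derivation k F F) (J : MvPolynomial (Fin 3) k) (c : Fin 3 → σ → k),
  Pool.Agent.H17.SD.Cone k X → SrD X u θ dd J δ j0 c0 c → ∀ (m : ℕ) (GP : MvPolynomial σ k),
  m0 ≤ m → Nc X m GP → SfI (RingHom.ker (aeval X : MvPolynomial σ k →ₐ[k] F)) GP m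

end Pool.Agent.H84.S2
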