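import Pool.Agent.H84.S2.FinN
import Pool.Agent.H84.S2.TgB

/-!
# MP_70ba79_ag, THEOREM S, part 2 (nodal curves): the final statement for all nodal curves
-/

set_option autoImplicit false

namespace Pool.Agent.H84.S2

open MvPolynomial SC
open Pool.Agent.H27.LV (ge deg poleOrder canDeg DegreeBound)
open Pool.Agent.H3.SF (Itg Bb BB Hm eu grd hes Sfc Crd Crf Prm)
open Pool.Agent.H17.SD (Prj Smo HRel PA)
open Pool.Agent.H17.SFG (DegI DegLe)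
open Pool.Agent.H4.SF (aev aev0)
open Pool.Agent.H84.SF
open Pool.Agent.H3.S2

/-- the curve `G = 0` on the surface with the ideal `I`, it has only nodes -/
structure GoodA {k τ : Type} [Field k] [Fintype τ] (I : Ideal (MvPolynomial τ k))
    (G : MvPolynomial τ k) (m : ℕ) : Prop where
  hom : G.IsHomogeneous m
  ne : G ∉ I
  nod : ∀ s : τ → k, s ≠ 0 → (∀ f ∈ I, eval s f = 0) → eval s G = 0 → SmI I G s ∨ NdI I G s

/-- SV3: the strong form, uniform in the surface -/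
def T_SV3 : Prop := ∀ d : ℕ, ∃ m0 : ℕ, ∀ (k τ : Type) [Field k] [IsAlgClosed k] [CharZero k]
  [Fintype τ] (I : Ideal (MvPolynomial τ k)) [I.IsPrime], HId I →
  Algebra.trdeg k (FractionRing (MvPolynomial τ k ⧸ I)) = 3 → DegI I d →
  ∃ c : Fin 3 → τ → k, (∀ Φ : MvPolynomial (Fin 3) k, Φ ≠ 0 →
    aeval (lin c (X : τ → MvPolynomial τ k)) Φ ∉ I) ∧
  ∀ (m : ℕ) (G : MvPolynomial τ k), m0 ≤ m → GoodA I G m → 1 ≤ m ∧ SfM I G m

theorem pf_SV3 (hFB3 : T_FB3) (hORZ : T_ORZ) : T_SV3 := by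
  intro d
  have hb := bound_le (fun δ N => ∀ (k F σ : Type) [Field k] [IsAlgClosed k]
    [CharZero k] [Field F] [Algebra k F] [Fintype σ] (X : σ → F) (u : Fin 3 → F) (θ : F)
    (dd : Fin 3 → Derivation k F F) (J : MvPolynomial (Fin 3) k) (c : Fin 3 → σ → k),
    Pool.Agent.H17.SD.Cone k X →
    SrD X u θ dd J δ (3 * (δ * (δ - 1))) (3 * (δ * (δ - 1)) + δ + 2) c →
    ∀ (m : ℕ) (GP : MvPolynomial σ k), N ≤ m → Nc X m GP →
    SfI (RingHom.ker (aeval X : MvPolynomial σ k →ₐ[k] F)) GP m)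
    (fun δ => hFB3 δ (3 * (δ * (δ - 1))) (3 * (δ * (δ - 1)) + δ + 2))
    (fun δ m m' hm h k F σ _ _ _ _ _ _ X u θ dd J c h0 h1 m2 GP h2 h3 =>
      h k F σ X u θ dd J c h0 h1 m2 GP (le_trans hm h2) h3) d
  obtain ⟨N, hN⟩ := hb
  refine ⟨N + 1, ?_⟩
  intro k τ _ _ _ _ I _ hI htr hdeg
  obtain ⟨Xf, hXf⟩ : ∃ Xf : τ → FractionRing (MvPolynomial τ k ⧸ I),
    Xf = fun s : τ => algebraMap (MvPolynomial τ k ⧸ I) (FractionRing (MvPolynomial τ k ⧸ I))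
      (Ideal.Quotient.mk I (X s)) := ⟨_, rfl⟩
  have hcone : Pool.Agent.H17.SD.Cone k Xf := by
    rw [hXf]
    exact Pool.Agent.H17.SFG.A.frc k τ I hI htr
  have ha0 : ∀ f : MvPolynomial τ k, aeval Xf f = 0 ↔ f ∈ I := by
    rw [hXf]
    exact aev0 I
  have hdl : DegLe k Xf d := by
    rw [hXf]
    exact Pool.Agent.H17.SFG.degI I d hdeg
  obtain ⟨δ, hδ, u, θ, dd, J, hsfc, hprj, -⟩ := Pool.Agent.H17.SFG.degle Xf hcone d hdl
  have hc : ∀ l, ∃ c : τ → k, ∑ s, c s • Xf s = u l := fun l =>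
    (Submodule.mem_span_range_iff_exists_fun k).1 (hprj.ulin l)
  choose c hc using hc
  have hker : RingHom.ker (aeval Xf : MvPolynomial τ k →ₐ[k]
      FractionRing (MvPolynomial τ k ⧸ I)) = I := by
    ext f
    rw [RingHom.mem_ker]
    exact ha0 f
  have hlin : u = lin c Xf := funext fun l => (hc l).symm
  refine ⟨c, ?_, ?_⟩
  · intro Φ hΦ h
    rw [← ha0, aeval_lin, ← hlin] at h
    exact hΦ (hsfc.ind (by rw [h, map_zero]))
  · intro m G hm hG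
    have hndl : Ndl Xf G := by
      intro s hs h1 h2
      rcases hG.nod s hs (fun f hf => h1 f ((ha0 f).2 hf)) h2 with h3 | h3
      · left
        intro y hy
        refine h3 y fun i f hf => hy i f ?_
        rcases hf with hf | hf
        · exact Or.inl ((ha0 f).2 hf)
        · exact Or.inr hf
      · right
        have htg : ∀ y, TgY Xf s y ↔ TgI I s y := fun y =>
          ⟨fun h f hf => h f ((ha0 f).2 hf), fun h f hf => h f ((ha0 f).1 hf)⟩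
        refine ⟨fun y hy => h3.dim y fun i => (htg _).1 (hy i), ?_⟩
        obtain ⟨f, hf, h4, h5⟩ := h3.ex
        exact ⟨f, (ha0 f).2 hf, h4, fun y hy hz => h5 y ((htg y).1 hy) fun z h6 =>
          hz z ((htg z).2 h6)⟩
    have hne : aeval Xf G ≠ 0 := fun h => hG.ne ((ha0 G).1 h)
    have h1 := hN δ hδ k _ τ Xf u θ dd J c hcone ⟨hsfc, hprj, fun l => (hc l).symm⟩ m G
      (by omega) ⟨hG.hom, hne, hndl⟩
    rw [hker] at h1
    exact ⟨by omega, hORZ k τ I G m (by omega) hG.hom h1⟩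

/-- the final statement: all nodal curves -/
def T_FIN3 : Prop := ∀ d : ℕ, ∃ m0 : ℕ, ∀ (k : Type) [Field k] [IsAlgClosed k] [CharZero k],
    (∀ (τ : Type) [Fintype τ] (I : Ideal (MvPolynomial τ k)) [I.IsPrime],
      (∀ f ∈ I, ∀ d, homogeneousComponent d f ∈ I) →
      Algebra.trdeg k (FractionRing (MvPolynomial τ k ⧸ I)) = 3 → DegI I d →
      ∀ (m : ℕ) (G : MvPolynomial τ k), m0 ≤ m → GoodA I G m →
      ∃ (B M N : ℕ) (Ψ : MvPolynomial τ k), Ψ ∉ I ∧ Ψ.IsHomogeneous N ∧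
      ∀ (K : Type) [Field K] [Algebra k K] [Algebra.EssFiniteType k K], Algebra.trdeg k K = 1 →
      ∀ (D : Derivation k K K), D ≠ 0 → ∀ (z : τ → K) (S : Finset (DV k K)),
      (∀ f ∈ I, aeval z f = 0) → aeval z G ≠ 0 →
      (∀ v, v ∉ S → ∃ j, z j ≠ 0 ∧ (∀ i, z i ≠ 0 → v.ord (z j) ≤ v.ord (z i)) ∧
        (v.ord (aeval z G) = m * v.ord (z j) ∨ m * v.ord (z j) + M ≤ v.ord (aeval z G))) →
      (∃ (e : ℕ) (Φ : MvPolynomial τ k), (e : ℤ) ≤ B * max 1 (canDeg D + S.card) ∧ Φ ∉ I ∧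
        Φ.IsHomogeneous e ∧ aeval z Φ = 0) ∧
      (aeval z Ψ ≠ 0 → (∃ i j, z j ≠ 0 ∧ z i / z j ∉ Set.range (algebraMap k K)) →
        1 ≤ canDeg D + S.card ∧
        ∀ j, z j ≠ 0 → deg k (fun i => z i / z j) ≤ B * (canDeg D + S.card))) ∧
    ∀ (ι : Type) [Fintype ι] [DecidableEq ι] [Nonempty ι] (τ : ι → Type) [∀ i, Fintype (τ i)]
    (I : ∀ i, Ideal (MvPolynomial (τ i) k)) [∀ i, (I i).IsPrime],
    (∀ i, ∀ f ∈ I i, ∀ d, homogeneousComponent d f ∈ I i) →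
    (∀ i, Algebra.trdeg k (FractionRing (MvPolynomial (τ i) k ⧸ I i)) = 3) →
    (∀ i, DegI (I i) d) →
    ∀ (m : ι → ℕ) (G : ∀ i, MvPolynomial (τ i) k), (∀ i, m0 ≤ m i) →
    (∀ i, GoodA (I i) (G i) (m i)) →
    ∃ (Ψ : ∀ i, MvPolynomial (τ i) k) (M : ι → ℕ),
    (∀ i, Ψ i ∉ I i ∧ ∃ N, (Ψ i).IsHomogeneous N) ∧
    ∀ (σ : Type) [Fintype σ] (P : Ideal (MvPolynomial σ k)) (φ : ∀ i, τ i → MvPolynomial σ k),
    P.IsPrime → (∀ i, ∀ f ∈ I i, aeval (φ i) f ∈ P) → (∀ i, (∃ j, φ i j ∉ P) ∧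
      aeval (φ i) (Ψ i) ∉ P) → GenFinS P φ → (∀ i, aeval (φ i) (G i) ∉ P) →
    (∀ i, ∃ (r : ℕ) (J : Fin r → Ideal (MvPolynomial σ k)) (ε : Fin r → ℕ), (∀ a, M i ≤ ε a) ∧
      Ideal.span {aeval (φ i) (G i)} ⊔ P =
        (Ideal.span (Set.range (φ i)) ^ m i * ∏ a, J a ^ ε a) ⊔ P) →
    ∃ (h : MvPolynomial σ k) (B : ℕ), h ∉ P ∧
      DegreeBound k (P : Set (MvPolynomial σ k)) h (fun χ => B * χ)

theorem fin3_of (hSV3 : T_SV3) (hGCZ : Pool.Agent.H30.SF.T_GCZh) (hXPZ : T_XPZ) : T_FIN3 := by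
  intro d
  obtain ⟨m0, h⟩ := hSV3 d
  refine ⟨m0, ?_⟩
  intro k _ _ _
  refine ⟨fun τ _ I _ hI htr hd m G hm hG => ?_,
    fun ι _ _ _ τ _ I _ hI htr hd m G hm hG => ?_⟩
  · obtain ⟨c, hc, h0⟩ := h k τ I hI htr hd
    obtain ⟨h1, h2⟩ := h0 m G hm hG
    exact hGCZ k τ I G m c hc hI h1 hG.hom h2
  · have h0 := fun i => h k (τ i) (I i) (hI i) (htr i) (hd i)
    choose c hc h0 using h0
    have h3 := fun i => h0 i (m i) (G i) (hm i) (hG i)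
    exact hXPZ k ι τ I G m hI (fun i => (h3 i).1) (fun i => (hG i).hom) (fun i => (h3 i).2)

end Pool.Agent.H84.S2
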