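import Pool.Agent.H84.S2.TgC
import Pool.Agent.H84.SF.AllFin

/-!
# MP_70ba79_ag, THEOREM S, part 2 (nodal curves): the theorem for all nodal curves
-/

set_option autoImplicit false

namespace Pool.Agent.H84.S2

open MvPolynomial SC
open Pool.Agent.H27.LV (ge deg poleOrder canDeg DegreeBound)
open Pool.Agent.H3.SF (Itg Bb BB Hm eu grd hes Sfc Crd Crf Prm nv)
open Pool.Agent.H84.SF
open Pool.Agent.H3.S2
open Pool.Agent.H17.SD (Prj Smo HRel)

theorem pf_MZ3V (hMZ2 : T_MZ2) (hMZV : T_MZV) (hNGS : T_NGS) (hDIC : T_DIC)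
    (hCRQ : Pool.Agent.H3.S2.T_CRQ) : T_MZ3 := by
  classical
  intro δ j0 c0
  obtain ⟨N, hN⟩ := hMZ2 δ j0 c0
  obtain ⟨N1, hN1⟩ : ∃ N1 : ℕ, N1 = 8 * (N + 1) * (δ + 1) := ⟨_, rfl⟩
  obtain ⟨m1, hm1⟩ := hNGS δ j0 c0 (2 * N1 ^ 2)
  refine ⟨max m1 (2 * N + 2), ?_⟩
  intro k F σ _ _ _ _ _ _ _ X u θ dd J c hX hS m GP hm hC
  have hm2 : m1 ≤ m := le_trans (le_max_left _ _) hm
  have hm3 : 2 * N + 2 ≤ m := le_trans (le_max_right _ _) hm
  have hspan : ∀ a : F, a ∈ Submodule.span k (Set.range X) → a ∈ Algebra.adjoin k (Set.range X) := by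
    intro a ha
    exact Algebra.span_le_adjoin k (Set.range X) ha
  have hU : ∀ l, ∃ U : MvPolynomial σ k, U.IsHomogeneous 1 ∧ aeval X U = u l := fun l => by
    refine ⟨∑ s, C (c l s) * MvPolynomial.X s, ?_, ?_⟩
    · refine IsHomogeneous.sum _ _ _ fun s _ => ?_
      have := (isHomogeneous_C σ (c l s)).mul (isHomogeneous_X k s)
      rwa [zero_add] at this
    · rw [map_sum, hS.lin l]
      refine Finset.sum_congr rfl fun s _ => ?_
      rw [map_mul, aeval_C, aeval_X, Algebra.smul_def]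
  have hCor : Cor X u dd J := by
    refine ⟨hU, hS.prj.Xint, hS.prj.Xeu, ?_⟩
    intro a ha
    have h1 := hS.prj.JI a ha
    refine (Algebra.adjoin_le ?_ : Pool.Agent.H17.SD.PB k u θ ≤ _) h1
    intro b hb
    rcases hb with rfl | ⟨l, rfl⟩
    · exact hspan _ hS.prj.tlin
    · exact hspan _ (hS.prj.ulin l)
  -- the degree of the forms
  obtain ⟨r, hr⟩ : ∃ r : ℕ, r = m / N1 := ⟨_, rfl⟩
  have hpos : 0 < N1 := by rw [hN1]; positivity
  have hr1 : r * N1 ≤ m := by
    rw [hr]
    exact Nat.div_mul_le_self _ _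
  have hr2 : m < (r + 1) * N1 := by
    rw [hr]
    have h1 := Nat.div_add_mod m N1
    have h2 := Nat.mod_lt m hpos
    calc m = N1 * (m / N1) + m % N1 := h1.symm
      _ < N1 * (m / N1) + N1 := by omega
      _ = (m / N1 + 1) * N1 := by ring
  rcases hDIC k F σ X c GP r with ⟨q, hq, hq0, hqv⟩ | ⟨T, hT, hTc⟩
  · -- a form of small degree vanishes at the nodes
    have hQ : (aeval (lin c (MvPolynomial.X : σ → MvPolynomial σ k)) q).IsHomogeneous r := by
      have h1 : ∀ l, (lin c (MvPolynomial.X : σ → MvPolynomial σ k) l).IsHomogeneous 1 := by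
        intro l
        unfold lin
        refine IsHomogeneous.sum _ _ _ fun s _ => ?_
        rw [smul_eq_C_mul]
        have := (isHomogeneous_C σ (c l s)).mul (isHomogeneous_X k s)
        rwa [zero_add] at this
      have h2 := hq.aeval _ h1
      rwa [one_mul] at h2
    have hulin : lin c X = u := funext fun l => (hS.lin l).symm
    have hQX : aeval X (aeval (lin c (MvPolynomial.X : σ → MvPolynomial σ k)) q) = aeval u q := by
      rw [aeval_lin, hulin]
    have hQ0 : aeval X (aeval (lin c (MvPolynomial.X : σ → MvPolynomial σ k)) q) ≠ 0 := by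
      rw [hQX]
      intro h
      exact hq0 (hS.sfc.ind (by rw [h, map_zero]))
    have hndq : Ndq X GP (aeval (lin c (MvPolynomial.X : σ → MvPolynomial σ k)) q) := by
      intro s hs h1 h2
      rcases hC.ndl s hs h1 h2 with h3 | h3
      · exact Or.inl h3
      · right
        refine ⟨h3, ?_⟩
        have h4 := hqv s hs ⟨fun f d hf => hX.hmg f hf d, h1⟩ h2 h3
        have h5 : eval s (aeval (lin c (MvPolynomial.X : σ → MvPolynomial σ k)) q) =
            eval (fun l => ∑ i, c l i * s i) q := by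
          rw [← coe_aeval_eq_eval, ← coe_aeval_eq_eval, RingHom.coe_coe, RingHom.coe_coe,
            aeval_lin]
          rfl
        rw [h5]
        exact h4
    obtain ⟨S, b, hcrs, -⟩ := hCRQ k F σ X hX u θ dd δ j0 c0 J hS.sfc hS.prj m GP r _
      (by omega) hC.hom hC.ne hQ hQ0 hndq
    have hthr : N * (δ * r + 1) ≤ m := by
      have h1 : 8 * (N * (δ * r)) ≤ r * N1 := by
        have h2 : N * δ ≤ (N + 1) * (δ + 1) :=
          Nat.mul_le_mul (Nat.le_succ N) (Nat.le_succ δ)
        calc 8 * (N * (δ * r)) = 8 * r * (N * δ) := by ring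
          _ ≤ 8 * r * ((N + 1) * (δ + 1)) := Nat.mul_le_mul_left _ h2
          _ = r * N1 := by rw [hN1]; ring
      have h2 : N * (δ * r + 1) = N * (δ * r) + N := by ring
      omega
    obtain ⟨B1, hB1⟩ := hN k F σ X u θ dd J c hS m GP (δ * r) S hthr ⟨hC.hom, hcrs, hC.ndl⟩
    refine ⟨B1 + δ * r, ?_⟩
    intro K _ _ _ htr D hD z Sp hz hJ
    have hmx : (1 : ℤ) ≤ max 1 (canDeg D + Sp.card) := le_max_left _ _
    by_cases hSz : aeval (lin c z) S = 0
    · refine ⟨δ * r, S, ?_, hcrs.S0, hcrs.Sh, hSz⟩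
      have h5 : ((δ * r : ℕ) : ℤ) * 1 ≤ ((B1 + δ * r : ℕ) : ℤ) *
          max 1 (canDeg D + Sp.card) := by
        apply mul_le_mul
        · exact_mod_cast Nat.le_add_left _ _
        · exact hmx
        · norm_num
        · positivity
      rwa [mul_one] at h5
    · obtain ⟨e, Φ, he, h1, h2, h3⟩ := hB1 K htr D hD z Sp hz hJ hSz
      refine ⟨e, Φ, le_trans he ?_, h1, h2, h3⟩
      apply mul_le_mul_of_nonneg_right _ (by omega)
      exact_mod_cast Nat.le_add_right _ _
  · -- many separated nodes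
    have h8 : 8 * r ≤ m := by
      refine le_trans ?_ hr1
      rw [mul_comm]
      refine Nat.mul_le_mul_left _ ?_
      rw [hN1]
      nlinarith [Nat.zero_le N, Nat.zero_le δ]
    have hcard : m ^ 2 ≤ 2 * N1 ^ 2 * T.card := by
      have h1 : m ^ 2 ≤ ((r + 1) * N1) ^ 2 := Nat.pow_le_pow_left hr2.le 2
      have h2 : (r + 1) ^ 2 ≤ 2 * (r + 2).choose 2 := by
        have h3 : (r + 2).choose 2 * 2 = (r + 2) * (r + 1) := by
          have h4 := Nat.choose_two_right (r + 2)
          rw [h4]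
          have h5 : (r + 2) * (r + 2 - 1) = (r + 2) * (r + 1) := rfl
          rw [h5]
          exact Nat.div_mul_cancel (by
            rw [mul_comm]
            exact (Nat.even_mul_succ_self (r + 1)).two_dvd)
        nlinarith
      calc m ^ 2 ≤ ((r + 1) * N1) ^ 2 := h1
        _ = N1 ^ 2 * (r + 1) ^ 2 := by ring
        _ ≤ N1 ^ 2 * (2 * (r + 2).choose 2) := Nat.mul_le_mul_left _ h2
        _ = 2 * N1 ^ 2 * T.card := by rw [hTc]; ring
    have hng := hm1 k F σ X u dd J hS.sfc hCor m GP hm2 hC r T hT h8 hcard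
    exact hMZV k F σ X u θ dd J δ j0 c0 c hS m GP (by omega) hC hng

end Pool.Agent.H84.S2
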