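import Pool.Agent.H84.S2.AllN
import Pool.Agent.H84.S2.Fin3
import Pool.Agent.H84.S2.MZ3V
import Pool.Agent.H84.S2.NGS
import Pool.Agent.H4.S2.GL3
import Pool.Agent.H4.S2.VDA
import Pool.Agent.H5.S2.FRN
import Pool.Agent.H10.S2.JDA
import Pool.Agent.H10.S2.PSV
import Pool.Agent.H20.S2.GNB
import Pool.Agent.H20.S2.X13
import Pool.Agent.H24.S2.RGA
import Pool.Agent.H24.S2.VDM
import Pool.Agent.H38.S2.PTN
import Pool.Agent.H46.S2.GNQ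
import Pool.Agent.H54.S2.FB3
import Pool.Agent.H58.S2.EFB
import Pool.Agent.H58.S2.EVO
import Pool.Agent.H58.S2.LGN
import Pool.Agent.H66.S2.EVD
import Pool.Agent.H67.S2.GNV
import Pool.Agent.H67.S2.VDB
import Pool.Agent.H72.S2.VDI
import Pool.Agent.H78.S2.DIC
import Pool.Agent.H78.S2.MZV
import Pool.Agent.H80.S2.MXV
import Pool.Agent.H94.S2.POL
import Pool.Agent.H99.S2.JSP

/-!
# MP_70ba79_ag, THEOREM S, part 2 (nodal curves, any number of nodes): assembly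
-/

set_option autoImplicit false

namespace Pool.Agent.H84.S2

open Pool.Agent.H84.SF Pool.Agent.H3.SF.All

theorem jda : T_JDA := Pool.Agent.H10.S2.pf_JDA
theorem ngs (hVMU : T_VMU) (hKER : T_KER) (hNGN : T_NGN) : T_NGS :=
  pf_NGS (Pool.Agent.H67.S2.pf_GNV hmf hdd) (Pool.Agent.H38.S2.pf_PTN nf1)
    (Pool.Agent.H4.S2.pf_VDA jda) (Pool.Agent.H67.S2.pf_VDB jda (Pool.Agent.H99.S2.pf_JSP apx))
    (Pool.Agent.H72.S2.pf_VDI hmf) hVMU hKER Pool.Agent.H10.S2.pf_PSV hNGN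
theorem rga : T_RGA := Pool.Agent.H24.S2.pf_RGA hmf hdd
theorem pol : T_POL := Pool.Agent.H94.S2.pf_POL Pool.Agent.H24.S2.pf_VDM
theorem evd (hLDT : T_LDT) : T_EVD := Pool.Agent.H66.S2.pf_EVD hLDT pol cny hmk a_VLA
theorem evo : T_EVO := Pool.Agent.H58.S2.pf_EVO a_VLA a_VLQ a_VLD a_VLI a_VPS a_SF1
  Pool.Agent.H3.S2.All.a_SFW
theorem efb (hLDT : T_LDT) : T_EFB := Pool.Agent.H58.S2.pf_EFB (evd hLDT) evo a_VLI
  Pool.Agent.H3.S2.All.a_SFW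
theorem mxv (hLDT : T_LDT) : T_MXV := Pool.Agent.H80.S2.pf_MXV (efb hLDT)
  Pool.Agent.H3.S2.All.a_FO2 Pool.Agent.H3.S2.All.a_PS2 a_VLQ a_SF1 a_DSX
  Pool.Agent.H84.SM.A.a_IMF Pool.Agent.H84.SM.A.a_CAN a_HDN
theorem mzv (hLDT : T_LDT) : T_MZV := Pool.Agent.H78.S2.pf_MZV (mxv hLDT) poz
  Pool.Agent.H17.SFG.A.phi
theorem mz3 (hLDT : T_LDT) (hNGS : T_NGS) : T_MZ3 := pf_MZ3V mz2 (mzv hLDT) hNGS
  Pool.Agent.H78.S2.pf_DIC Pool.Agent.H3.S2.AllQ.a_CRQ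
theorem gnq : T_GNQ := Pool.Agent.H46.S2.pf_GNQ Pool.Agent.H17.SFG.A.phi hie
  Pool.Agent.H3.S2.AllQ.q_CQB
theorem gnb (hGNN : T_GNN) : T_GNB := Pool.Agent.H20.S2.pf_GNB fnd gnq hGNN
theorem gl3 : T_GL3 := Pool.Agent.H4.S2.pf_GL3 hie Pool.Agent.H84.SL.A.s_DRV
  Pool.Agent.H84.SL.A.s_HNZ
theorem x13 : T_X13 := Pool.Agent.H20.S2.pf_X13 Pool.Agent.H81.SF.pf_P1Z gl3
theorem fb3 (hLDT : T_LDT) (hGNN : T_GNN) (hNGS : T_NGS) : T_FB3 :=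
  Pool.Agent.H54.S2.pf_FB3 (mz3 hLDT hNGS) (gnb hGNN) x13 Pool.Agent.H10.SF.pf_DGZ dge poz
    Pool.Agent.H77.SF.pf_PRZ Pool.Agent.H17.SFG.A.phi dpn Pool.Agent.H84.SL.A.s_LRH

/-- all nodal curves -/
theorem thmA0 (hLDT : T_LDT) (hGNN : T_GNN) (hNGS : T_NGS) : T_FIN3 := fin3_of
  (pf_SV3 (fb3 hLDT hGNN hNGS) Pool.Agent.H19.SFC.pf_ORZ)
  (Pool.Agent.H30.SF.pf_GCZh Pool.Agent.H84.SM.A.a_IMF)
  (Pool.Agent.H29.SF.pf_XPZ Pool.Agent.H77.SF.pf_FCZ)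

end Pool.Agent.H84.S2
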