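import Pool.Agent.H84.S2.TgE

/-!
# MP_70ba79_ag, THEOREM S, part 3: the final statement, for the curves `D` with `D + D'` nodal
-/

set_option autoImplicit false

namespace Pool.Agent.H84.S2

open MvPolynomial SC
open Pool.Agent.H27.LV (ge deg poleOrder canDeg DegreeBound)
open Pool.Agent.H3.SF (Itg Bb BB Hm eu grd hes Sfc Crd Crf Prm)
open Pool.Agent.H17.SD (Prj Smo HRel PA)
open Pool.Agent.H17.SFG (DegI DegLe)
open Pool.Agent.H4.SF (aev aev0)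
open Pool.Agent.H84.SF
open Pool.Agent.H3.S2

/-- SV4: the strong form, uniform in the surface -/
def T_SV4 : Prop := ∀ d : ℕ, ∃ N : ℕ, ∀ (k τ : Type) [Field k] [IsAlgClosed k] [CharZero k]
  [Fintype τ] (I : Ideal (MvPolynomial τ k)) [I.IsPrime], HId I →
  Algebra.trdeg k (FractionRing (MvPolynomial τ k ⧸ I)) = 3 → DegI I d →
  ∃ c : Fin 3 → τ → k, (∀ Φ : MvPolynomial (Fin 3) k, Φ ≠ 0 →
    aeval (lin c (X : τ → MvPolynomial τ k)) Φ ∉ I) ∧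
  ∀ (m : ℕ) (G : MvPolynomial τ k) (sg : ℕ) (S : MvPolynomial τ k), N * (sg + 1) ≤ m →
    GoodA I G m → S.IsHomogeneous sg → S ∉ I → 1 ≤ m ∧ SfD I G m S

theorem pf_SV4 (hFB4 : T_FB4) (hORD : T_ORD) : T_SV4 := by
  intro d
  have hb := bound_le (fun δ N => ∀ (k F σ : Type) [Field k] [IsAlgClosed k]
    [CharZero k] [Field F] [Algebra k F] [Fintype σ] (X : σ → F) (u : Fin 3 → F) (θ : F)
    (dd : Fin 3 → Derivation k F F) (J : MvPolynomial (Fin 3) k) (c : Fin 3 → σ → k),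
    Pool.Agent.H17.SD.Cone k X →
    SrD X u θ dd J δ (3 * (δ * (δ - 1))) (3 * (δ * (δ - 1)) + δ + 2) c →
    ∀ (m : ℕ) (GP : MvPolynomial σ k) (sg : ℕ) (SP : MvPolynomial σ k), N * (sg + 1) ≤ m →
    Nc X m GP → SP.IsHomogeneous sg → aeval X SP ≠ 0 →
    SfJ (RingHom.ker (aeval X : MvPolynomial σ k →ₐ[k] F)) GP m SP sg)
    (fun δ => hFB4 δ (3 * (δ * (δ - 1))) (3 * (δ * (δ - 1)) + δ + 2))
    (fun δ m m' hm h k F σ _ _ _ _ _ _ X u θ dd J c h0 h1 m2 GP sg SP h2 h3 =>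
      h k F σ X u θ dd J c h0 h1 m2 GP sg SP (le_trans (Nat.mul_le_mul_right _ hm) h2) h3) d
  obtain ⟨N, hN⟩ := hb
  refine ⟨N + 1, ?_⟩
  intro k τ _ _ _ _ I _ hI htr hdeg
  obtain ⟨Xf, hXf⟩ : ∃ Xf : τ → FractionRing (MvPolynomial τ k ⧸ I),
    Xf = fun s : τ => algebraMap (MvPolynomial τ k ⧸ I) (FractionRing (MvPolynomial τ k ⧸ I))
      (Ideal.Quotient.mk I (X s)) := ⟨_, rfl⟩
  have hcone : Pool.Agent.H17.SD.Cone k Xf := by
    rw [hXf]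
    exact Pool.Agent.H17.SFG.A.frc k τ I hI htr
  have ha0 : ∀ f : MvPolynomial τ k, aeval Xf f = 0 ↔ f ∈ I := by
    rw [hXf]
    exact aev0 I
  have hdl : DegLe k Xf d := by
    rw [hXf]
    exact Pool.Agent.H17.SFG.degI I d hdeg
  obtain ⟨δ, hδ, u, θ, dd, J, hsfc, hprj, -⟩ := Pool.Agent.H17.SFG.degle Xf hcone d hdl
  have hc : ∀ l, ∃ c : τ → k, ∑ s, c s • Xf s = u l := fun l =>
    (Submodule.mem_span_range_iff_exists_fun k).1 (hprj.ulin l)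
  choose c hc using hc
  have hker : RingHom.ker (aeval Xf : MvPolynomial τ k →ₐ[k]
      FractionRing (MvPolynomial τ k ⧸ I)) = I := by
    ext f
    rw [RingHom.mem_ker]
    exact ha0 f
  have hlin : u = lin c Xf := funext fun l => (hc l).symm
  refine ⟨c, ?_, ?_⟩
  · intro Φ hΦ h
    rw [← ha0, aeval_lin, ← hlin] at h
    exact hΦ (hsfc.ind (by rw [h, map_zero]))
  · intro m G sg S hm hG hSh hS0
    have hndl : Ndl Xf G := by
      intro s hs h1 h2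
      rcases hG.nod s hs (fun f hf => h1 f ((ha0 f).2 hf)) h2 with h3 | h3
      · left
        intro y hy
        refine h3 y fun i f hf => hy i f ?_
        rcases hf with hf | hf
        · exact Or.inl ((ha0 f).2 hf)
        · exact Or.inr hf
      · right
        have htg : ∀ y, TgY Xf s y ↔ TgI I s y := fun y =>
          ⟨fun h f hf => h f ((ha0 f).2 hf), fun h f hf => h f ((ha0 f).1 hf)⟩
        refine ⟨fun y hy => h3.dim y fun i => (htg _).1 (hy i), ?_⟩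
        obtain ⟨f, hf, h4, h5⟩ := h3.ex
        exact ⟨f, (ha0 f).2 hf, h4, fun y hy hz => h5 y ((htg y).1 hy) fun z h6 =>
          hz z ((htg z).2 h6)⟩
    have hne : aeval Xf G ≠ 0 := fun h => hG.ne ((ha0 G).1 h)
    have hSne : aeval Xf S ≠ 0 := fun h => hS0 ((ha0 S).1 h)
    have h2 : N * (sg + 1) ≤ m ∧ 1 ≤ m := by
      have h3 : (N + 1) * (sg + 1) = N * (sg + 1) + sg + 1 := by ring
      rw [h3] at hm
      exact ⟨by omega, by omega⟩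
    have hsr : SrD Xf u θ dd J δ (3 * (δ * (δ - 1))) (3 * (δ * (δ - 1)) + δ + 2) c :=
      ⟨hsfc, hprj, fun l => (hc l).symm⟩
    have h1 := hN δ hδ k _ τ Xf u θ dd J c hcone hsr m G sg S h2.1 ⟨hG.hom, hne, hndl⟩ hSh hSne
    have h4 := hORD k _ τ Xf u θ dd J δ (3 * (δ * (δ - 1))) (3 * (δ * (δ - 1)) + δ + 2) c hcone hsr
      m G sg S h2.2 ⟨hG.hom, hne, hndl⟩ hSh hSne h1
    rw [hker] at h4
    exact ⟨h2.2, h4⟩

/-- the final statement -/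
def T_FIN4 : Prop := ∀ d : ℕ, ∃ N : ℕ, ∀ (k : Type) [Field k] [IsAlgClosed k] [CharZero k],
    (∀ (τ : Type) [Fintype τ] (I : Ideal (MvPolynomial τ k)) [I.IsPrime],
      (∀ f ∈ I, ∀ d, homogeneousComponent d f ∈ I) →
      Algebra.trdeg k (FractionRing (MvPolynomial τ k ⧸ I)) = 3 → DegI I d →
      ∀ (m : ℕ) (G : MvPolynomial τ k) (sg : ℕ) (S : MvPolynomial τ k), N * (sg + 1) ≤ m →
      GoodA I G m → S.IsHomogeneous sg → S ∉ I →
      ∃ (B M N : ℕ) (Ψ : MvPolynomial τ k), Ψ ∉ I ∧ Ψ.IsHomogeneous N ∧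
      ∀ (K : Type) [Field K] [Algebra k K] [Algebra.EssFiniteType k K], Algebra.trdeg k K = 1 →
      ∀ (D : Derivation k K K), D ≠ 0 → ∀ (z : τ → K) (Sp : Finset (DV k K)),
      (∀ f ∈ I, aeval z f = 0) →
      (∀ v, v ∉ Sp → ∃ j, z j ≠ 0 ∧ (∀ i, z i ≠ 0 → v.ord (z j) ≤ v.ord (z i)) ∧
        ((∃ (e : ℕ) (h : MvPolynomial τ k), h.IsHomogeneous e ∧ Van I G S h ∧ aeval z h ≠ 0 ∧
          v.ord (aeval z h) = e * v.ord (z j)) ∨ m * v.ord (z j) + M ≤ v.ord (aeval z G))) →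
      (∃ (e : ℕ) (Φ : MvPolynomial τ k), (e : ℤ) ≤ B * max 1 (canDeg D + Sp.card) ∧ Φ ∉ I ∧
        Φ.IsHomogeneous e ∧ aeval z Φ = 0) ∧
      (aeval z Ψ ≠ 0 → (∃ i j, z j ≠ 0 ∧ z i / z j ∉ Set.range (algebraMap k K)) →
        1 ≤ canDeg D + Sp.card ∧
        ∀ j, z j ≠ 0 → deg k (fun i => z i / z j) ≤ B * (canDeg D + Sp.card))) ∧
    ∀ (ι : Type) [Fintype ι] [DecidableEq ι] [Nonempty ι] (τ : ι → Type) [∀ i, Fintype (τ i)]
    (I : ∀ i, Ideal (MvPolynomial (τ i) k)) [∀ i, (I i).IsPrime],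
    (∀ i, ∀ f ∈ I i, ∀ d, homogeneousComponent d f ∈ I i) →
    (∀ i, Algebra.trdeg k (FractionRing (MvPolynomial (τ i) k ⧸ I i)) = 3) →
    (∀ i, DegI (I i) d) →
    ∀ (m : ι → ℕ) (G : ∀ i, MvPolynomial (τ i) k) (sg : ι → ℕ)
      (S : ∀ i, MvPolynomial (τ i) k), (∀ i, N * (sg i + 1) ≤ m i) →
    (∀ i, GoodA (I i) (G i) (m i)) → (∀ i, (S i).IsHomogeneous (sg i)) → (∀ i, S i ∉ I i) →
    ∃ (Ψ : ∀ i, MvPolynomial (τ i) k) (M : ι → ℕ),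
    (∀ i, Ψ i ∉ I i ∧ ∃ N, (Ψ i).IsHomogeneous N) ∧
    ∀ (σ : Type) [Fintype σ] (P : Ideal (MvPolynomial σ k)) (φ : ∀ i, τ i → MvPolynomial σ k),
    P.IsPrime → (∀ i, ∀ f ∈ I i, aeval (φ i) f ∈ P) → (∀ i, aeval (φ i) (Ψ i) ∉ P) →
    GenFinS P φ →
    (∀ i, ∃ (r : ℕ) (J : Fin r → Ideal (MvPolynomial σ k)) (ε ε' : Fin r → ℕ) (E : ℕ),
      (∀ a, M i ≤ ε a) ∧
      aeval (φ i) (G i) ∈ (Ideal.span (Set.range (φ i)) ^ m i * ∏ a, J a ^ ε a) ⊔ P ∧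
      Ideal.span (Set.range (φ i)) ^ E * ∏ a, J a ^ ε' a ≤ Ideal.span {g | ∃ h,
        h.IsHomogeneous E ∧ Van (I i) (G i) (S i) h ∧ g = aeval (φ i) h} ⊔ P) →
    ∃ (h : MvPolynomial σ k) (B : ℕ), h ∉ P ∧
      DegreeBound k (P : Set (MvPolynomial σ k)) h (fun χ => B * χ)

theorem fin4_of (hSV4 : T_SV4) (hGCD : T_GCD) (hXPD : T_XPD) : T_FIN4 := by
  intro d
  obtain ⟨N, h⟩ := hSV4 d
  refine ⟨N, ?_⟩
  intro k _ _ _
  refine ⟨fun τ _ I _ hI htr hd m G sg S hm hG hSh hS0 => ?_,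
    fun ι _ _ _ τ _ I _ hI htr hd m G sg S hm hG hSh hS0 => ?_⟩
  · obtain ⟨c, hc, h0⟩ := h k τ I hI htr hd
    obtain ⟨h1, h2⟩ := h0 m G sg S hm hG hSh hS0
    exact hGCD k τ I G S m c hc hI h1 hG.hom hG.ne h2
  · have h0 := fun i => h k (τ i) (I i) (hI i) (htr i) (hd i)
    choose c hc h0 using h0
    have h3 := fun i => h0 i (m i) (G i) (sg i) (S i) (hm i) (hG i) (hSh i) (hS0 i)
    exact hXPD k ι τ I G S m hI (fun i => (h3 i).1) (fun i => (hG i).hom) (fun i => (hG i).ne)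
      (fun i => (h3 i).2)

end Pool.Agent.H84.S2
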