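import Pool.Agent.H84.S2.TgE
import Pool.Agent.H3.S2.Tg
import Pool.Agent.H26.SF.MXZ

/-!
# MP_70ba79_ag, THEOREM S, part 3: the theorem in terms of the coordinates of the curve
-/

set_option autoImplicit false

namespace Pool.Agent.H84.S2

open MvPolynomial SC
open Pool.Agent.H27.LV (ge deg poleOrder canDeg DegreeBound)
open Pool.Agent.H3.SF (Itg Bb BB Hm eu grd hes Sfc Crd Crf Prm nv)
open Pool.Agent.H84.SF
open Pool.Agent.H3.S2
open Pool.Agent.H17.SD (Prj Smo HRel)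

theorem lin_hom {k σ : Type} [Field k] [Fintype σ] (c : Fin 3 → σ → k) (l : Fin 3) :
    (lin c (MvPolynomial.X : σ → MvPolynomial σ k) l).IsHomogeneous 1 := by
  unfold lin
  refine IsHomogeneous.sum _ _ _ fun s _ => ?_
  rw [smul_eq_C_mul]
  have := (isHomogeneous_C σ (c l s)).mul (isHomogeneous_X k s)
  rwa [zero_add] at this

theorem itg_X {k F σ : Type} [Field k] [Field F] [Algebra k F] {X : σ → F} {u : Fin 3 → F}
    (hX : ∀ s, Itg k u (X s)) (P : MvPolynomial σ k) : Itg k u (aeval X P) := by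
  have h1 : aeval X P ∈ Algebra.adjoin k (Set.range X) := by
    rw [Algebra.adjoin_range_eq_range_aeval]
    exact ⟨P, rfl⟩
  have h2 : Algebra.adjoin k (Set.range X) ≤ Bb k u := by
    refine Algebra.adjoin_le ?_
    rintro _ ⟨i, rfl⟩
    exact hX i
  exact h2 h1

/-- the norm of a form -/
theorem nrm (hSFW : T_SFW) {k F σ : Type} [Field k] [IsAlgClosed k] [CharZero k] [Field F]
    [Algebra k F] [Fintype σ] {X : σ → F} {u : Fin 3 → F} {θ : F}
    {dd : Fin 3 → Derivation k F F} {J : MvPolynomial (Fin 3) k} {δ j0 c0 : ℕ}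
    {c : Fin 3 → σ → k} (hS : SrD X u θ dd J δ j0 c0 c) (sg : ℕ) (SP : MvPolynomial σ k)
    (hh : SP.IsHomogeneous sg) (h0 : aeval X SP ≠ 0) :
    ∃ (S : MvPolynomial (Fin 3) k) (b : F), S ≠ 0 ∧ S.IsHomogeneous (δ * sg) ∧ Itg k u b ∧
      aeval u S = aeval X SP * b := by
  rcases Nat.eq_zero_or_pos sg with h1 | h1
  · subst h1
    obtain ⟨a, ha⟩ : ∃ a : k, SP = C a := ⟨_, totalDegree_eq_zero_iff_eq_C.1
      ((totalDegree_zero_iff_isHomogeneous σ).2 hh)⟩
    refine ⟨C a, 1, ?_, ?_, (Bb k u).one_mem, ?_⟩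
    · intro h2
      apply h0
      rw [ha, C_eq_zero.1 h2, C_0, map_zero]
    · rw [mul_zero]
      exact isHomogeneous_C _ _
    · rw [ha, aeval_C, aeval_C, mul_one]
  · have hG : Crw u dd sg (aeval X SP) := by
      refine ⟨h0, itg_X hS.prj.Xint SP, ?_⟩
      refine Pool.Agent.H62.HIL.hm_aeval (fun i => ?_) hh
      unfold Hm
      rw [hS.prj.Xeu]
      simp
    obtain ⟨S, hS0, hSh, hSi⟩ := (hSFW k F u dd δ j0 c0 J hS.sfc sg _ hG).2.2.2.2.2 h1
    exact ⟨S, aeval u S / aeval X SP, hS0, hSh, hSi, by field_simp⟩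

theorem pf_MZS (hMX2 : T_MX2) (hMXS : T_MXS) (hNGT : T_NGT) (hDIC : T_DIC) (hCRX : T_CRX)
    (hCRQ : Pool.Agent.H3.S2.T_CRQ) (hSFW : T_SFW) : T_MZS := by
  classical
  intro δ j0 c0
  obtain ⟨N, hN⟩ := hMX2 δ j0 c0
  obtain ⟨N1, hN1⟩ : ∃ N1 : ℕ, N1 = 8 * (N + 1) * (δ + 1) := ⟨_, rfl⟩
  obtain ⟨N2, hN2⟩ := hNGT δ j0 c0 (2 * N1 ^ 2)
  obtain ⟨N3, hN3⟩ : ∃ N3 : ℕ, N3 = (N2 + 2 * N + 4) * (δ + 1) := ⟨_, rfl⟩
  refine ⟨N3, ?_⟩
  intro k F σ _ _ _ _ _ _ _ X u θ dd J c hX hS m GP sg SP hm hC hSP hSP0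
  -- numerics
  have hg1 : 2 * N * (δ * sg) + 2 * N + 4 ≤ m ∧ N2 * (δ * sg + 1) ≤ m ∧ δ * sg < m := by
    have h1 : (N2 + 2 * N + 4) * (δ + 1) * (sg + 1) ≤ m := by rw [← hN3]; exact hm
    have h2 : δ * sg + 1 ≤ (δ + 1) * (sg + 1) := by nlinarith [Nat.zero_le δ, Nat.zero_le sg]
    have h3 : (N2 + 2 * N + 4) * (δ * sg + 1) ≤ m := by
      calc (N2 + 2 * N + 4) * (δ * sg + 1) ≤ (N2 + 2 * N + 4) * ((δ + 1) * (sg + 1)) :=
            Nat.mul_le_mul_left _ h2
        _ = (N2 + 2 * N + 4) * (δ + 1) * (sg + 1) := by ring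
        _ ≤ m := h1
    have h4 : (N2 + 2 * N + 4) * (δ * sg + 1) =
      N2 * (δ * sg + 1) + (2 * N * (δ * sg) + 2 * N) + 4 * (δ * sg) + 4 := by ring
    rw [h4] at h3
    exact ⟨by omega, by omega, by omega⟩
  obtain ⟨hg1, hg2, hg3⟩ := hg1
  have hspan : ∀ a : F, a ∈ Submodule.span k (Set.range X) → a ∈ Algebra.adjoin k (Set.range X) := by
    intro a ha
    exact Algebra.span_le_adjoin k (Set.range X) ha
  have hulin : lin c X = u := funext fun l => (hS.lin l).symm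
  have hU : ∀ l, ∃ U : MvPolynomial σ k, U.IsHomogeneous 1 ∧ aeval X U = u l := fun l =>
    ⟨lin c MvPolynomial.X l, lin_hom c l, by
      have h1 := aeval_lin c X (MvPolynomial.X l)
      rw [aeval_X, aeval_X, hulin] at h1
      exact h1⟩
  have hCor : Cor X u dd J := by
    refine ⟨hU, hS.prj.Xint, hS.prj.Xeu, ?_⟩
    intro a ha
    have h1 := hS.prj.JI a ha
    refine (Algebra.adjoin_le ?_ : Pool.Agent.H17.SD.PB k u θ ≤ _) h1
    intro b hb
    rcases hb with rfl | ⟨l, rfl⟩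
    · exact hspan _ hS.prj.tlin
    · exact hspan _ (hS.prj.ulin l)
  -- from a bound for the plane image
  have fin : ∀ (s : ℕ) (S : MvPolynomial (Fin 3) k) (b : F) (B1 : ℕ), S ≠ 0 →
      S.IsHomogeneous s → Itg k u b → aeval u S = aeval X SP * b →
      (∀ (K : Type) [Field K] [Algebra k K] [Algebra.EssFiniteType k K], Algebra.trdeg k K = 1 →
      ∀ (D : Derivation k K K), D ≠ 0 → ∀ (φ : Bb k u →ₐ[k] K)
      (x : Fin 3 → K) (g : K) (Sp : Finset (DV k K)), Crt u J m (aeval X GP) s S φ x g Sp →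
      ∃ (e : ℕ) (Φ : MvPolynomial (Fin 3) k), (e : ℤ) ≤ B1 * max 1 (canDeg D + Sp.card) ∧ Φ ≠ 0 ∧
        Φ.IsHomogeneous e ∧ aeval x Φ = 0) →
      ∃ B : ℕ, ∀ (K : Type) [Field K] [Algebra k K] [Algebra.EssFiniteType k K],
      Algebra.trdeg k K = 1 → ∀ (D : Derivation k K K), D ≠ 0 → ∀ (z : σ → K)
      (Sp : Finset (DV k K)),
      CrJ (RingHom.ker (aeval X : MvPolynomial σ k →ₐ[k] F)) GP m SP sg z Sp →
      aeval (lin c z) J ≠ 0 → ∃ (e : ℕ) (Φ : MvPolynomial (Fin 3) k),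
        (e : ℤ) ≤ B * max 1 (canDeg D + Sp.card) ∧ Φ ≠ 0 ∧ Φ.IsHomogeneous e ∧
        aeval (lin c z) Φ = 0 := by
    intro s S b B1 hS0 hSh hb hSb h
    refine ⟨B1 + s, ?_⟩
    intro K _ _ _ htr D hD z Sp hz hJ
    have hmx : (1 : ℤ) ≤ max 1 (canDeg D + Sp.card) := le_max_left _ _
    by_cases hSz : aeval (lin c z) S = 0
    · refine ⟨s, S, ?_, hS0, hSh, hSz⟩
      have h5 : (s : ℤ) * 1 ≤ ((B1 + s : ℕ) : ℤ) * max 1 (canDeg D + Sp.card) := by
        apply mul_le_mul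
        · exact_mod_cast Nat.le_add_left _ _
        · exact hmx
        · norm_num
        · positivity
      rwa [mul_one] at h5
    · obtain ⟨φ, x, g, t, ht, hx, hcrt⟩ := hCRX k F σ K X u θ dd J δ j0 c0 c hS m GP sg SP hC.hom
        hSP s S b hSh hb hSb z Sp hz hJ hSz
      obtain ⟨e, Φ, he, h1, h2, h3⟩ := h K htr D hD φ x g Sp hcrt
      refine ⟨e, Φ, le_trans he ?_, h1, h2, ?_⟩
      · apply mul_le_mul_of_nonneg_right _ (by omega)
        exact_mod_cast Nat.le_add_right _ _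
      · have h4 : x = fun l => t * lin c z l := funext hx
        rw [h4, Pool.Agent.H26.SF.mxz_scale Φ e h2] at h3
        exact (mul_eq_zero.1 h3).resolve_left (pow_ne_zero _ ht)
  -- the degree of the forms
  obtain ⟨r, hr⟩ : ∃ r : ℕ, r = m / N1 := ⟨_, rfl⟩
  have hpos : 0 < N1 := by rw [hN1]; positivity
  have hr1 : r * N1 ≤ m := by
    rw [hr]
    exact Nat.div_mul_le_self _ _
  have hr2 : m < (r + 1) * N1 := by
    rw [hr]
    have h1 := Nat.div_add_mod m N1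
    have h2 := Nat.mod_lt m hpos
    calc m = N1 * (m / N1) + m % N1 := h1.symm
      _ < N1 * (m / N1) + N1 := by omega
      _ = (m / N1 + 1) * N1 := by ring
  rcases hDIC k F σ X c GP r with ⟨q, hq, hq0, hqv⟩ | ⟨T, hT, hTc⟩
  · -- a form of small degree vanishes at the nodes
    have hQ : (aeval (lin c (MvPolynomial.X : σ → MvPolynomial σ k)) q * SP).IsHomogeneous
        (r + sg) := by
      have h2 := hq.aeval _ (lin_hom c)
      rw [one_mul] at h2
      exact h2.mul hSP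
    have hQX : aeval X (aeval (lin c (MvPolynomial.X : σ → MvPolynomial σ k)) q) = aeval u q := by
      rw [aeval_lin, hulin]
    have hQ0 : aeval X (aeval (lin c (MvPolynomial.X : σ → MvPolynomial σ k)) q * SP) ≠ 0 := by
      rw [map_mul, hQX]
      refine mul_ne_zero ?_ hSP0
      intro h
      exact hq0 (hS.sfc.ind (by rw [h, map_zero]))
    have hndq : Ndq X GP (aeval (lin c (MvPolynomial.X : σ → MvPolynomial σ k)) q * SP) := by
      intro s hs h1 h2
      rcases hC.ndl s hs h1 h2 with h3 | h3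
      · exact Or.inl h3
      · right
        refine ⟨h3, ?_⟩
        have h4 := hqv s hs ⟨fun f d hf => hX.hmg f hf d, h1⟩ h2 h3
        have h5 : eval s (aeval (lin c (MvPolynomial.X : σ → MvPolynomial σ k)) q) =
            eval (fun l => ∑ i, c l i * s i) q := by
          rw [← coe_aeval_eq_eval, ← coe_aeval_eq_eval, RingHom.coe_coe, RingHom.coe_coe,
            aeval_lin]
          rfl
        rw [map_mul, h5, h4, zero_mul]
    obtain ⟨S, b, hcrs, hb, hSb⟩ := hCRQ k F σ X hX u θ dd δ j0 c0 J hS.sfc hS.prj m GP (r + sg) _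
      (by omega) hC.hom hC.ne hQ hQ0 hndq
    have hthr : N * (δ * (r + sg) + 1) ≤ m := by
      have h1 : 8 * (N * (δ * r)) ≤ r * N1 := by
        have h2 : N * δ ≤ (N + 1) * (δ + 1) :=
          Nat.mul_le_mul (Nat.le_succ N) (Nat.le_succ δ)
        calc 8 * (N * (δ * r)) = 8 * r * (N * δ) := by ring
          _ ≤ 8 * r * ((N + 1) * (δ + 1)) := Nat.mul_le_mul_left _ h2
          _ = r * N1 := by rw [hN1]; ring
      have h2 : N * (δ * (r + sg) + 1) = N * (δ * r) + N * (δ * sg) + N := by ring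
      have h3 : 2 * N * (δ * sg) = 2 * (N * (δ * sg)) := by ring
      rw [h3] at hg1
      omega
    obtain ⟨B1, hB1⟩ := hN k F σ X u dd J hS.sfc hCor m (aeval X GP) (δ * (r + sg)) S hthr hcrs
      ⟨GP, hC.hom, rfl, hC.ndl⟩
    refine fin (δ * (r + sg)) S (aeval u q * b) B1 hcrs.S0 hcrs.Sh ?_ ?_ hB1
    · refine (Bb k u).mul_mem ?_ hb
      rw [← hQX]
      exact itg_X hS.prj.Xint _
    · rw [hSb, map_mul, hQX]
      ring
  · -- many separated nodes
    have h8 : 8 * r ≤ m := by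
      refine le_trans ?_ hr1
      rw [mul_comm]
      refine Nat.mul_le_mul_left _ ?_
      rw [hN1]
      nlinarith [Nat.zero_le N, Nat.zero_le δ]
    have hcard : m ^ 2 ≤ 2 * N1 ^ 2 * T.card := by
      have h1 : m ^ 2 ≤ ((r + 1) * N1) ^ 2 := Nat.pow_le_pow_left hr2.le 2
      have h2 : (r + 1) ^ 2 ≤ 2 * (r + 2).choose 2 := by
        have h3 : (r + 2).choose 2 * 2 = (r + 2) * (r + 1) := by
          have h4 := Nat.choose_two_right (r + 2)
          rw [h4]
          have h5 : (r + 2) * (r + 2 - 1) = (r + 2) * (r + 1) := rfl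
          rw [h5]
          exact Nat.div_mul_cancel (by
            rw [mul_comm]
            exact (Nat.even_mul_succ_self (r + 1)).two_dvd)
        nlinarith
      calc m ^ 2 ≤ ((r + 1) * N1) ^ 2 := h1
        _ = N1 ^ 2 * (r + 1) ^ 2 := by ring
        _ ≤ N1 ^ 2 * (2 * (r + 2).choose 2) := Nat.mul_le_mul_left _ h2
        _ = 2 * N1 ^ 2 * T.card := by rw [hTc]; ring
    obtain ⟨S, b, hS0, hSh, hb, hSb⟩ := nrm hSFW hS sg SP hSP hSP0
    have hng := hN2 k F σ X u dd J hS.sfc hCor m (δ * sg) GP hg2 hC r T hT h8 hcard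
    obtain ⟨B1, hB1⟩ := hMXS k F σ X u dd δ j0 c0 J hS.sfc hCor m GP (by omega) hC (δ * sg) S hg3
      hSh hng
    exact fin (δ * sg) S b B1 hS0 hSh hb hSb hB1

end Pool.Agent.H84.S2
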