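import Pool.Agent.H84.S2.TgE

/-!
# MP_70ba79_ag, THEOREM S, part 3: the section of negative twist, case B
-/

set_option autoImplicit false

namespace Pool.Agent.H84.S2

open MvPolynomial SC
open Pool.Agent.H92.SF (Q2)
open Pool.Agent.H3.SF (Itg Bb BB Hm eu grd hes Sfc)
open Pool.Agent.H84.SF
open Pool.Agent.H3.S2

theorem pf_NGT (hGNV : T_GNV) (hPTN : T_PTN) (hVDA : T_VDA) (hVDB : T_VDB) (hVDI : T_VDI)
    (hVMU : T_VMU) (hKER : T_KER) (hPSW : T_PSW) (hNG3 : T_NG3) : T_NGT := by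
  intro δ j0 c0 q
  obtain ⟨N, hm0⟩ := hNG3 δ j0 c0 q
  refine ⟨N, ?_⟩
  intro k F σ _ _ _ _ _ _ _ X u dd J hS hC m sg GP hm hN r T hT hr hq
  obtain ⟨n, h, t, e, e2, h1, he, ht, he2, hje, hsep, hnum⟩ := hm0 m sg hm
  have hY : SYd X u dd J j0 :=
    ⟨hS.ind, hS.du, hS.comm, hC.ulin, hC.Xint, hC.Xeu, hS.Jh, hS.J0, hC.JI,
      fun a l ha => hS.Jd l a ha⟩
  choose f hf1 hf2 hf3 using fun l => hGNV k F σ X u dd J j0 hY m GP h1 hN.hom l
  have hco : ∀ s ∈ T, Cone X s ∧ Pt X s := fun s hs =>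
    ⟨(hT.nod s hs).2.1, hPTN k F σ X u dd J j0 hY GP s (hT.nod s hs).1 (hT.nod s hs).2.1
      (hT.nod s hs).2.2.2⟩
  have hA := hVDA k F σ X T hco e h
  have hB := hVDB k F σ X T r hco hT.sep e2 (h + 1) (hsep r hr)
  have hI1 := hVDI k F σ X u dd δ j0 c0 J hS hC e
  have hI2 := hVDI k F σ X u dd δ j0 c0 J hS hC e2
  have hn := hnum T.card (Module.finrank k (Vf (k := k) X e))
    (Module.finrank k (Vf (k := k) X e2)) (Module.finrank k (Wf X T e h))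
    (Module.finrank k (Wf X T e2 (h + 1))) hq (hI1.2.2.1 hje) hA.2 hB hI2.2.2.2
  haveI := hI1.2.1
  haveI := hI2.2.1
  have hle1 : Wf X T e h ≤ Vf X e := inf_le_left
  have hle2 : Wf X T e2 (h + 1) ≤ Vf X e2 := inf_le_left
  have fin1 : Module.Finite k (Wf X T e h) := Submodule.finiteDimensional_of_le hle1
  have fin2 : Module.Finite k (Wf X T e2 (h + 1)) := Submodule.finiteDimensional_of_le hle2
  obtain ⟨B, hB0, hBh, hBc, hBe⟩ := hKER k F (Wf X T e h) (Wf X T e2 (h + 1))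
    (fun l => aeval u J ^ 2 * dd l (aeval X GP)) n fin1 fin2 (fun l w hw => by
      rw [← hf2 l, he2]
      exact hVMU k F σ X T (fun s hs => (hco s hs).1) (m + 2 * j0 - 1) e h (f l) (hf1 l)
        (fun s hs => hf3 l s (hT.nod s hs).1 (hco s hs).1 (hT.nod s hs).2.2.2) w hw) hn
  have hJ0 : (aeval u J : F) ≠ 0 := fun h0 => hS.J0 (hS.ind (by rw [h0, map_zero]))
  have hG : Hm k (eu u dd) m (aeval X GP) := by
    have h2 := (hVDI k F σ X u dd δ j0 c0 J hS hC m).1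
      (⟨GP, hN.hom, rfl⟩ : aeval X GP ∈ Vf X m)
    exact h2.2
  obtain ⟨V, hV0, hVd, hVE⟩ := hPSW k F u dd δ j0 c0 J hS m (aeval X GP) h1 hN.ne hG n t e he B hB0
    hBh (fun a => hI1.1 (hle1 (hBc a))) (by
    have h3 : (C (aeval u J ^ 2) : MvPolynomial (Fin 3) F) *
        ∑ l, C (dd l (aeval X GP)) * pderiv l B = 0 := by
      rw [← hBe, Finset.mul_sum]
      refine Finset.sum_congr rfl fun l _ => ?_
      rw [C_mul, mul_assoc]
    rcases mul_eq_zero.1 h3 with h4 | h4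
    · exact absurd (C_eq_zero.1 h4) (pow_ne_zero 2 hJ0)
    · exact h4)
  exact ⟨n, t, V, ht, hV0, hVd, hVE⟩

end Pool.Agent.H84.S2
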