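import Pool.Agent.H84.S2.AllB
import Pool.Agent.H84.S2.Fin4
import Pool.Agent.H84.S2.MZS
import Pool.Agent.H84.S2.NGT
import Pool.Agent.H84.S2.XPD
import Pool.Agent.H2.S2.ORD
import Pool.Agent.H4.S2.GL4
import Pool.Agent.H7.S2.E_GCD
import Pool.Agent.H7.S2.E_NUJ
import Pool.Agent.H21.S2.ENUL
import Pool.Agent.H21.S2.EFB4
import Pool.Agent.H24.S2.PSW
import Pool.Agent.H36.S2.CRX
import Pool.Agent.H42.S2.E_EFS
import Pool.Agent.H42.S2.E_MXS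
import Pool.Agent.H54.S2L.E_FCD
import Pool.Agent.H58.S2.FA4
import Pool.Agent.H58.S2.GNQR
import Pool.Agent.H58.S2.GNS
import Pool.Agent.H77.S2.PRS
import Pool.Agent.H78.S2.GNNR
import Pool.Agent.H78.S2.P1S
import Pool.Agent.H86.S2.X14
import Pool.Agent.H99.S2.E_NG3

/-!
# MP_70ba79_ag, THEOREM S, part 3 (the curve D + D' nodal): assembly
-/

set_option autoImplicit false

namespace Pool.Agent.H84.S2

open Pool.Agent.H84.SF Pool.Agent.H3.SF.All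

theorem ngt : T_NGT :=
  pf_NGT (Pool.Agent.H67.S2.pf_GNV hmf hdd) (Pool.Agent.H38.S2.pf_PTN nf1)
    (Pool.Agent.H4.S2.pf_VDA jda) (Pool.Agent.H67.S2.pf_VDB jda (Pool.Agent.H99.S2.pf_JSP apx))
    (Pool.Agent.H72.S2.pf_VDI hmf) Pool.Agent.H68.S2.pf_VMU Pool.Agent.H68.S2.pf_KER
    Pool.Agent.H24.S2.pf_PSW Pool.Agent.H99.S2.pf_NG3
theorem efs : T_EFS := Pool.Agent.H42.S2.pf_EFS (evd ldt) evo a_VLI Pool.Agent.H3.S2.All.a_SFW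
theorem mxs : T_MXS := Pool.Agent.H42.S2.pf_MXS efs
  Pool.Agent.H3.S2.All.a_FO2 Pool.Agent.H3.S2.All.a_PS2 a_VLQ a_SF1 a_DSX
  Pool.Agent.H84.SM.A.a_IMF Pool.Agent.H84.SM.A.a_CAN a_HDN
theorem crx : T_CRX := Pool.Agent.H36.S2.pf_CRX poz Pool.Agent.H17.SFG.A.phi a_VLI
theorem mzs : T_MZS :=
  pf_MZS mx2 mxs ngt Pool.Agent.H78.S2.pf_DIC crx Pool.Agent.H3.S2.AllQ.a_CRQ
    Pool.Agent.H3.S2.All.a_SFW
theorem gnqr : T_GNQR := Pool.Agent.H58.S2.pf_GNQR Pool.Agent.H17.SFG.A.phi hie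
  Pool.Agent.H3.S2.AllQ.q_CQB
theorem gns : T_GNS := Pool.Agent.H58.S2.pf_GNS fnd gnqr (Pool.Agent.H78.S2.pf_GNNR ldt hmk)
theorem gl4 : T_GL4 := Pool.Agent.H4.S2.pf_GL4 hie Pool.Agent.H84.SL.A.s_DRV
  Pool.Agent.H84.SL.A.s_HNZ
theorem x14 : T_X14 := Pool.Agent.H86.S2.pf_X14 Pool.Agent.H78.S2.pf_P1S
  (Pool.Agent.H58.S2.pf_FA4 gl4)
theorem fb4 (hMZS : T_MZS) (hGNS : T_GNS) (hX14 : T_X14) : T_FB4 :=
  Pool.Agent.H21.S2.pf_FB4 hMZS hGNS hX14 Pool.Agent.H10.SF.pf_DGZ dge poz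
    Pool.Agent.H77.S2.pf_PRS Pool.Agent.H17.SFG.A.phi dpn Pool.Agent.H84.SL.A.s_LRH
theorem nuj : T_NUJ := Pool.Agent.H7.S2.pf_NUJ
  (Pool.Agent.H21.S2.pf_NUL fnd Pool.Agent.H3.S2.AllQ.a_CRQ) poz Pool.Agent.H17.SFG.A.phi a_VLI

/-- THEOREM S for the curves `D` with `D + D'` nodal, `D'` of small degree -/
theorem thmE : T_FIN4 :=
  fin4_of (pf_SV4 (fb4 mzs gns x14) (Pool.Agent.H2.S2.pf_ORD nuj))
    (Pool.Agent.H7.S2.pf_GCD Pool.Agent.H84.SM.A.a_IMF) (pf_XPD Pool.Agent.H54.S2L.pf_FCD)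

end Pool.Agent.H84.S2
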