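import Pool.Agent.H84.SF.AllLOX
import Pool.Agent.H10.S2.LCX
import Pool.Agent.H11.S2.LSN
import Pool.Agent.H11.S2.PRL
import Pool.Agent.H11.S2.SNZ
import Pool.Agent.H13.S2.LO2
import Pool.Agent.H15.S2.FRG
import Pool.Agent.H15.S2.LC3
import Pool.Agent.H15.S2.LCN
import Pool.Agent.H36.S2.TRV
import Pool.Agent.H37.S2.LS2
import Pool.Agent.H37.S2.VFO
import Pool.Agent.H54.S2.NF3
import Pool.Agent.H63.S2.MPR
import Pool.Agent.H63.S2.UNZ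
import Pool.Agent.H67.S2.NF1
import Pool.Agent.H67.S2.NF2
import Pool.Agent.H67.S2.PRI
import Pool.Agent.H68.S2.JB2
import Pool.Agent.H74.S2.FND
import Pool.Agent.H77.S2.MPL
import Pool.Agent.H80.S2.DSH
import Pool.Agent.H91.S2.FNE
import Pool.Agent.H91.S2.SMT
import Pool.Agent.H96.S2.BLW
import Pool.Agent.H98.S2.NFR

/-!
# MP_70ba79_ag, THEOREM S, part 2 (nodal curves): assembly, solutions of connections
-/

set_option autoImplicit false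

namespace Pool.Agent.H84.S2

open Pool.Agent.H84.SF

theorem unz : T_UNZ := Pool.Agent.H63.S2.pf_UNZ hie
theorem pri : T_PRI := Pool.Agent.H67.S2.pf_PRI tay tak
theorem prl : T_PRL := Pool.Agent.H11.S2.pf_PRL tay tak apx
theorem lcx : T_LCX := Pool.Agent.H10.S2.pf_LCX pri Pool.Agent.H15.S2.pf_FRG
  (Pool.Agent.H96.S2.pf_BLW tay) lc2 chk bdv Pool.Agent.H90.SF.pf_TRY
theorem lcn : T_LCN := Pool.Agent.H15.S2.pf_LCN lcx
theorem nf1 : T_NF1 := Pool.Agent.H67.S2.pf_NF1 osf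
theorem nfr : T_NFR := Pool.Agent.H98.S2.pf_NFR nf1 Pool.Agent.H67.S2.pf_NF2
  Pool.Agent.H54.S2.pf_NF3
theorem dsh : T_DSH := Pool.Agent.H80.S2.pf_DSH unz hmf hdd Pool.Agent.H63.SF.pf_DSI
theorem jb2 : T_JB2 := Pool.Agent.H68.S2.pf_JB2 pf_NRJ hdd cny
theorem snz : T_SNZ := Pool.Agent.H11.S2.pf_SNZ unz evs
theorem lft : T_LFT := Pool.Agent.H58.SF.pf_LFT hmf
theorem eqs : T_EQS := Pool.Agent.H58.SF.pf_EQS hmf Pool.Agent.H1.SF.pf_CRS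
theorem lsn : T_LSN := Pool.Agent.H11.S2.pf_LSN nfr lft dsh lcn hmk eqs
  Pool.Agent.H90.SF.pf_PRX snz Pool.Agent.H37.S2.pf_VFO jb2
theorem ls2 : T_LS2 := Pool.Agent.H37.S2.pf_LS2 osf hmk chk bdv lc2 Pool.Agent.H90.SF.pf_TRY lft
  eqs Pool.Agent.H90.SF.pf_PRX pri dsh Pool.Agent.H91.S2.pf_SMT Pool.Agent.H37.S2.pf_VFO jb2
theorem fnd : T_FND := Pool.Agent.H74.S2.pf_FND nfr Pool.Agent.H63.S2.pf_MPR
  Pool.Agent.H77.S2.pf_MPL
theorem fne : T_FNE := Pool.Agent.H91.S2.pf_FNE osf Pool.Agent.H91.S2.pf_SMT prl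
  Pool.Agent.H63.S2.pf_MPR Pool.Agent.H77.S2.pf_MPL
theorem trv : T_TRV := Pool.Agent.H36.S2.pf_TRV cny
theorem lc3 : T_LC3 := Pool.Agent.H15.S2.pf_LC3 cny fnd fne trv ls2 lsn

/-- solutions of connections, nodal curves -/
theorem lo2 : Pool.Agent.H3.S2.T_LO2 := Pool.Agent.H13.S2.pf_LO2 lc3

end Pool.Agent.H84.S2
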