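import Pool.Agent.H84.S2.Fin2
import Pool.Agent.H84.SF.FinU
import Pool.Agent.H3.S2.QEX

/-!
# MP_70ba79_ag, THEOREM S, part 2 (nodal curves): the final statement
-/

set_option autoImplicit false

namespace Pool.Agent.H84.S2

open MvPolynomial SC
open Pool.Agent.H27.LV (ge deg poleOrder canDeg DegreeBound)
open Pool.Agent.H3.SF (Itg Bb BB Hm eu grd hes Sfc Crd Crf Prm)
open Pool.Agent.H17.SD (Prj Smo HRel PA)
open Pool.Agent.H17.SFG (DegI DegLe)
open Pool.Agent.H4.SF (aev aev0)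
open Pool.Agent.H84.SF
open Pool.Agent.H3.S2

section Defs

variable {k τ : Type} [Field k] [Fintype τ]

/-- the surface with the ideal `I` and the curve `G = 0` are smooth at `s` -/
def SmI (I : Ideal (MvPolynomial τ k)) (G : MvPolynomial τ k) (s : τ → k) : Prop :=
  ∀ y : Fin 3 → τ → k, (∀ i, ∀ f, f ∈ I ∨ f = G → ∑ j, eval s (pderiv j f) * y i j = 0) →
    ¬ LinearIndependent k y

/-- `y` is a tangent vector at `s` of the cone over the surface with the ideal `I` -/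
def TgI (I : Ideal (MvPolynomial τ k)) (s y : τ → k) : Prop :=
  ∀ f ∈ I, ∑ j, eval s (pderiv j f) * y j = 0

/-- the surface is smooth at `s`, the curve `G = 0` has a node -/
structure NdI (I : Ideal (MvPolynomial τ k)) (G : MvPolynomial τ k) (s : τ → k) : Prop where
  dim : ∀ y : Fin 4 → τ → k, (∀ i, TgI I s (y i)) → ¬ LinearIndependent k y
  ex : ∃ f ∈ I, (∀ j, eval s (pderiv j (G - f)) = 0) ∧
    ∀ y, TgI I s y → (∀ z, TgI I s z →
      ∑ i, ∑ j, eval s (pderiv i (pderiv j (G - f))) * y i * z j = 0) → ∃ c : k, y = c • s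

/-- the curve `G = 0` on the surface with the ideal `I`, it has only nodes, few of them -/
structure GoodN (I : Ideal (MvPolynomial τ k)) (G : MvPolynomial τ k) (m q : ℕ) : Prop where
  hom : G.IsHomogeneous m
  ne : G ∉ I
  sing : ∃ T : Finset (τ → k), q * T.card ≤ m ^ 2 ∧ ∀ s : τ → k, s ≠ 0 →
    (∀ f ∈ I, eval s f = 0) → eval s G = 0 →
    SmI I G s ∨ (NdI I G s ∧ ∃ t ∈ T, ∃ c : k, s = c • t)

end Defs

/-- SV2: the strong form, uniform in the surface -/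
def T_SV2 : Prop := ∀ d : ℕ, ∃ m0 q : ℕ, ∀ (k τ : Type) [Field k] [IsAlgClosed k] [CharZero k]
  [Fintype τ] (I : Ideal (MvPolynomial τ k)) [I.IsPrime], HId I →
  Algebra.trdeg k (FractionRing (MvPolynomial τ k ⧸ I)) = 3 → DegI I d →
  ∃ c : Fin 3 → τ → k, (∀ Φ : MvPolynomial (Fin 3) k, Φ ≠ 0 →
    aeval (lin c (X : τ → MvPolynomial τ k)) Φ ∉ I) ∧
  ∀ (m : ℕ) (G : MvPolynomial τ k), m0 ≤ m → GoodN I G m q → 1 ≤ m ∧ SfM I G m

theorem pf_SV2 (hFB2 : T_FB2) (hCRQ : T_CRQ) (hORZ : T_ORZ) : T_SV2 := by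
  intro d
  have hb := bound_le (fun δ N => ∀ (k F σ : Type) [Field k] [IsAlgClosed k]
    [CharZero k] [Field F] [Algebra k F] [Fintype σ] (X : σ → F) (u : Fin 3 → F) (θ : F)
    (dd : Fin 3 → Derivation k F F) (J : MvPolynomial (Fin 3) k) (c : Fin 3 → σ → k),
    SrD X u θ dd J δ (3 * (δ * (δ - 1))) (3 * (δ * (δ - 1)) + δ + 2) c →
    ∀ (m : ℕ) (GP : MvPolynomial σ k) (sg : ℕ) (S : MvPolynomial (Fin 3) k),
    N * (sg + 1) ≤ m → Cv2 X u dd m GP sg S →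
    SfI (RingHom.ker (aeval X : MvPolynomial σ k →ₐ[k] F)) GP m)
    (fun δ => hFB2 δ (3 * (δ * (δ - 1))) (3 * (δ * (δ - 1)) + δ + 2))
    (fun δ m m' hm h k F σ _ _ _ _ _ _ X u θ dd J c h1 m2 GP sg S h2 h3 =>
      h k F σ X u θ dd J c h1 m2 GP sg S (le_trans (Nat.mul_le_mul_right _ hm) h2) h3) d
  obtain ⟨N, hN⟩ := hb
  refine ⟨2 * N + 1, (4 * (N + 1) * (d + 1)) ^ 2, ?_⟩
  intro k τ _ _ _ _ I _ hI htr hdeg
  obtain ⟨Xf, hXf⟩ : ∃ Xf : τ → FractionRing (MvPolynomial τ k ⧸ I),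
    Xf = fun s : τ => algebraMap (MvPolynomial τ k ⧸ I) (FractionRing (MvPolynomial τ k ⧸ I))
      (Ideal.Quotient.mk I (X s)) := ⟨_, rfl⟩
  have hcone : Pool.Agent.H17.SD.Cone k Xf := by
    rw [hXf]
    exact Pool.Agent.H17.SFG.A.frc k τ I hI htr
  have ha0 : ∀ f : MvPolynomial τ k, aeval Xf f = 0 ↔ f ∈ I := by
    rw [hXf]
    exact aev0 I
  have hdl : DegLe k Xf d := by
    rw [hXf]
    exact Pool.Agent.H17.SFG.degI I d hdeg
  obtain ⟨δ, hδ, u, θ, dd, J, hsfc, hprj, -⟩ := Pool.Agent.H17.SFG.degle Xf hcone d hdl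
  have hc : ∀ l, ∃ c : τ → k, ∑ s, c s • Xf s = u l := fun l =>
    (Submodule.mem_span_range_iff_exists_fun k).1 (hprj.ulin l)
  choose c hc using hc
  have hker : RingHom.ker (aeval Xf : MvPolynomial τ k →ₐ[k]
      FractionRing (MvPolynomial τ k ⧸ I)) = I := by
    ext f
    rw [RingHom.mem_ker]
    exact ha0 f
  have hlin : u = lin c Xf := funext fun l => (hc l).symm
  refine ⟨c, ?_, ?_⟩
  · intro Φ hΦ h
    rw [← ha0, aeval_lin, ← hlin] at h
    exact hΦ (hsfc.ind (by rw [h, map_zero]))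
  · intro m G hm hG
    obtain ⟨T, hT, hsing⟩ := hG.sing
    -- the form through the nodes
    obtain ⟨a, ha⟩ : ∃ a : ℕ, a = m / (4 * (N + 1) * (d + 1)) := ⟨_, rfl⟩
    have hpos : 0 < 4 * (N + 1) * (d + 1) := by positivity
    have ha1 : a * (4 * (N + 1) * (d + 1)) ≤ m := by
      rw [ha]
      exact Nat.div_mul_le_self _ _
    have ha2 : m < (a + 1) * (4 * (N + 1) * (d + 1)) := by
      rw [ha]
      have h1 := Nat.div_add_mod m (4 * (N + 1) * (d + 1))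
      have h2 := Nat.mod_lt m hpos
      calc m = 4 * (N + 1) * (d + 1) * (m / (4 * (N + 1) * (d + 1))) +
          m % (4 * (N + 1) * (d + 1)) := h1.symm
        _ < 4 * (N + 1) * (d + 1) * (m / (4 * (N + 1) * (d + 1))) +
          4 * (N + 1) * (d + 1) := by omega
        _ = (m / (4 * (N + 1) * (d + 1)) + 1) * (4 * (N + 1) * (d + 1)) := by ring
    have hTa : T.card < (a + 1) ^ 2 := by
      have h1 : (4 * (N + 1) * (d + 1)) ^ 2 * T.card <
          (4 * (N + 1) * (d + 1)) ^ 2 * (a + 1) ^ 2 := by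
        refine lt_of_le_of_lt hT ?_
        have h2 := Nat.pow_lt_pow_left ha2 (two_ne_zero)
        rw [mul_pow, mul_comm] at h2
        exact h2
      exact lt_of_mul_lt_mul_left h1 (Nat.zero_le _)
    obtain ⟨Q, hQ, hQ0, hQv⟩ := qex Xf u hsfc.ind (fun l => ⟨lin c X l, by
        unfold lin
        refine IsHomogeneous.sum _ _ _ fun s _ => ?_
        rw [smul_eq_C_mul]
        have := (isHomogeneous_C τ (c l s)).mul (isHomogeneous_X k s)
        rwa [zero_add] at this, by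
        have h1 := aeval_lin c Xf (MvPolynomial.X l)
        rw [aeval_X, aeval_X, ← hlin] at h1
        exact h1⟩) T a hTa
    have hndq : Ndq Xf G Q := by
      intro s hs h1 h2
      rcases hsing s hs (fun f hf => h1 f ((ha0 f).2 hf)) h2 with h3 | ⟨h3, t, ht, cc, hst⟩
      · left
        intro y hy
        refine h3 y fun i f hf => hy i f ?_
        rcases hf with hf | hf
        · exact Or.inl ((ha0 f).2 hf)
        · exact Or.inr hf
      · right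
        have htg : ∀ y, TgY Xf s y ↔ TgI I s y := fun y =>
          ⟨fun h f hf => h f ((ha0 f).2 hf), fun h f hf => h f ((ha0 f).1 hf)⟩
        refine ⟨⟨fun y hy => h3.dim y fun i => (htg _).1 (hy i), ?_⟩, ?_⟩
        · obtain ⟨f, hf, h4, h5⟩ := h3.ex
          exact ⟨f, (ha0 f).2 hf, h4, fun y hy hz => h5 y ((htg y).1 hy) fun z h6 =>
            hz z ((htg z).2 h6)⟩
        · rw [hst]
          exact hQv t ht cc
    have hne : aeval Xf G ≠ 0 := fun h => hG.ne ((ha0 G).1 h)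
    obtain ⟨S, b, hcrs, -⟩ := hCRQ k _ τ Xf hcone u θ dd δ (3 * (δ * (δ - 1)))
      (3 * (δ * (δ - 1)) + δ + 2) J hsfc hprj m G (2 * a) Q (by omega) hG.hom hne hQ hQ0 hndq
    have hthr : N * (δ * (2 * a) + 1) ≤ m := by
      have h1 : 2 * (N * (δ * (2 * a))) ≤ a * (4 * (N + 1) * (d + 1)) := by
        have h2 : N * δ ≤ (N + 1) * (d + 1) :=
          Nat.mul_le_mul (Nat.le_succ N) (le_trans hδ (Nat.le_succ d))
        calc 2 * (N * (δ * (2 * a))) = 4 * a * (N * δ) := by ring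
          _ ≤ 4 * a * ((N + 1) * (d + 1)) := Nat.mul_le_mul_left _ h2
          _ = a * (4 * (N + 1) * (d + 1)) := by ring
      have h2 : N * (δ * (2 * a) + 1) = N * (δ * (2 * a)) + N := by ring
      omega
    have h1 := hN δ hδ k _ τ Xf u θ dd J c ⟨hsfc, hprj, fun l => (hc l).symm⟩ m G
      (δ * (2 * a)) S hthr ⟨hG.hom, hcrs, fun s h0 h2 h3 => (hndq s h0 h2 h3).imp id And.left⟩
    rw [hker] at h1
    exact ⟨by omega, hORZ k τ I G m (by omega) hG.hom h1⟩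

/-- the final statement: at most `m ^ 2 / q` nodes -/
def T_FIN2 : Prop := ∀ d : ℕ, ∃ m0 q : ℕ, ∀ (k : Type) [Field k] [IsAlgClosed k] [CharZero k],
    (∀ (τ : Type) [Fintype τ] (I : Ideal (MvPolynomial τ k)) [I.IsPrime],
      (∀ f ∈ I, ∀ d, homogeneousComponent d f ∈ I) →
      Algebra.trdeg k (FractionRing (MvPolynomial τ k ⧸ I)) = 3 → DegI I d →
      ∀ (m : ℕ) (G : MvPolynomial τ k), m0 ≤ m → GoodN I G m q →
      ∃ (B M N : ℕ) (Ψ : MvPolynomial τ k), Ψ ∉ I ∧ Ψ.IsHomogeneous N ∧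
      ∀ (K : Type) [Field K] [Algebra k K] [Algebra.EssFiniteType k K], Algebra.trdeg k K = 1 →
      ∀ (D : Derivation k K K), D ≠ 0 → ∀ (z : τ → K) (S : Finset (DV k K)),
      (∀ f ∈ I, aeval z f = 0) → aeval z G ≠ 0 →
      (∀ v, v ∉ S → ∃ j, z j ≠ 0 ∧ (∀ i, z i ≠ 0 → v.ord (z j) ≤ v.ord (z i)) ∧
        (v.ord (aeval z G) = m * v.ord (z j) ∨ m * v.ord (z j) + M ≤ v.ord (aeval z G))) →
      (∃ (e : ℕ) (Φ : MvPolynomial τ k), (e : ℤ) ≤ B * max 1 (canDeg D + S.card) ∧ Φ ∉ I ∧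
        Φ.IsHomogeneous e ∧ aeval z Φ = 0) ∧
      (aeval z Ψ ≠ 0 → (∃ i j, z j ≠ 0 ∧ z i / z j ∉ Set.range (algebraMap k K)) →
        1 ≤ canDeg D + S.card ∧
        ∀ j, z j ≠ 0 → deg k (fun i => z i / z j) ≤ B * (canDeg D + S.card))) ∧
    ∀ (ι : Type) [Fintype ι] [DecidableEq ι] [Nonempty ι] (τ : ι → Type) [∀ i, Fintype (τ i)]
    (I : ∀ i, Ideal (MvPolynomial (τ i) k)) [∀ i, (I i).IsPrime],
    (∀ i, ∀ f ∈ I i, ∀ d, homogeneousComponent d f ∈ I i) →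
    (∀ i, Algebra.trdeg k (FractionRing (MvPolynomial (τ i) k ⧸ I i)) = 3) →
    (∀ i, DegI (I i) d) →
    ∀ (m : ι → ℕ) (G : ∀ i, MvPolynomial (τ i) k), (∀ i, m0 ≤ m i) →
    (∀ i, GoodN (I i) (G i) (m i) q) →
    ∃ (Ψ : ∀ i, MvPolynomial (τ i) k) (M : ι → ℕ),
    (∀ i, Ψ i ∉ I i ∧ ∃ N, (Ψ i).IsHomogeneous N) ∧
    ∀ (σ : Type) [Fintype σ] (P : Ideal (MvPolynomial σ k)) (φ : ∀ i, τ i → MvPolynomial σ k),
    P.IsPrime → (∀ i, ∀ f ∈ I i, aeval (φ i) f ∈ P) → (∀ i, (∃ j, φ i j ∉ P) ∧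
      aeval (φ i) (Ψ i) ∉ P) → GenFinS P φ → (∀ i, aeval (φ i) (G i) ∉ P) →
    (∀ i, ∃ (r : ℕ) (J : Fin r → Ideal (MvPolynomial σ k)) (ε : Fin r → ℕ), (∀ a, M i ≤ ε a) ∧
      Ideal.span {aeval (φ i) (G i)} ⊔ P =
        (Ideal.span (Set.range (φ i)) ^ m i * ∏ a, J a ^ ε a) ⊔ P) →
    ∃ (h : MvPolynomial σ k) (B : ℕ), h ∉ P ∧
      DegreeBound k (P : Set (MvPolynomial σ k)) h (fun χ => B * χ)

theorem fin2_of (hSV2 : T_SV2) (hGCZ : Pool.Agent.H30.SF.T_GCZh) (hXPZ : T_XPZ) : T_FIN2 := by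
  intro d
  obtain ⟨m0, q, h⟩ := hSV2 d
  refine ⟨m0, q, ?_⟩
  intro k _ _ _
  refine ⟨fun τ _ I _ hI htr hd m G hm hG => ?_,
    fun ι _ _ _ τ _ I _ hI htr hd m G hm hG => ?_⟩
  · obtain ⟨c, hc, h0⟩ := h k τ I hI htr hd
    obtain ⟨h1, h2⟩ := h0 m G hm hG
    exact hGCZ k τ I G m c hc hI h1 hG.hom h2
  · have h0 := fun i => h k (τ i) (I i) (hI i) (htr i) (hd i)
    choose c hc h0 using h0
    have h3 := fun i => h0 i (m i) (G i) (hm i) (hG i)
    exact hXPZ k ι τ I G m hI (fun i => (h3 i).1) (fun i => (hG i).hom) (fun i => (h3 i).2)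

end Pool.Agent.H84.S2
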