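import Pool.Agent.H84.S2.AllLO
import Pool.Agent.H84.S2.FinN
import Pool.Agent.H84.SF.AllFin
import Pool.Agent.H3.S2.All
import Pool.Agent.H3.S2.AllQ
import Pool.Agent.H92.S2.All2
import Pool.Agent.H29.S2.FB2
import Pool.Agent.H29.S2.GL2
import Pool.Agent.H29.S2.X12
import Pool.Agent.H41.S2.GN2
import Pool.Agent.H72.S2.MZ2
import Pool.Agent.H77.S2.FL2
import Pool.Agent.H81.SF.P1Z

/-!
# MP_70ba79_ag, THEOREM S, part 2 (nodal curves with few nodes): assembly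
-/

set_option autoImplicit false

namespace Pool.Agent.H84.S2

open Pool.Agent.H84.SF

theorem mx2 : Pool.Agent.H3.S2.T_MX2 := Pool.Agent.H3.S2.All.a_MX2 Pool.Agent.H92.S2.ng2
  Pool.Agent.H92.S2.mf2 Pool.Agent.H92.S2.mt2 lo2
theorem dpn : Pool.Agent.H15.FOS.T_DPN :=
  Pool.Agent.H70.FOS.fos_DPN Pool.Agent.H91.FOS.fos_DPL Pool.Agent.H91.FOS.fos_IMG
theorem dge : T_DGE := Pool.Agent.H36.SF.pf_DGE poz
theorem mz2 : T_MZ2 := Pool.Agent.H72.S2.pf_MZ2 mx2 poz Pool.Agent.H17.SFG.A.phi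
theorem gn2 : T_GN2 := Pool.Agent.H41.S2.pf_GN2 Pool.Agent.H17.SFG.A.phi hie
theorem gl2 : T_GL2 := Pool.Agent.H29.S2.pf_GL2 gn2 hie Pool.Agent.H84.SL.A.s_DRV
  Pool.Agent.H84.SL.A.s_HNZ
theorem fl2 : T_FL2 := Pool.Agent.H77.S2.pf_FL2 gl2
theorem x12 : T_X12 := Pool.Agent.H29.S2.pf_X12 Pool.Agent.H81.SF.pf_P1Z fl2
theorem fb2 : T_FB2 := Pool.Agent.H29.S2.pf_FB2 mz2 x12 Pool.Agent.H10.SF.pf_DGZ dge poz
  Pool.Agent.H77.SF.pf_PRZ Pool.Agent.H17.SFG.A.phi dpn Pool.Agent.H84.SL.A.s_LRH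

/-- nodal curves with few nodes -/
theorem thmN : T_FIN2 := fin2_of
  (pf_SV2 fb2 Pool.Agent.H3.S2.AllQ.a_CRQ Pool.Agent.H19.SFC.pf_ORZ)
  (Pool.Agent.H30.SF.pf_GCZh Pool.Agent.H84.SM.A.a_IMF)
  (Pool.Agent.H29.SF.pf_XPZ Pool.Agent.H77.SF.pf_FCZ)

end Pool.Agent.H84.S2
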