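import Pool.Agent.H3.S2.Defs
import Pool.Agent.H84.SF.Fin

/-!
# MP_70ba79_ag, THEOREM S, part 2 (nodal curves): degree of the map, targets
-/

set_option autoImplicit false

namespace Pool.Agent.H84.S2

open MvPolynomial SC
open Pool.Agent.H27.LV (ge deg poleOrder canDeg DegreeBound)
open Pool.Agent.H84.SM (cr dt dp)
open Pool.Agent.H84.SL (pd)
open Pool.Agent.H3.SF (Itg Bb BB Hm eu grd hes Sfc Crd Crf Prm)
open Pool.Agent.H84.SF
open Pool.Agent.H3.S2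

/-- the nodal curve on the surface -/
structure Cv2 {k F σ : Type} [Field k] [Field F] [Algebra k F] [Fintype σ] (X : σ → F)
    (u : Fin 3 → F) (dd : Fin 3 → Derivation k F F) (m : ℕ) (GP : MvPolynomial σ k) (sg : ℕ)
    (S : MvPolynomial (Fin 3) k) : Prop where
  hom : GP.IsHomogeneous m
  crs : Crs u dd m (aeval X GP) sg S
  ndl : Ndl X GP

/-- MZ2: the theorem for the plane image, in terms of the coordinates of the curve -/
def T_MZ2 : Prop := ∀ δ j0 c0 : ℕ, ∃ N : ℕ, ∀ (k F σ : Type) [Field k] [IsAlgClosed k]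
  [CharZero k] [Field F] [Algebra k F] [Fintype σ] (X : σ → F) (u : Fin 3 → F) (θ : F)
  (dd : Fin 3 → Derivation k F F) (J : MvPolynomial (Fin 3) k) (c : Fin 3 → σ → k),
  SrD X u θ dd J δ j0 c0 c → ∀ (m : ℕ) (GP : MvPolynomial σ k) (sg : ℕ)
  (S : MvPolynomial (Fin 3) k), N * (sg + 1) ≤ m → Cv2 X u dd m GP sg S →
  ∃ B : ℕ, ∀ (K : Type) [Field K] [Algebra k K] [Algebra.EssFiniteType k K],
  Algebra.trdeg k K = 1 → ∀ (D : Derivation k K K), D ≠ 0 → ∀ (z : σ → K)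
  (Sp : Finset (DV k K)), CrI (RingHom.ker (aeval X : MvPolynomial σ k →ₐ[k] F)) GP m z Sp →
  aeval (lin c z) J ≠ 0 → aeval (lin c z) S ≠ 0 → ∃ (e : ℕ) (Φ : MvPolynomial (Fin 3) k),
    (e : ℤ) ≤ B * max 1 (canDeg D + Sp.card) ∧ Φ ≠ 0 ∧ Φ.IsHomogeneous e ∧ aeval (lin c z) Φ = 0

/-- GN2: divisibility of the determinant of a family of curves at a point of the curve -/
def T_GN2 : Prop := ∀ (k F σ : Type) [Field k] [IsAlgClosed k] [CharZero k] [Field F]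
  [Algebra k F] [Fintype σ] (X : σ → F) (u : Fin 3 → F) (θ : F)
  (dd : Fin 3 → Derivation k F F) (J : MvPolynomial (Fin 3) k) (δ j0 c0 : ℕ)
  (c : Fin 3 → σ → k), SrD X u θ dd J δ j0 c0 c → ∀ (m : ℕ) (GP : MvPolynomial σ k) (sg : ℕ)
  (S : MvPolynomial (Fin 3) k), 1 ≤ m → Cv2 X u dd m GP sg S →
  ∀ (L M : Type) [Field L] [Algebra k L] [Field M] [Algebra L M]
  [Algebra k M] [IsScalarTower k L M] (Δ : Derivation k M M) (P : σ → Polynomial L) (c1 : L)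
  (a : ℕ), c1 ≠ 0 → (∃ i, (P i).coeff 0 ≠ 0) →
  (∀ f : MvPolynomial σ k, aeval X f = 0 → aeval P f = 0) →
  aeval P GP = Polynomial.C c1 * Polynomial.X ^ a →
  Polynomial.X ^ a ∣ (aeval (lin c P) (J * S)).map (algebraMap L M) *
    dt (fun i => (lin c P i).map (algebraMap L M))
      (fun i => pd (fun b => Δ (algebraMap L M b)) (lin c P i))
      (fun i => Polynomial.X * (Polynomial.derivative (lin c P i)).map (algebraMap L M))

/-- GL2: a family of curves does not move -/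
def T_GL2 : Prop := ∀ (k F σ : Type) [Field k] [IsAlgClosed k] [CharZero k] [Field F]
  [Algebra k F] [Fintype σ] (X : σ → F) (u : Fin 3 → F) (θ : F)
  (dd : Fin 3 → Derivation k F F) (J : MvPolynomial (Fin 3) k) (δ j0 c0 : ℕ)
  (c : Fin 3 → σ → k), SrD X u θ dd J δ j0 c0 c → ∀ (m : ℕ) (GP : MvPolynomial σ k) (sg : ℕ)
  (S : MvPolynomial (Fin 3) k), j0 + sg + 4 ≤ m → Cv2 X u dd m GP sg S →
  ∀ (L : Type) [Field L] [Algebra k L] (P : σ → Polynomial L)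
  (c1 : L) (a e : ℕ), c1 ≠ 0 → 1 ≤ e → (∀ i, (P i).natDegree ≤ e) → (∃ i, (P i).coeff e ≠ 0) →
  (∃ i, (P i).coeff 0 ≠ 0) → (∀ f : MvPolynomial σ k, aeval X f = 0 → aeval P f = 0) →
  aeval P GP = Polynomial.C c1 * Polynomial.X ^ a →
  ∃ (N : ℕ) (Ψ : MvPolynomial (Fin 3) k), Ψ ≠ 0 ∧ Ψ.IsHomogeneous N ∧ aeval (lin c P) Ψ = 0

/-- FL2: finitely many families -/
def T_FL2 : Prop := ∀ (k F σ : Type) [Field k] [IsAlgClosed k] [CharZero k] [Field F]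
  [Algebra k F] [Fintype σ] (X : σ → F) (u : Fin 3 → F) (θ : F)
  (dd : Fin 3 → Derivation k F F) (J : MvPolynomial (Fin 3) k) (δ j0 c0 : ℕ)
  (c : Fin 3 → σ → k), SrD X u θ dd J δ j0 c0 c → ∀ (m : ℕ) (GP : MvPolynomial σ k) (sg : ℕ)
  (S : MvPolynomial (Fin 3) k), j0 + sg + 4 ≤ m → Cv2 X u dd m GP sg S → ∀ e a : ℕ, 1 ≤ e →
  ∃ (N : ℕ) (Ψ : MvPolynomial (Fin 3) k), Ψ ≠ 0 ∧ Ψ.IsHomogeneous N ∧
  ∀ (p : σ → Polynomial k) (c1 : k), c1 ≠ 0 → (∀ i, (p i).natDegree ≤ e) →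
  (∃ i, (p i).coeff e ≠ 0) → (∃ i, (p i).coeff 0 ≠ 0) →
  (∀ f : MvPolynomial σ k, aeval X f = 0 → aeval p f = 0) →
  aeval p GP = Polynomial.C c1 * Polynomial.X ^ a → aeval (lin c p) Ψ = 0

/-- X12: the curves of bounded degree which are not of log general type -/
def T_X12 : Prop := ∀ (k F σ : Type) [Field k] [IsAlgClosed k] [CharZero k] [Field F]
  [Algebra k F] [Fintype σ] (X : σ → F) (u : Fin 3 → F) (θ : F)
  (dd : Fin 3 → Derivation k F F) (J : MvPolynomial (Fin 3) k) (δ j0 c0 : ℕ)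
  (c : Fin 3 → σ → k), SrD X u θ dd J δ j0 c0 c → ∀ (m : ℕ) (GP : MvPolynomial σ k) (sg : ℕ)
  (S : MvPolynomial (Fin 3) k), j0 + sg + 4 ≤ m → Cv2 X u dd m GP sg S → ∀ e0 : ℕ,
  ∃ (N : ℕ) (Ψ : MvPolynomial (Fin 3) k), Ψ ≠ 0 ∧ Ψ.IsHomogeneous N ∧
  ∀ (K : Type) [Field K] [Algebra k K] [Algebra.EssFiniteType k K], Algebra.trdeg k K = 1 →
  ∀ (D : Derivation k K K), D ≠ 0 → ∀ (z : σ → K) (Sp : Finset (DV k K)),
  IntermediateField.adjoin k (Set.range z) = ⊤ →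
  CrI (RingHom.ker (aeval X : MvPolynomial σ k →ₐ[k] F)) GP m z Sp → deg k z ≤ e0 →
  canDeg D + Sp.card ≤ 0 → aeval (lin c z) Ψ = 0

/-- FB2: degree of the map -/
def T_FB2 : Prop := ∀ δ j0 c0 : ℕ, ∃ N : ℕ, ∀ (k F σ : Type) [Field k] [IsAlgClosed k]
  [CharZero k] [Field F] [Algebra k F] [Fintype σ] (X : σ → F) (u : Fin 3 → F) (θ : F)
  (dd : Fin 3 → Derivation k F F) (J : MvPolynomial (Fin 3) k) (c : Fin 3 → σ → k),
  SrD X u θ dd J δ j0 c0 c → ∀ (m : ℕ) (GP : MvPolynomial σ k) (sg : ℕ)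
  (S : MvPolynomial (Fin 3) k), N * (sg + 1) ≤ m → Cv2 X u dd m GP sg S →
  SfI (RingHom.ker (aeval X : MvPolynomial σ k →ₐ[k] F)) GP m

end Pool.Agent.H84.S2
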