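import Pool.Agent.H84.S2.TgB

/-!
# MP_70ba79_ag, THEOREM S, part 2 (nodal curves): case B with nodes which are separated by forms

Either a form of small degree vanishes at all nodes (case A), or there are many nodes which are
separated by forms of small degree.
-/

set_option autoImplicit false

namespace Pool.Agent.H84.S2

open MvPolynomial SC
open Pool.Agent.H27.LV (ge deg poleOrder canDeg)
open Pool.Agent.H84.SM (cr dt dp)
open Pool.Agent.H92.SF (Q2)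
open Pool.Agent.H3.SF (Itg Bb BB Hm eu grd hes Sfc Crd Cnn Crf Prm nv Vl VQ evc FE E)
open Pool.Agent.H84.SF
open Pool.Agent.H3.S2

section Defs

variable {k F σ : Type} [Field k] [Field F] [Algebra k F]

/-- a set of nodes which is separated by forms of degree `r` -/
structure NSp [Fintype σ] (X : σ → F) (GP : MvPolynomial σ k) (r : ℕ) (T : Finset (σ → k)) :
    Prop where
  nod : ∀ s ∈ T, s ≠ 0 ∧ Cone X s ∧ eval s GP = 0 ∧ Nod X GP s
  sep : ∀ s ∈ T, ∃ f : MvPolynomial σ k, f.IsHomogeneous r ∧ eval s f ≠ 0 ∧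
    ∀ t ∈ T, t ≠ s → eval t f = 0

/-- there is a section of degree 0 in `w` and of negative twist -/
def Ngv (u : Fin 3 → F) (dd : Fin 3 → Derivation k F F) (J : MvPolynomial (Fin 3) k)
    (j0 m : ℕ) (G : F) : Prop :=
  ∃ (n t : ℕ) (V : Q2 F), (2 * n + 1) * j0 < t ∧ V ≠ 0 ∧ V.natDegree = 0 ∧
    V ∈ E u dd J m G n (-(t : ℤ))

end Defs

/-- NGS: curves with many nodes which are separated by forms of degree at most `m / 8` -/
def T_NGS : Prop := ∀ δ j0 c0 q : ℕ, ∃ m0 : ℕ, ∀ (k F σ : Type) [Field k] [IsAlgClosed k]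
  [CharZero k] [Field F] [Algebra k F] [Fintype σ] [DecidableEq σ] (X : σ → F) (u : Fin 3 → F)
  (dd : Fin 3 → Derivation k F F) (J : MvPolynomial (Fin 3) k), Sfc u dd δ j0 c0 J →
  Cor X u dd J → ∀ (m : ℕ) (GP : MvPolynomial σ k), m0 ≤ m → Nc X m GP →
  ∀ (r : ℕ) (T : Finset (σ → k)), NSp X GP r T → 8 * r ≤ m → m ^ 2 ≤ q * T.card →
  Ngv u dd J j0 m (aeval X GP)

/-- DIC: a form of degree `r` vanishes at all nodes, or there are many separated nodes -/
def T_DIC : Prop := ∀ (k F σ : Type) [Field k] [IsAlgClosed k] [CharZero k] [Field F]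
  [Algebra k F] [Fintype σ] [DecidableEq σ] (X : σ → F) (c : Fin 3 → σ → k)
  (GP : MvPolynomial σ k) (r : ℕ),
  (∃ q : MvPolynomial (Fin 3) k, q.IsHomogeneous r ∧ q ≠ 0 ∧ ∀ s : σ → k, s ≠ 0 → Cone X s →
    eval s GP = 0 → Nod X GP s → eval (fun l => ∑ i, c l i * s i) q = 0) ∨
  ∃ T : Finset (σ → k), NSp X GP r T ∧ T.card = (r + 2).choose 2

/-- MXV: the theorem, if there is a section of degree 0 in `w` and of negative twist -/
def T_MXV : Prop := ∀ (k F σ : Type) [Field k] [IsAlgClosed k] [CharZero k] [Field F]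
  [Algebra k F] [Fintype σ] [DecidableEq σ] (X : σ → F) (u : Fin 3 → F)
  (dd : Fin 3 → Derivation k F F) (δ j0 c0 : ℕ) (J : MvPolynomial (Fin 3) k),
  Sfc u dd δ j0 c0 J → Cor X u dd J → ∀ (m : ℕ) (GP : MvPolynomial σ k), 2 ≤ m → Nc X m GP →
  Ngv u dd J j0 m (aeval X GP) → ∃ B : ℕ,
  ∀ (K : Type) [Field K] [Algebra k K] [Algebra.EssFiniteType k K], Algebra.trdeg k K = 1 →
  ∀ (D : Derivation k K K), D ≠ 0 → ∀ (φ : Bb k u →ₐ[k] K)
  (x : Fin 3 → K) (g : K) (Sp : Finset (DV k K)), Crt u J m (aeval X GP) 0 1 φ x g Sp →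
  ∃ (e : ℕ) (Φ : MvPolynomial (Fin 3) k), (e : ℤ) ≤ B * max 1 (canDeg D + Sp.card) ∧ Φ ≠ 0 ∧
    Φ.IsHomogeneous e ∧ aeval x Φ = 0

/-- MZV: the same in terms of the coordinates of the curve -/
def T_MZV : Prop := ∀ (k F σ : Type) [Field k] [IsAlgClosed k] [CharZero k] [Field F]
  [Algebra k F] [Fintype σ] [DecidableEq σ] (X : σ → F) (u : Fin 3 → F) (θ : F)
  (dd : Fin 3 → Derivation k F F) (J : MvPolynomial (Fin 3) k) (δ j0 c0 : ℕ)
  (c : Fin 3 → σ → k), SrD X u θ dd J δ j0 c0 c → ∀ (m : ℕ) (GP : MvPolynomial σ k),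
  2 ≤ m → Nc X m GP → Ngv u dd J j0 m (aeval X GP) →
  ∃ B : ℕ, ∀ (K : Type) [Field K] [Algebra k K] [Algebra.EssFiniteType k K],
  Algebra.trdeg k K = 1 → ∀ (D : Derivation k K K), D ≠ 0 → ∀ (z : σ → K)
  (Sp : Finset (DV k K)), CrI (RingHom.ker (aeval X : MvPolynomial σ k →ₐ[k] F)) GP m z Sp →
  aeval (lin c z) J ≠ 0 → ∃ (e : ℕ) (Φ : MvPolynomial (Fin 3) k),
    (e : ℤ) ≤ B * max 1 (canDeg D + Sp.card) ∧ Φ ≠ 0 ∧ Φ.IsHomogeneous e ∧ aeval (lin c z) Φ = 0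

end Pool.Agent.H84.S2
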