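import Pool.Agent.H84.S2.TgC

/-!
# MP_70ba79_ag, THEOREM S, part 2 (nodal curves): case B, the section of negative twist

A form `B` of degree `n` in three variables with `∑ l, dd l G * ∂ B / ∂ l = 0`, whose coefficients
are forms of degree `e` on the surface, is a section of degree 0 in `w`. The number of the
coefficients and the number of the equations have the same leading term, and the equations are
dependent because of the nodes: there the derivatives of `G` vanish.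
-/

set_option autoImplicit false

namespace Pool.Agent.H84.S2

open MvPolynomial SC
open Pool.Agent.H27.LV (ge deg poleOrder canDeg)
open Pool.Agent.H84.SM (cr dt dp)
open Pool.Agent.H92.SF (Q2)
open Pool.Agent.H3.SF (Itg Bb BB Hm eu grd hes Sfc Crd Cnn Crf Prm nv Vl VQ evc FE E)
open Pool.Agent.H84.SF
open Pool.Agent.H3.S2

section Defs

variable {k F σ : Type} [Field k] [Field F] [Algebra k F]

/-- the space of the forms of degree `e` -/
noncomputable def Vf (X : σ → F) (e : ℕ) : Submodule k F :=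
  (homogeneousSubmodule σ k e).map (aeval X : MvPolynomial σ k →ₐ[k] F).toLinearMap

/-- the ideal of the point `s` in the local ring -/
def Mx (X : σ → F) (s : σ → k) : Ideal (Os X s) :=
  Ideal.span {z : Os X s | ∃ (d : ℕ) (a b : MvPolynomial σ k), Rep X (z : F) d a b ∧
    eval s b ≠ 0 ∧ eval s a = 0}

/-- elements of degree `e` which vanish to the order `h` at `s` -/
def Vo (X : σ → F) (s : σ → k) (e h : ℕ) : Submodule k F where
  carrier := {v | ∀ L0 : MvPolynomial σ k, L0.IsHomogeneous 1 → eval s L0 ≠ 0 →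
    ∃ z : Os X s, z ∈ Mx X s ^ h ∧ (z : F) * aeval X L0 ^ e = v}
  add_mem' := by
    rintro a b ha hb L0 h1 h2
    obtain ⟨z, hz, h3⟩ := ha L0 h1 h2
    obtain ⟨w, hw, h4⟩ := hb L0 h1 h2
    exact ⟨z + w, add_mem hz hw, by rw [← h3, ← h4]; push_cast; ring⟩
  zero_mem' := fun L0 _ _ => ⟨0, zero_mem _, by simp⟩
  smul_mem' := by
    rintro c a ha L0 h1 h2
    obtain ⟨z, hz, h3⟩ := ha L0 h1 h2
    refine ⟨c • z, ?_, ?_⟩
    · rw [Algebra.smul_def]
      exact Ideal.mul_mem_left _ _ hz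
    · rw [← h3]
      simp

/-- forms of degree `e` which vanish to the order `h` at the points of `T` -/
noncomputable def Wf (X : σ → F) (T : Finset (σ → k)) (e h : ℕ) : Submodule k F :=
  Vf X e ⊓ ⨅ s ∈ T, Vo X s e h

/-- `s` is a smooth point of the surface -/
def Pt (X : σ → F) (s : σ → k) : Prop :=
  ∃ (L0 L1 L2 : MvPolynomial σ k) (ε : Os X s →ₐ[k] k) (x1 y1 : Os X s)
    (dX dY : Derivation k (Os X s) (Os X s)), L0.IsHomogeneous 1 ∧ L1.IsHomogeneous 1 ∧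
    L2.IsHomogeneous 1 ∧ eval s L0 ≠ 0 ∧ (∀ (h : Os X s) (d : ℕ) (a b : MvPolynomial σ k),
      Rep X (h : F) d a b → ε h * eval s b = eval s a) ∧ (x1 : F) * aeval X L0 = aeval X L1 ∧
    (y1 : F) * aeval X L0 = aeval X L2 ∧ Frm ε x1 y1 dX dY

end Defs

/-- GNV: the derivatives of `G` vanish at the nodes -/
def T_GNV : Prop := ∀ (k F σ : Type) [Field k] [IsAlgClosed k] [CharZero k] [Field F]
  [Algebra k F] [Fintype σ] [DecidableEq σ] (X : σ → F) (u : Fin 3 → F)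
  (dd : Fin 3 → Derivation k F F) (J : MvPolynomial (Fin 3) k) (j0 : ℕ), SYd X u dd J j0 →
  ∀ (m : ℕ) (GP : MvPolynomial σ k), 1 ≤ m → GP.IsHomogeneous m → ∀ l : Fin 3,
  ∃ f : MvPolynomial σ k, f.IsHomogeneous (m + 2 * j0 - 1) ∧
    aeval X f = aeval u J ^ 2 * dd l (aeval X GP) ∧
    ∀ s : σ → k, s ≠ 0 → Cone X s → Nod X GP s → eval s f = 0

/-- PTN: nodes are smooth points of the surface -/
def T_PTN : Prop := ∀ (k F σ : Type) [Field k] [IsAlgClosed k] [CharZero k] [Field F]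
  [Algebra k F] [Fintype σ] [DecidableEq σ] (X : σ → F) (u : Fin 3 → F)
  (dd : Fin 3 → Derivation k F F) (J : MvPolynomial (Fin 3) k) (j0 : ℕ), SYd X u dd J j0 →
  ∀ (GP : MvPolynomial σ k) (s : σ → k), s ≠ 0 → Cone X s → Nod X GP s → Pt X s

/-- JDA: the dimension of the space of jets -/
def T_JDA : Prop := ∀ (k O : Type) [Field k] [CharZero k] [CommRing O] [Algebra k O]
  (ε : O →ₐ[k] k) (X Y : O) (dX dY : Derivation k O O), Frm ε X Y dX dY → ∀ h : ℕ,
  Module.Finite k (O ⧸ (RingHom.ker ε) ^ h) ∧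
    2 * Module.finrank k (O ⧸ (RingHom.ker ε) ^ h) = h * (h + 1)

/-- JSP: all jets are jets of forms -/
def T_JSP : Prop := ∀ (k F σ : Type) [Field k] [CharZero k] [Field F] [Algebra k F]
  [Fintype σ] (X : σ → F) (s : σ → k), Cone X s → Pt X s → ∀ L0 : MvPolynomial σ k,
  L0.IsHomogeneous 1 → eval s L0 ≠ 0 → ∀ (e h : ℕ), h ≤ e → ∀ z : Os X s,
  ∃ (w : Os X s) (f : MvPolynomial σ k), w ∈ Mx X s ^ h ∧ f.IsHomogeneous e ∧
    ((z + w : Os X s) : F) * aeval X L0 ^ e = aeval X f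

/-- VDA: the number of conditions is at most the expected one -/
def T_VDA : Prop := ∀ (k F σ : Type) [Field k] [CharZero k] [Field F] [Algebra k F]
  [Fintype σ] (X : σ → F) (T : Finset (σ → k)), (∀ s ∈ T, Cone X s ∧ Pt X s) → ∀ e h : ℕ,
  Module.Finite k (Vf (k := k) X e) ∧ 2 * Module.finrank k (Vf (k := k) X e) ≤
    2 * Module.finrank k (Wf X T e h) + T.card * (h * (h + 1))

/-- VDB: the conditions are independent, if the points are separated by forms of degree `r` -/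
def T_VDB : Prop := ∀ (k F σ : Type) [Field k] [CharZero k] [Field F] [Algebra k F]
  [Fintype σ] (X : σ → F) (T : Finset (σ → k)) (r : ℕ), (∀ s ∈ T, Cone X s ∧ Pt X s) →
  (∀ s ∈ T, ∃ f : MvPolynomial σ k, f.IsHomogeneous r ∧ eval s f ≠ 0 ∧
    ∀ t ∈ T, t ≠ s → eval t f = 0) → ∀ e h : ℕ, (r + 1) * h ≤ e →
  2 * Module.finrank k (Wf X T e h) + T.card * (h * (h + 1)) ≤
    2 * Module.finrank k (Vf (k := k) X e)

/-- VDI: the dimension of the space of forms -/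
def T_VDI : Prop := ∀ (k F σ : Type) [Field k] [IsAlgClosed k] [CharZero k] [Field F]
  [Algebra k F] [Fintype σ] [DecidableEq σ] (X : σ → F) (u : Fin 3 → F)
  (dd : Fin 3 → Derivation k F F) (δ j0 c0 : ℕ) (J : MvPolynomial (Fin 3) k),
  Sfc u dd δ j0 c0 J → Cor X u dd J → ∀ e : ℕ,
  Vf X e ≤ BB k u (eu u dd) e ∧ Module.Finite k (Vf (k := k) X e) ∧
  (j0 + c0 ≤ e → δ * (e - j0 - c0) ^ 2 ≤ 2 * Module.finrank k (Vf (k := k) X e)) ∧
  2 * Module.finrank k (Vf (k := k) X e) ≤ δ * (e + c0) ^ 2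

/-- VMU: multiplication with a form which vanishes at the points -/
def T_VMU : Prop := ∀ (k F σ : Type) [Field k] [Field F] [Algebra k F] [Fintype σ]
  (X : σ → F) (T : Finset (σ → k)), (∀ s ∈ T, Cone X s) → ∀ (d e h : ℕ)
  (f : MvPolynomial σ k), f.IsHomogeneous d → (∀ s ∈ T, eval s f = 0) → ∀ v ∈ Wf X T e h,
  aeval X f * v ∈ Wf X T (e + d) (h + 1)

/-- KER: a form with the equation, by counting -/
def T_KER : Prop := ∀ (k F : Type) [Field k] [CharZero k] [Field F] [Algebra k F]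
  (W W' : Submodule k F) (γ : Fin 3 → F) (n : ℕ), Module.Finite k W → Module.Finite k W' →
  (∀ l, ∀ w ∈ W, γ l * w ∈ W') →
  n * Module.finrank k W' < (n + 2) * Module.finrank k W →
  ∃ B : MvPolynomial (Fin 3) F, B ≠ 0 ∧ B.IsHomogeneous n ∧ (∀ a, B.coeff a ∈ W) ∧
    ∑ l, C (γ l) * pderiv l B = 0

/-- PSV: the section which belongs to the form -/
def T_PSV : Prop := ∀ (k F : Type) [Field k] [IsAlgClosed k] [CharZero k] [Field F]
  [Algebra k F] (u : Fin 3 → F) (dd : Fin 3 → Derivation k F F) (δ j0 c0 : ℕ)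
  (J : MvPolynomial (Fin 3) k), Sfc u dd δ j0 c0 J → ∀ (m : ℕ) (G : F), 1 ≤ m → G ≠ 0 →
  Hm k (eu u dd) m G → ∀ (n t e : ℕ), (e : ℤ) = n * ((m : ℤ) - 2 + 2 * j0) - t →
  (2 * n + 1) * j0 < t → ∀ B : MvPolynomial (Fin 3) F, B ≠ 0 → B.IsHomogeneous n →
  (∀ a, B.coeff a ∈ BB k u (eu u dd) e) → ∑ l, C (dd l G) * pderiv l B = 0 →
  Ngv u dd J j0 m G

/-- NGN: numerics -/
def T_NGN : Prop := ∀ δ j0 c0 q : ℕ, ∃ m0 : ℕ, ∀ m : ℕ, m0 ≤ m → ∃ n h t e e2 : ℕ, 1 ≤ m ∧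
  (e : ℤ) = n * ((m : ℤ) - 2 + 2 * j0) - t ∧ (2 * n + 1) * j0 < t ∧
  e2 = e + (m + 2 * j0 - 1) ∧ j0 + c0 ≤ e ∧ (∀ r, 8 * r ≤ m → (r + 1) * (h + 1) ≤ e2) ∧
  ∀ τ D1 D2 W1 W2 : ℕ, m ^ 2 ≤ q * τ → δ * (e - j0 - c0) ^ 2 ≤ 2 * D1 →
    2 * D1 ≤ 2 * W1 + τ * (h * (h + 1)) → 2 * W2 + τ * ((h + 1) * (h + 1 + 1)) ≤ 2 * D2 →
    2 * D2 ≤ δ * (e2 + c0) ^ 2 → n * W2 < (n + 2) * W1

end Pool.Agent.H84.S2
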