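import Pool.Agent.H84.S2.TgD
import Pool.Agent.H84.S2.Fin3

/-!
# MP_70ba79_ag, THEOREM S, part 3: curves `D` with `D + D'` nodal, `D'` of small degree

`SP` is a form of degree `sg` in the coordinates, small compared with the degree `m` of `GP`. The
curves may meet `GP = 0` where `SP` vanishes, at most to the order of `SP`: so they need not avoid
the components of `GP = 0` which are contained in `SP = 0`.
-/

set_option autoImplicit false

namespace Pool.Agent.H84.S2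

open MvPolynomial SC
open Pool.Agent.H27.LV (ge deg poleOrder canDeg DegreeBound)
open Pool.Agent.H84.SM (cr dt dp)
open Pool.Agent.H84.SL (pd)
open Pool.Agent.H92.SF (Q2)
open Pool.Agent.H3.SF (Itg Bb BB Hm eu grd hes Sfc Crd Cnn Crf Prm nv Vl VQ evc FE E)
open Pool.Agent.H84.SF
open Pool.Agent.H3.S2

section Defs

/-- there is a section of degree 0 in `w` and of negative twist, with the margin for `S` -/
def NgS {k F : Type} [Field k] [Field F] [Algebra k F] (u : Fin 3 → F)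
    (dd : Fin 3 → Derivation k F F) (J : MvPolynomial (Fin 3) k) (j0 m : ℕ) (G : F) (sg : ℕ) :
    Prop :=
  ∃ (n t : ℕ) (V : Q2 F), (2 * n + 1) * j0 + n * sg < t ∧ V ≠ 0 ∧ V.natDegree = 0 ∧
    V ∈ E u dd J m G n (-(t : ℤ))

variable {k τ : Type} [Field k] [Fintype τ]

/-- `z` is a curve on the surface with the ideal `I` which meets `G = 0` outside `Sp` at most to the
order of `S` -/
structure CrJ {K : Type} [Field K] [Algebra k K] (I : Ideal (MvPolynomial τ k))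
    (G : MvPolynomial τ k) (m : ℕ) (S : MvPolynomial τ k) (sg : ℕ) (z : τ → K)
    (Sp : Finset (DV k K)) : Prop where
  on : ∀ f ∈ I, aeval z f = 0
  one : ∃ j, z j = 1
  ne : aeval z G ≠ 0
  Sne : aeval z S ≠ 0
  off : ∀ v, v ∉ Sp → v.ord (aeval z G) + m * poleOrder v z ≤
    v.ord (aeval z S) + sg * poleOrder v z

/-- outside `Ψ = 0` the degree of the map is at most `B χ` -/
def SfJ (I : Ideal (MvPolynomial τ k)) (G : MvPolynomial τ k) (m : ℕ) (S : MvPolynomial τ k)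
    (sg : ℕ) : Prop := ∃ (B N : ℕ) (Ψ : MvPolynomial τ k), Ψ ∉ I ∧ Ψ.IsHomogeneous N ∧
  ∀ (K : Type) [Field K] [Algebra k K] [Algebra.EssFiniteType k K], Algebra.trdeg k K = 1 →
  ∀ (D : Derivation k K K), D ≠ 0 → ∀ (z : τ → K) (Sp : Finset (DV k K)),
  CrJ I G m S sg z Sp → aeval z Ψ ≠ 0 → (∃ i, z i ∉ Set.range (algebraMap k K)) →
  1 ≤ canDeg D + Sp.card ∧ deg k z ≤ B * (canDeg D + Sp.card)

/-- `h` vanishes at the points of the surface with `G = 0` and `S ≠ 0`, that is, on the union of the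
components of the curve `G = 0` which are not contained in `S = 0` -/
def Van (I : Ideal (MvPolynomial τ k)) (G S h : MvPolynomial τ k) : Prop :=
  ∀ y : τ → k, (∀ f ∈ I, eval y f = 0) → eval y G = 0 → eval y S ≠ 0 → eval y h = 0

/-- `z` is a curve on the surface with the ideal `I`; outside `Sp` it does not meet the union of the
components of `G = 0` which are not contained in `S = 0`, or the contact with `G = 0` is at least
`M` -/
structure CrD {K : Type} [Field K] [Algebra k K] (I : Ideal (MvPolynomial τ k))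
    (G : MvPolynomial τ k) (m : ℕ) (S : MvPolynomial τ k) (M : ℕ) (z : τ → K)
    (Sp : Finset (DV k K)) : Prop where
  on : ∀ f ∈ I, aeval z f = 0
  one : ∃ j, z j = 1
  ne : aeval z G ≠ 0
  off : ∀ v, v ∉ Sp → (∃ (e : ℕ) (h : MvPolynomial τ k), h.IsHomogeneous e ∧ Van I G S h ∧
    aeval z h ≠ 0 ∧ v.ord (aeval z h) = -(e * poleOrder v z)) ∨
    (M : ℤ) - m * poleOrder v z ≤ v.ord (aeval z G)

/-- outside `Ψ = 0` the degree of the map is at most `B χ` -/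
def SfD (I : Ideal (MvPolynomial τ k)) (G : MvPolynomial τ k) (m : ℕ) (S : MvPolynomial τ k) :
    Prop := ∃ (B M N : ℕ) (Ψ : MvPolynomial τ k), Ψ ∉ I ∧ Ψ.IsHomogeneous N ∧
  ∀ (K : Type) [Field K] [Algebra k K] [Algebra.EssFiniteType k K], Algebra.trdeg k K = 1 →
  ∀ (D : Derivation k K K), D ≠ 0 → ∀ (z : τ → K) (Sp : Finset (DV k K)),
  CrD I G m S M z Sp → aeval z Ψ ≠ 0 → (∃ i, z i ∉ Set.range (algebraMap k K)) →
  1 ≤ canDeg D + Sp.card ∧ deg k z ≤ B * (canDeg D + Sp.card)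

/-- the divisibility of the determinant of a family of curves at `T = 0` -/
def Gns {F : Type} [Field F] [Algebra k F] (X : τ → F) (J : MvPolynomial (Fin 3) k)
    (c : Fin 3 → τ → k) (GP : MvPolynomial τ k) : Prop :=
  ∀ (L M : Type) [Field L] [Algebra k L] [Field M] [Algebra L M]
  [Algebra k M] [IsScalarTower k L M] (Δ : Derivation k M M) (P : τ → Polynomial L)
  (R : Polynomial L) (a : ℕ), R.coeff 0 ≠ 0 → (∃ i, (P i).coeff 0 ≠ 0) →
  (∀ f : MvPolynomial τ k, aeval X f = 0 → aeval P f = 0) →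
  aeval P GP = R * Polynomial.X ^ a →
  Polynomial.X ^ a ∣ (aeval (lin c P) J).map (algebraMap L M) *
    dt (fun i => (lin c P i).map (algebraMap L M))
      (fun i => pd (fun b => Δ (algebraMap L M b)) (lin c P i))
      (fun i => Polynomial.X * (Polynomial.derivative (lin c P i)).map (algebraMap L M))

end Defs

/-! ### Degree of the image -/

/-- PSW: the section which belongs to the form (T_PSV without the bound for `t`) -/
def T_PSW : Prop := ∀ (k F : Type) [Field k] [IsAlgClosed k] [CharZero k] [Field F]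
  [Algebra k F] (u : Fin 3 → F) (dd : Fin 3 → Derivation k F F) (δ j0 c0 : ℕ)
  (J : MvPolynomial (Fin 3) k), Sfc u dd δ j0 c0 J → ∀ (m : ℕ) (G : F), 1 ≤ m → G ≠ 0 →
  Hm k (eu u dd) m G → ∀ (n t e : ℕ), (e : ℤ) = n * ((m : ℤ) - 2 + 2 * j0) - t →
  ∀ B : MvPolynomial (Fin 3) F, B ≠ 0 → B.IsHomogeneous n →
  (∀ a, B.coeff a ∈ BB k u (eu u dd) e) → ∑ l, C (dd l G) * pderiv l B = 0 →
  ∃ V : Q2 F, V ≠ 0 ∧ V.natDegree = 0 ∧ V ∈ E u dd J m G n (-(t : ℤ))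

/-- NG3: numerics -/
def T_NG3 : Prop := ∀ δ j0 c0 q : ℕ, ∃ N : ℕ, ∀ m sg : ℕ, N * (sg + 1) ≤ m →
  ∃ n h t e e2 : ℕ, 1 ≤ m ∧
  (e : ℤ) = n * ((m : ℤ) - 2 + 2 * j0) - t ∧ (2 * n + 1) * j0 + n * sg < t ∧
  e2 = e + (m + 2 * j0 - 1) ∧ j0 + c0 ≤ e ∧ (∀ r, 8 * r ≤ m → (r + 1) * (h + 1) ≤ e2) ∧
  ∀ τ D1 D2 W1 W2 : ℕ, m ^ 2 ≤ q * τ → δ * (e - j0 - c0) ^ 2 ≤ 2 * D1 →
    2 * D1 ≤ 2 * W1 + τ * (h * (h + 1)) → 2 * W2 + τ * ((h + 1) * (h + 1 + 1)) ≤ 2 * D2 →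
    2 * D2 ≤ δ * (e2 + c0) ^ 2 → n * W2 < (n + 2) * W1

/-- NGT: curves with many nodes which are separated by forms of degree at most `m / 8` -/
def T_NGT : Prop := ∀ δ j0 c0 q : ℕ, ∃ N : ℕ, ∀ (k F σ : Type) [Field k] [IsAlgClosed k]
  [CharZero k] [Field F] [Algebra k F] [Fintype σ] [DecidableEq σ] (X : σ → F) (u : Fin 3 → F)
  (dd : Fin 3 → Derivation k F F) (J : MvPolynomial (Fin 3) k), Sfc u dd δ j0 c0 J →
  Cor X u dd J → ∀ (m sg : ℕ) (GP : MvPolynomial σ k), N * (sg + 1) ≤ m → Nc X m GP →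
  ∀ (r : ℕ) (T : Finset (σ → k)), NSp X GP r T → 8 * r ≤ m → m ^ 2 ≤ q * T.card →
  NgS u dd J j0 m (aeval X GP) sg

/-- EFS: the fundamental inequality for sections of degree 0 in `w`; at the places outside `Sp`
where the curve meets `G = 0` the section may have a pole of order `n` -/
def T_EFS : Prop := ∀ (k F σ : Type) [Field k] [IsAlgClosed k] [CharZero k] [Field F]
  [Algebra k F] [Fintype σ] [DecidableEq σ] (X : σ → F) (u : Fin 3 → F)
  (dd : Fin 3 → Derivation k F F) (δ j0 c0 : ℕ) (J : MvPolynomial (Fin 3) k),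
  Sfc u dd δ j0 c0 J → Cor X u dd J → ∀ (m : ℕ) (GP : MvPolynomial σ k), 1 ≤ m → Nc X m GP →
  ∀ (sg : ℕ) (S : MvPolynomial (Fin 3) k), S.IsHomogeneous sg →
  ∀ (K : Type) [Field K] [Algebra k K] [Algebra.EssFiniteType k K], Algebra.trdeg k K = 1 →
  ∀ (D : Derivation k K K), D ≠ 0 → ∀ (φ : Bb k u →ₐ[k] K) (x : Fin 3 → K) (g : K)
  (Sp : Finset (DV k K)), Crt u J m (aeval X GP) sg S φ x g Sp →
  ∀ (n t : ℕ) (V : Q2 F) (VK : Q2 K), V ∈ E u dd J m (aeval X GP) n (-(t : ℤ)) →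
  V.natDegree = 0 → VQ u φ V VK → evc D x VK ≠ 0 →
  ((t : ℤ) - (2 * n + 1) * j0 - n * sg) * deg k x ≤ n * (canDeg D + Sp.card)

/-- MXS: the theorem, if there is a section of degree 0 in `w` and of negative twist -/
def T_MXS : Prop := ∀ (k F σ : Type) [Field k] [IsAlgClosed k] [CharZero k] [Field F]
  [Algebra k F] [Fintype σ] [DecidableEq σ] (X : σ → F) (u : Fin 3 → F)
  (dd : Fin 3 → Derivation k F F) (δ j0 c0 : ℕ) (J : MvPolynomial (Fin 3) k),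
  Sfc u dd δ j0 c0 J → Cor X u dd J → ∀ (m : ℕ) (GP : MvPolynomial σ k), 2 ≤ m → Nc X m GP →
  ∀ (sg : ℕ) (S : MvPolynomial (Fin 3) k), sg < m → S.IsHomogeneous sg →
  NgS u dd J j0 m (aeval X GP) sg → ∃ B : ℕ,
  ∀ (K : Type) [Field K] [Algebra k K] [Algebra.EssFiniteType k K], Algebra.trdeg k K = 1 →
  ∀ (D : Derivation k K K), D ≠ 0 → ∀ (φ : Bb k u →ₐ[k] K)
  (x : Fin 3 → K) (g : K) (Sp : Finset (DV k K)), Crt u J m (aeval X GP) sg S φ x g Sp →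
  ∃ (e : ℕ) (Φ : MvPolynomial (Fin 3) k), (e : ℤ) ≤ B * max 1 (canDeg D + Sp.card) ∧ Φ ≠ 0 ∧
    Φ.IsHomogeneous e ∧ aeval x Φ = 0

/-- CRX: from the coordinates of the curve to the data of the plane image -/
def T_CRX : Prop := ∀ (k F σ K : Type) [Field k] [IsAlgClosed k] [CharZero k] [Field F]
  [Algebra k F] [Fintype σ] [Field K] [Algebra k K] (X : σ → F) (u : Fin 3 → F) (θ : F)
  (dd : Fin 3 → Derivation k F F) (J : MvPolynomial (Fin 3) k) (δ j0 c0 : ℕ)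
  (c : Fin 3 → σ → k), SrD X u θ dd J δ j0 c0 c → ∀ (m : ℕ) (GP : MvPolynomial σ k) (sg : ℕ)
  (SP : MvPolynomial σ k), GP.IsHomogeneous m → SP.IsHomogeneous sg →
  ∀ (s : ℕ) (S : MvPolynomial (Fin 3) k) (b : F), S.IsHomogeneous s → Itg k u b →
  aeval u S = aeval X SP * b → ∀ (z : σ → K) (Sp : Finset (DV k K)),
  CrJ (RingHom.ker (aeval X : MvPolynomial σ k →ₐ[k] F)) GP m SP sg z Sp →
  aeval (lin c z) J ≠ 0 → aeval (lin c z) S ≠ 0 →
  ∃ (φ : Bb k u →ₐ[k] K) (x : Fin 3 → K) (g t : K), t ≠ 0 ∧ (∀ l, x l = t * lin c z l) ∧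
    Crt u J m (aeval X GP) s S φ x g Sp

/-- MZS: the theorem in terms of the coordinates of the curve -/
def T_MZS : Prop := ∀ δ j0 c0 : ℕ, ∃ N : ℕ, ∀ (k F σ : Type) [Field k] [IsAlgClosed k]
  [CharZero k] [Field F] [Algebra k F] [Fintype σ] [DecidableEq σ] (X : σ → F) (u : Fin 3 → F)
  (θ : F) (dd : Fin 3 → Derivation k F F) (J : MvPolynomial (Fin 3) k) (c : Fin 3 → σ → k),
  Pool.Agent.H17.SD.Cone k X → SrD X u θ dd J δ j0 c0 c → ∀ (m : ℕ) (GP : MvPolynomial σ k)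
  (sg : ℕ) (SP : MvPolynomial σ k), N * (sg + 1) ≤ m → Nc X m GP → SP.IsHomogeneous sg →
  aeval X SP ≠ 0 →
  ∃ B : ℕ, ∀ (K : Type) [Field K] [Algebra k K] [Algebra.EssFiniteType k K],
  Algebra.trdeg k K = 1 → ∀ (D : Derivation k K K), D ≠ 0 → ∀ (z : σ → K)
  (Sp : Finset (DV k K)),
  CrJ (RingHom.ker (aeval X : MvPolynomial σ k →ₐ[k] F)) GP m SP sg z Sp →
  aeval (lin c z) J ≠ 0 → ∃ (e : ℕ) (Φ : MvPolynomial (Fin 3) k),
    (e : ℤ) ≤ B * max 1 (canDeg D + Sp.card) ∧ Φ ≠ 0 ∧ Φ.IsHomogeneous e ∧ aeval (lin c z) Φ = 0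

/-! ### Families of curves which are not of log general type -/

/-- GNQ with the factor `R` -/
def T_GNQR : Prop := ∀ (k F σ : Type) [Field k] [IsAlgClosed k] [CharZero k] [Field F]
  [Algebra k F] [Fintype σ] (X : σ → F) (u : Fin 3 → F) (θ : F)
  (dd : Fin 3 → Derivation k F F) (J : MvPolynomial (Fin 3) k) (δ j0 c0 : ℕ)
  (c : Fin 3 → σ → k), Pool.Agent.H17.SD.Cone k X → SrD X u θ dd J δ j0 c0 c →
  ∀ (m : ℕ) (GP : MvPolynomial σ k), 1 ≤ m → Nc X m GP → ∀ (q : ℕ) (Q : MvPolynomial σ k),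
  Q.IsHomogeneous q → Ndq X GP Q → ∀ (L M : Type) [Field L] [Algebra k L] [Field M]
  [Algebra L M] [Algebra k M] [IsScalarTower k L M] (Δ : Derivation k M M)
  (P : σ → Polynomial L) (R : Polynomial L) (a : ℕ), R.coeff 0 ≠ 0 → (∃ i, (P i).coeff 0 ≠ 0) →
  (∀ f : MvPolynomial σ k, aeval X f = 0 → aeval P f = 0) →
  aeval P GP = R * Polynomial.X ^ a → (aeval P Q).coeff 0 ≠ 0 →
  Polynomial.X ^ a ∣ (aeval (lin c P) J).map (algebraMap L M) *
    dt (fun i => (lin c P i).map (algebraMap L M))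
      (fun i => pd (fun b => Δ (algebraMap L M b)) (lin c P i))
      (fun i => Polynomial.X * (Polynomial.derivative (lin c P i)).map (algebraMap L M))

/-- GNN with the factor `R` -/
def T_GNNR : Prop := ∀ (k F σ : Type) [Field k] [IsAlgClosed k] [CharZero k] [Field F]
  [Algebra k F] [Fintype σ] [DecidableEq σ] (X : σ → F) (u : Fin 3 → F)
  (dd : Fin 3 → Derivation k F F) (J : MvPolynomial (Fin 3) k) (j0 : ℕ)
  (c : Fin 3 → σ → k), SYd X u dd J j0 → (∀ l, u l = ∑ s, c l s • X s) →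
  ∀ (m : ℕ) (GP : MvPolynomial σ k), 1 ≤ m → Nc X m GP → ∀ s : σ → k, s ≠ 0 → Cone X s →
  eval s GP = 0 → ∀ (L M : Type) [Field L] [Algebra k L] [Field M]
  [Algebra L M] [Algebra k M] [IsScalarTower k L M] (Δ : Derivation k M M)
  (P : σ → Polynomial L) (R : Polynomial L) (a : ℕ), R.coeff 0 ≠ 0 →
  (∀ f : MvPolynomial σ k, aeval X f = 0 → aeval P f = 0) →
  aeval P GP = R * Polynomial.X ^ a → ∀ μ : L, μ ≠ 0 →
  (∀ i, (P i).coeff 0 = μ * algebraMap k L (s i)) →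
  Polynomial.X ^ a ∣ dt (fun i => (lin c P i).map (algebraMap L M))
      (fun i => pd (fun b => Δ (algebraMap L M b)) (lin c P i))
      (fun i => Polynomial.X * (Polynomial.derivative (lin c P i)).map (algebraMap L M))

/-- GNS: divisibility for all nodal curves, with the factor `R` -/
def T_GNS : Prop := ∀ (k F σ : Type) [Field k] [IsAlgClosed k] [CharZero k] [Field F]
  [Algebra k F] [Fintype σ] [DecidableEq σ] (X : σ → F) (u : Fin 3 → F) (θ : F)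
  (dd : Fin 3 → Derivation k F F) (J : MvPolynomial (Fin 3) k) (δ j0 c0 : ℕ)
  (c : Fin 3 → σ → k), Pool.Agent.H17.SD.Cone k X → SrD X u θ dd J δ j0 c0 c →
  ∀ (m : ℕ) (GP : MvPolynomial σ k), 1 ≤ m → Nc X m GP → Gns X J c GP

/-- GL4: a family of curves does not move -/
def T_GL4 : Prop := ∀ (k F σ : Type) [Field k] [IsAlgClosed k] [CharZero k] [Field F]
  [Algebra k F] [Fintype σ] (X : σ → F) (u : Fin 3 → F) (θ : F)
  (dd : Fin 3 → Derivation k F F) (J : MvPolynomial (Fin 3) k) (δ j0 c0 : ℕ)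
  (c : Fin 3 → σ → k), SrD X u θ dd J δ j0 c0 c → ∀ (m : ℕ) (GP : MvPolynomial σ k) (sg : ℕ)
  (SP : MvPolynomial σ k), j0 + sg + 4 ≤ m → GP.IsHomogeneous m → SP.IsHomogeneous sg →
  Gns X J c GP → ∀ (L : Type) [Field L] [Algebra k L] (P : σ → Polynomial L) (N e : ℕ),
  1 ≤ e → (∀ i, (P i).natDegree ≤ e) → (∃ i, (P i).coeff e ≠ 0) →
  (∃ i, (P i).coeff 0 ≠ 0) → (∀ f : MvPolynomial σ k, aeval X f = 0 → aeval P f = 0) →
  aeval P SP ≠ 0 → aeval P GP ∣ Polynomial.X ^ N * aeval P SP →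
  ∃ (N' : ℕ) (Ψ : MvPolynomial (Fin 3) k), Ψ ≠ 0 ∧ Ψ.IsHomogeneous N' ∧ aeval (lin c P) Ψ = 0

/-- FA4: finitely many families -/
def T_FA4 : Prop := ∀ (k F σ : Type) [Field k] [IsAlgClosed k] [CharZero k] [Field F]
  [Algebra k F] [Fintype σ] (X : σ → F) (u : Fin 3 → F) (θ : F)
  (dd : Fin 3 → Derivation k F F) (J : MvPolynomial (Fin 3) k) (δ j0 c0 : ℕ)
  (c : Fin 3 → σ → k), SrD X u θ dd J δ j0 c0 c → ∀ (m : ℕ) (GP : MvPolynomial σ k) (sg : ℕ)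
  (SP : MvPolynomial σ k), j0 + sg + 4 ≤ m → GP.IsHomogeneous m → SP.IsHomogeneous sg →
  Gns X J c GP → ∀ e N : ℕ, 1 ≤ e →
  ∃ (N' : ℕ) (Ψ : MvPolynomial (Fin 3) k), Ψ ≠ 0 ∧ Ψ.IsHomogeneous N' ∧
  ∀ p : σ → Polynomial k, (∀ i, (p i).natDegree ≤ e) → (∃ i, (p i).coeff e ≠ 0) →
  (∃ i, (p i).coeff 0 ≠ 0) → (∀ f : MvPolynomial σ k, aeval X f = 0 → aeval p f = 0) →
  aeval p SP ≠ 0 → aeval p GP ∣ Polynomial.X ^ N * aeval p SP → aeval (lin c p) Ψ = 0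

/-- P1S: parametrisation by polynomials -/
def T_P1S : Prop := ∀ (k τ : Type) [Field k] [IsAlgClosed k] [CharZero k] [Fintype τ]
  (I : Ideal (MvPolynomial τ k)), HId I → ∀ (G : MvPolynomial τ k) (m : ℕ)
  (S : MvPolynomial τ k) (sg : ℕ), sg < m → G.IsHomogeneous m → S.IsHomogeneous sg →
  ∀ (K : Type) [Field K] [Algebra k K] [Algebra.EssFiniteType k K],
  Algebra.trdeg k K = 1 → ∀ (D : Derivation k K K), D ≠ 0 → ∀ (z : τ → K)
  (Sp : Finset (DV k K)), IntermediateField.adjoin k (Set.range z) = ⊤ →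
  CrJ I G m S sg z Sp → canDeg D + Sp.card ≤ 0 →
  ∃ (p : τ → Polynomial k) (t y : K) (N : ℕ), y ≠ 0 ∧
  (∀ i, z i = y * Polynomial.aeval t (p i)) ∧ 1 ≤ deg k z ∧
  (∀ i, (p i).natDegree ≤ deg k z) ∧ (∃ i, (p i).coeff (deg k z) ≠ 0) ∧
  (∃ i, (p i).coeff 0 ≠ 0) ∧ aeval p S ≠ 0 ∧ aeval p G ∣ Polynomial.X ^ N * aeval p S ∧
  ∀ f ∈ I, aeval p f = 0

/-- PRS: restriction to the field generated by the coordinates -/
def T_PRS : Prop := ∀ (k τ : Type) [Field k] [IsAlgClosed k] [CharZero k] [Fintype τ]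
  (I : Ideal (MvPolynomial τ k)) (G : MvPolynomial τ k) (m : ℕ) (S : MvPolynomial τ k)
  (sg : ℕ), G.IsHomogeneous m → S.IsHomogeneous sg →
  ∀ (K : Type) [Field K] [Algebra k K] [Algebra.EssFiniteType k K], Algebra.trdeg k K = 1 →
  ∀ (D : Derivation k K K), D ≠ 0 → ∀ (z : τ → K) (Sp : Finset (DV k K)),
  CrJ I G m S sg z Sp → (∀ i, z i ∈ Set.range (algebraMap k K)) ∨
  ∃ (K0 : Type) (_ : Field K0) (_ : Algebra k K0) (_ : Algebra.EssFiniteType k K0)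
    (ι : K0 →ₐ[k] K) (z0 : τ → K0) (D0 : Derivation k K0 K0) (μ : K) (S0 : Finset (DV k K0)),
    Algebra.trdeg k K0 = 1 ∧ D0 ≠ 0 ∧ (∀ i, ι (z0 i) = z i) ∧
    IntermediateField.adjoin k (Set.range z0) = ⊤ ∧ μ ≠ 0 ∧
    (∀ y, D (ι y) = μ * ι (D0 y)) ∧ CrJ I G m S sg z0 S0 ∧ S0.card ≤ Sp.card

/-- X14: the curves of bounded degree which are not of log general type -/
def T_X14 : Prop := ∀ (k F σ : Type) [Field k] [IsAlgClosed k] [CharZero k] [Field F]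
  [Algebra k F] [Fintype σ] (X : σ → F) (u : Fin 3 → F) (θ : F)
  (dd : Fin 3 → Derivation k F F) (J : MvPolynomial (Fin 3) k) (δ j0 c0 : ℕ)
  (c : Fin 3 → σ → k), SrD X u θ dd J δ j0 c0 c → ∀ (m : ℕ) (GP : MvPolynomial σ k) (sg : ℕ)
  (SP : MvPolynomial σ k), j0 + sg + 4 ≤ m → GP.IsHomogeneous m → SP.IsHomogeneous sg →
  Gns X J c GP → ∀ e0 : ℕ,
  ∃ (N : ℕ) (Ψ : MvPolynomial (Fin 3) k), Ψ ≠ 0 ∧ Ψ.IsHomogeneous N ∧
  ∀ (K : Type) [Field K] [Algebra k K] [Algebra.EssFiniteType k K], Algebra.trdeg k K = 1 →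
  ∀ (D : Derivation k K K), D ≠ 0 → ∀ (z : σ → K) (Sp : Finset (DV k K)),
  IntermediateField.adjoin k (Set.range z) = ⊤ →
  CrJ (RingHom.ker (aeval X : MvPolynomial σ k →ₐ[k] F)) GP m SP sg z Sp → deg k z ≤ e0 →
  canDeg D + Sp.card ≤ 0 → aeval (lin c z) Ψ = 0

/-- FB4: degree of the map -/
def T_FB4 : Prop := ∀ δ j0 c0 : ℕ, ∃ N : ℕ, ∀ (k F σ : Type) [Field k] [IsAlgClosed k]
  [CharZero k] [Field F] [Algebra k F] [Fintype σ] (X : σ → F) (u : Fin 3 → F) (θ : F)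
  (dd : Fin 3 → Derivation k F F) (J : MvPolynomial (Fin 3) k) (c : Fin 3 → σ → k),
  Pool.Agent.H17.SD.Cone k X → SrD X u θ dd J δ j0 c0 c → ∀ (m : ℕ) (GP : MvPolynomial σ k)
  (sg : ℕ) (SP : MvPolynomial σ k), N * (sg + 1) ≤ m → Nc X m GP → SP.IsHomogeneous sg →
  aeval X SP ≠ 0 → SfJ (RingHom.ker (aeval X : MvPolynomial σ k →ₐ[k] F)) GP m SP sg

/-! ### The union of the components which are not contained in `S = 0` -/

/-- NUL: a form `h` which vanishes on the components of `G = 0` which are not contained in `S = 0`: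
`S h` is divisible by `G` -/
def T_NUL : Prop := ∀ (k F σ : Type) [Field k] [IsAlgClosed k] [CharZero k] [Field F]
  [Algebra k F] [Fintype σ] (X : σ → F) (u : Fin 3 → F) (θ : F)
  (dd : Fin 3 → Derivation k F F) (J : MvPolynomial (Fin 3) k) (δ j0 c0 : ℕ)
  (c : Fin 3 → σ → k), Pool.Agent.H17.SD.Cone k X → SrD X u θ dd J δ j0 c0 c →
  ∀ (m : ℕ) (GP : MvPolynomial σ k), 1 ≤ m → Nc X m GP → ∀ SP h : MvPolynomial σ k,
  Van (RingHom.ker (aeval X : MvPolynomial σ k →ₐ[k] F)) GP SP h →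
  Itg k u (aeval X SP * aeval X h / aeval X GP)

/-- NUJ: the order of contact with `G = 0` at a place whose centre does not lie on these
components -/
def T_NUJ : Prop := ∀ (k F σ K : Type) [Field k] [IsAlgClosed k] [CharZero k] [Field F]
  [Algebra k F] [Fintype σ] [Field K] [Algebra k K] (X : σ → F) (u : Fin 3 → F) (θ : F)
  (dd : Fin 3 → Derivation k F F) (J : MvPolynomial (Fin 3) k) (δ j0 c0 : ℕ)
  (c : Fin 3 → σ → k), Pool.Agent.H17.SD.Cone k X → SrD X u θ dd J δ j0 c0 c →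
  ∀ (m : ℕ) (GP : MvPolynomial σ k) (sg : ℕ) (SP : MvPolynomial σ k), 1 ≤ m → Nc X m GP →
  SP.IsHomogeneous sg → ∀ z : σ → K, (∀ f : MvPolynomial σ k, aeval X f = 0 → aeval z f = 0) →
  (∃ j, z j = 1) → aeval (lin c z) J ≠ 0 → aeval z GP ≠ 0 → aeval z SP ≠ 0 → ∀ v : DV k K,
  ∀ (e : ℕ) (h : MvPolynomial σ k), h.IsHomogeneous e →
  Van (RingHom.ker (aeval X : MvPolynomial σ k →ₐ[k] F)) GP SP h → aeval z h ≠ 0 →
  v.ord (aeval z h) = -(e * poleOrder v z) →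
  v.ord (aeval z GP) + m * poleOrder v z ≤ v.ord (aeval z SP) + sg * poleOrder v z

/-- ORD: from `SfJ` to `SfD` -/
def T_ORD : Prop := ∀ (k F σ : Type) [Field k] [IsAlgClosed k] [CharZero k] [Field F]
  [Algebra k F] [Fintype σ] (X : σ → F) (u : Fin 3 → F) (θ : F)
  (dd : Fin 3 → Derivation k F F) (J : MvPolynomial (Fin 3) k) (δ j0 c0 : ℕ)
  (c : Fin 3 → σ → k), Pool.Agent.H17.SD.Cone k X → SrD X u θ dd J δ j0 c0 c →
  ∀ (m : ℕ) (GP : MvPolynomial σ k) (sg : ℕ) (SP : MvPolynomial σ k), 1 ≤ m → Nc X m GP →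
  SP.IsHomogeneous sg → aeval X SP ≠ 0 →
  SfJ (RingHom.ker (aeval X : MvPolynomial σ k →ₐ[k] F)) GP m SP sg →
  SfD (RingHom.ker (aeval X : MvPolynomial σ k →ₐ[k] F)) GP m SP

/-! ### Final forms -/

/-- GCD: arbitrary homogeneous coordinates, degree of the image -/
def T_GCD : Prop := ∀ (k τ : Type) [Field k] [IsAlgClosed k] [CharZero k] [Fintype τ]
  (I : Ideal (MvPolynomial τ k)) [I.IsPrime] (G S : MvPolynomial τ k) (m : ℕ)
  (c : Fin 3 → τ → k), (∀ Φ : MvPolynomial (Fin 3) k, Φ ≠ 0 →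
    aeval (lin c (X : τ → MvPolynomial τ k)) Φ ∉ I) → HId I → 1 ≤ m → G.IsHomogeneous m →
  G ∉ I → SfD I G m S →
  ∃ (B M N : ℕ) (Ψ : MvPolynomial τ k), Ψ ∉ I ∧ Ψ.IsHomogeneous N ∧
  ∀ (K : Type) [Field K] [Algebra k K] [Algebra.EssFiniteType k K], Algebra.trdeg k K = 1 →
  ∀ (D : Derivation k K K), D ≠ 0 → ∀ (z : τ → K) (Sp : Finset (DV k K)),
  (∀ f ∈ I, aeval z f = 0) →
  (∀ v, v ∉ Sp → ∃ j, z j ≠ 0 ∧ (∀ i, z i ≠ 0 → v.ord (z j) ≤ v.ord (z i)) ∧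
    ((∃ (e : ℕ) (h : MvPolynomial τ k), h.IsHomogeneous e ∧ Van I G S h ∧ aeval z h ≠ 0 ∧
      v.ord (aeval z h) = e * v.ord (z j)) ∨ m * v.ord (z j) + M ≤ v.ord (aeval z G))) →
  (∃ (e : ℕ) (Φ : MvPolynomial τ k), (e : ℤ) ≤ B * max 1 (canDeg D + Sp.card) ∧ Φ ∉ I ∧
    Φ.IsHomogeneous e ∧ aeval z Φ = 0) ∧
  (aeval z Ψ ≠ 0 → (∃ i j, z j ≠ 0 ∧ z i / z j ∉ Set.range (algebraMap k K)) →
    1 ≤ canDeg D + Sp.card ∧
    ∀ j, z j ≠ 0 → deg k (fun i => z i / z j) ≤ B * (canDeg D + Sp.card))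

/-- FCD: the curves in an affine variety with a morphism to the surface: the inverse image of the
curve `D` is contained in the union of the zero sets of the ideals `J a`, along which `G` vanishes
to the order `M` -/
def T_FCD : Prop := ∀ (k K τ : Type) [Field k] [IsAlgClosed k] [CharZero k] [Field K]
  [Algebra k K] [Fintype τ] (I : Ideal (MvPolynomial τ k)) (G S : MvPolynomial τ k) (m M : ℕ),
  HId I → G.IsHomogeneous m → ∀ (σ : Type) (P : Ideal (MvPolynomial σ k))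
  (φ : τ → MvPolynomial σ k) (r : ℕ) (J : Fin r → Ideal (MvPolynomial σ k))
  (ε ε' : Fin r → ℕ) (E : ℕ), (∀ a, M ≤ ε a) → (∀ f ∈ I, aeval φ f ∈ P) →
  aeval φ G ∈ (Ideal.span (Set.range φ) ^ m * ∏ a, J a ^ ε a) ⊔ P →
  Ideal.span (Set.range φ) ^ E * ∏ a, J a ^ ε' a ≤
    Ideal.span {g | ∃ h : MvPolynomial τ k, h.IsHomogeneous E ∧ Van I G S h ∧ g = aeval φ h} ⊔ P →
  ∀ (Sp : Finset (DV k K)) (z : σ → K), (∀ p ∈ P, aeval z p = 0) →
  (∀ v, v ∉ Sp → ∀ j, 0 ≤ v.ord (z j)) → ∀ Z : τ → K, (∀ j, Z j = aeval z (φ j)) →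
  aeval Z G ≠ 0 → ∀ j0 : τ, Z j0 ≠ 0 → CrD I G m S M (fun j => (Z j0)⁻¹ * Z j) Sp

/-- XPD: affine varieties over products of surfaces -/
def T_XPD : Prop := ∀ (k : Type) [Field k] [IsAlgClosed k] [CharZero k] (ι : Type) [Fintype ι]
  [DecidableEq ι] [Nonempty ι] (τ : ι → Type) [∀ i, Fintype (τ i)]
  (I : ∀ i, Ideal (MvPolynomial (τ i) k)) [∀ i, (I i).IsPrime]
  (G S : ∀ i, MvPolynomial (τ i) k) (m : ι → ℕ),
  (∀ i, HId (I i)) → (∀ i, 1 ≤ m i) → (∀ i, (G i).IsHomogeneous (m i)) → (∀ i, G i ∉ I i) →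
  (∀ i, SfD (I i) (G i) (m i) (S i)) →
  ∃ (Ψ : ∀ i, MvPolynomial (τ i) k) (M : ι → ℕ),
  (∀ i, Ψ i ∉ I i ∧ ∃ N, (Ψ i).IsHomogeneous N) ∧
  ∀ (σ : Type) [Fintype σ] (P : Ideal (MvPolynomial σ k)) (φ : ∀ i, τ i → MvPolynomial σ k),
  P.IsPrime → (∀ i, ∀ f ∈ I i, aeval (φ i) f ∈ P) → (∀ i, aeval (φ i) (Ψ i) ∉ P) →
  GenFinS P φ →
  (∀ i, ∃ (r : ℕ) (J : Fin r → Ideal (MvPolynomial σ k)) (ε ε' : Fin r → ℕ) (E : ℕ),
    (∀ a, M i ≤ ε a) ∧
    aeval (φ i) (G i) ∈ (Ideal.span (Set.range (φ i)) ^ m i * ∏ a, J a ^ ε a) ⊔ P ∧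
    Ideal.span (Set.range (φ i)) ^ E * ∏ a, J a ^ ε' a ≤ Ideal.span {g | ∃ h,
      h.IsHomogeneous E ∧ Van (I i) (G i) (S i) h ∧ g = aeval (φ i) h} ⊔ P) →
  ∃ (h : MvPolynomial σ k) (B : ℕ), h ∉ P ∧
    DegreeBound k (P : Set (MvPolynomial σ k)) h (fun χ => B * χ)

end Pool.Agent.H84.S2
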